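import Mathlib

/-!
# Alexander–Spanier cohomology mod 2 of subsets of a metric space, by hand

Cochains are all functions `(Fin n → X) → ZMod 2` (`n` points, degree `n - 1`); only their values on
small tuples of points of the sets in question matter.  `Coc S S' f`: `f` is a cocycle of the pair
`(S, S')`; `Cob S S' f`: it is a coboundary; `HZ n S S'`: the cohomology of the pair vanishes (on `n`
points); `HG S S' g`: it is `ZMod 2`, generated by `g`.
Contents: exact sequence of a triple (`les1`, `les2`, `les3`), contiguity (`contig`), pull back (`Coc.pb`),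
continuity (`cob_thickening`), excision (`excision_inj`, `excision_surj`), homotopy invariance
(`homotopy`), the operators `chi`, `lam` and the local classes `GG` of maps to `ℝ^m`, contractible sets.
-/

set_option autoImplicit false

namespace ASC

open Finset

/-- cochains: all functions on tuples of `n` points -/
abbrev Coch (X : Type*) (n : ℕ) := (Fin n → X) → ZMod 2

variable {X Y Z : Type*}

/-- the coboundary (mod 2, no signs) -/
def dl {n : ℕ} (f : Coch X n) : Coch X (n + 1) :=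
  fun x => ∑ j : Fin (n + 1), f (fun i => x (j.succAbove i))

/-- the prism operator between two functions -/
def prism (φ ψ : Y → X) : ∀ n : ℕ, Coch X (n + 1) → Coch Y n
  | 0, _ => fun _ => 0
  | n + 1, F => fun y =>
      F (Fin.cons (φ (y 0)) (fun i => ψ (y i))) +
        prism φ ψ n (fun w => F (Fin.cons (φ (y 0)) w)) (Fin.tail y)

/-- pull back of cochains by an arbitrary function -/
def pb (φ : Y → X) {n : ℕ} (f : Coch X n) : Coch Y n := fun y => f (fun i => φ (y i))

/-- indicator of a proposition in `ZMod 2` -/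
noncomputable def ind (P : Prop) : ZMod 2 := by
  classical
  exact if P then 1 else 0

/-- multiplication with the indicator function of `{f ≥ 0}` at the first point -/
noncomputable def chi (f : X → ℝ) {n : ℕ} (U : Coch X (n + 1)) : Coch X (n + 1) :=
  fun x => ind (0 ≤ f (x 0)) * U x

/-- the operator `Λ_f`: cup product with the coboundary of the indicator function of `{f ≥ 0}` -/
noncomputable def lam (f : X → ℝ) {n : ℕ} (U : Coch X (n + 1)) : Coch X (n + 2) :=
  fun x => (ind (0 ≤ f (x 0)) + ind (0 ≤ f (x 1))) * U (Fin.tail x)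

lemma z2 (a : ZMod 2) : a + a = 0 := CharTwo.add_self_eq_zero a

lemma add_self_coch {n : ℕ} (f : Coch X n) : f + f = 0 := by
  funext x; exact z2 _

lemma dl_cons {n : ℕ} (f : Coch X (n + 1)) (a : X) (x : Fin (n + 1) → X) :
    dl f (Fin.cons a x : Fin (n + 2) → X) = f x + dl (fun w => f (Fin.cons a w)) x := by
  unfold dl
  rw [Fin.sum_univ_succ]
  congr 1
  · refine Finset.sum_congr rfl (fun j _ => ?_)
    congr 1
    funext i
    refine Fin.cases ?_ (fun i => ?_) i
    · simp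
    · simp

lemma dl_add {n : ℕ} (f g : Coch X n) : dl (f + g) = dl f + dl g := by
  funext x
  simp [dl, Finset.sum_add_distrib]

lemma dl_zero {n : ℕ} : dl (0 : Coch X n) = 0 := by
  funext x
  simp [dl]

lemma dl_dl : ∀ {n : ℕ} (f : Coch X n), dl (dl f) = 0 := by
  intro n
  induction n with
  | zero =>
    intro f
    funext x
    have h : ∀ y : Fin 0 → X, f y = f Fin.elim0 := fun y => by
      congr 1; funext i; exact i.elim0
    simp only [dl, h, Finset.sum_const, Finset.card_univ, Fintype.card_fin, Pi.zero_apply]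
    simp [z2, two_mul]
  | succ n ih =>
    intro f
    funext x
    rw [← Fin.cons_self_tail x, dl_cons]
    have h : (fun w => dl f (Fin.cons (x 0) w : Fin (n + 2) → X)) =
        f + dl (fun w => f (Fin.cons (x 0) w)) := by
      funext w
      rw [dl_cons]; rfl
    rw [h, dl_add]
    simp only [Pi.add_apply, ih, add_zero, z2, Pi.zero_apply]

lemma dl_pb (φ : Y → X) {n : ℕ} (f : Coch X n) : dl (pb φ f) = pb φ (dl f) := rfl

lemma pb_add (φ : Y → X) {n : ℕ} (f g : Coch X n) : pb φ (f + g) = pb φ f + pb φ g := rfl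

lemma pb_pb (φ : Y → X) (ψ : Z → Y) {n : ℕ} (f : Coch X n) : pb ψ (pb φ f) = pb (φ ∘ ψ) f := rfl

lemma prism_add (φ ψ : Y → X) : ∀ {n : ℕ} (f g : Coch X (n + 1)),
    prism φ ψ n (f + g) = prism φ ψ n f + prism φ ψ n g := by
  intro n
  induction n with
  | zero => intro f g; funext y; simp [prism]
  | succ n ih =>
    intro f g
    funext y
    have h := congrFun (ih (fun w => f (Fin.cons (φ (y 0)) w)) (fun w => g (Fin.cons (φ (y 0)) w)))
      (Fin.tail y)
    simp only [prism, Pi.add_apply] at h ⊢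
    have h2 : (fun w => f (Fin.cons (φ (y 0)) w : Fin (n + 2) → X) +
        g (Fin.cons (φ (y 0)) w : Fin (n + 2) → X)) =
        (fun w => f (Fin.cons (φ (y 0)) w)) + (fun w => g (Fin.cons (φ (y 0)) w)) := rfl
    rw [h2, h]
    ring

/-- the prism identity -/
lemma prism_identity (φ ψ : Y → X) : ∀ {n : ℕ} (F : Coch X (n + 1)) (y : Fin (n + 1) → Y),
    dl (prism φ ψ n F) y + prism φ ψ (n + 1) (dl F) y = pb φ F y + pb ψ F y := by
  intro n
  induction n with
  | zero =>
    intro F y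
    have h1 : dl (prism φ ψ 0 F) y = 0 := by simp [dl, prism]
    rw [h1]
    simp only [prism, pb, zero_add, add_zero]
    rw [dl_cons]
    have h2 : dl (fun w => F (Fin.cons (φ (y 0)) w : Fin 1 → X)) (fun i => ψ (y i)) =
        F (fun i => φ (y i)) := by
      have h3 : ∀ z : Fin 0 → X, (Fin.cons (φ (y 0)) z : Fin 1 → X) = (fun i => φ (y i)) := by
        intro z
        funext i
        refine Fin.cases ?_ (fun i => i.elim0) i
        simp
      simp only [dl, h3, Finset.sum_const, Finset.card_univ, Fintype.card_fin]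
      simp
    rw [h2, add_comm]
  | succ n ih =>
    intro F y
    obtain ⟨a, y', rfl⟩ : ∃ a y', y = (Fin.cons a y' : Fin (n + 2) → Y) :=
      ⟨y 0, Fin.tail y, (Fin.cons_self_tail y).symm⟩
    set Fa : Coch X (n + 1) := fun w => F (Fin.cons (φ a) w) with hFa
    set Fab : Coch X n := fun w => Fa (Fin.cons (ψ a) w) with hFab
    have hψ : (fun i => ψ ((Fin.cons a y' : Fin (n + 2) → Y) i)) =
        (Fin.cons (ψ a) (fun i => ψ (y' i)) : Fin (n + 2) → X) := by
      funext i; refine Fin.cases ?_ (fun i => ?_) i <;> simp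
    have hφ : (fun i => φ ((Fin.cons a y' : Fin (n + 2) → Y) i)) =
        (Fin.cons (φ a) (fun i => φ (y' i)) : Fin (n + 2) → X) := by
      funext i; refine Fin.cases ?_ (fun i => ?_) i <;> simp
    have hpr : ∀ (m : ℕ) (G : Coch X (m + 2)) (w : Fin m → Y) (b : Y),
        prism φ ψ (m + 1) G (Fin.cons b w : Fin (m + 1) → Y) =
        G (Fin.cons (φ b) (Fin.cons (ψ b) (fun i => ψ (w i)))) +
          prism φ ψ m (fun w => G (Fin.cons (φ b) w)) w := by
      intro m G w b
      simp only [prism, Fin.cons_zero, Fin.tail_cons]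
      congr 2
      congr 1
      funext i; refine Fin.cases ?_ (fun i => ?_) i <;> simp
    -- first term
    have e1 : dl (prism φ ψ (n + 1) F) (Fin.cons a y' : Fin (n + 2) → Y) =
        prism φ ψ (n + 1) F y' + (dl (pb ψ Fab) y' + dl (prism φ ψ n Fa) y') := by
      rw [dl_cons]
      congr 1
      have : (fun w => prism φ ψ (n + 1) F (Fin.cons a w : Fin (n + 1) → Y)) =
          pb ψ Fab + prism φ ψ n Fa := by
        funext w
        rw [hpr]
        rfl
      rw [this, dl_add]; rfl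
    have e2 : prism φ ψ (n + 1 + 1) (dl F) (Fin.cons a y' : Fin (n + 2) → Y) =
        (pb ψ F (Fin.cons a y' : Fin (n + 2) → Y) + (Fa (fun i => ψ (y' i)) +
          dl Fab (fun i => ψ (y' i)))) +
          (prism φ ψ (n + 1) F y' + prism φ ψ (n + 1) (dl Fa) y') := by
      rw [hpr]
      congr 1
      · rw [dl_cons, dl_cons]
        have : pb ψ F (Fin.cons a y' : Fin (n + 2) → Y) =
            F (Fin.cons (ψ a) (fun i => ψ (y' i))) := by
          unfold pb; rw [hψ]
        rw [this]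
      · have : (fun w => dl F (Fin.cons (φ a) w : Fin (n + 3) → X)) = F + dl Fa := by
          funext w
          rw [dl_cons]; rfl
        rw [this, prism_add]; rfl
    have e3 := ih Fa y'
    have e4 : pb φ F (Fin.cons a y' : Fin (n + 2) → Y) = pb φ Fa y' := by
      unfold pb; rw [hφ]
    have e5 : dl (pb ψ Fab) y' = dl Fab (fun i => ψ (y' i)) := rfl
    rw [e1, e2, e4, e5]
    have e6 : Fa (fun i => ψ (y' i)) = pb ψ Fa y' := rfl
    rw [e6]
    have e3' : prism φ ψ (n + 1) (dl Fa) y' =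
        dl (prism φ ψ n Fa) y' + pb φ Fa y' + pb ψ Fa y' := by
      have := congrArg (fun t => dl (prism φ ψ n Fa) y' + t) e3
      simp only [← add_assoc, z2, zero_add] at this
      rw [this]
    rw [e3']
    have key : ∀ p q r s t u : ZMod 2, p + (q + r) + (s + (t + q) + (p + (r + u + t))) = u + s := by
      decide
    exact key _ _ _ _ _ _

/-- local nature of `dl` -/
lemma dl_eq_zero {n : ℕ} (f : Coch X n) (x : Fin (n + 1) → X)
    (h : ∀ z : Fin n → X, (∀ i, ∃ j, z i = x j) → f z = 0) : dl f x = 0 := by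
  unfold dl
  exact Finset.sum_eq_zero (fun j _ => h _ (fun i => ⟨_, rfl⟩))

lemma dl_congr {n : ℕ} (f g : Coch X n) (x : Fin (n + 1) → X)
    (h : ∀ z : Fin n → X, (∀ i, ∃ j, z i = x j) → f z = g z) : dl f x = dl g x := by
  unfold dl
  exact Finset.sum_congr rfl (fun j _ => h _ (fun i => ⟨_, rfl⟩))

/-- local nature of the prism operator -/
lemma prism_eq_zero (φ ψ : Y → X) (P : X → Prop) : ∀ {n : ℕ} (F : Coch X (n + 1)) (y : Fin n → Y),
    (∀ i, P (φ (y i)) ∧ P (ψ (y i))) →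
    (∀ x : Fin (n + 1) → X, (∀ i, P (x i)) → F x = 0) → prism φ ψ n F y = 0 := by
  intro n
  induction n with
  | zero => intro F y _ _; rfl
  | succ n ih =>
    intro F y hy hF
    simp only [prism]
    rw [hF, ih, zero_add]
    · intro i; exact hy i.succ
    · intro w hw
      apply hF
      intro i
      refine Fin.cases ?_ (fun i => ?_) i
      · simpa using (hy 0).1
      · simpa using hw i
    · intro i
      refine Fin.cases ?_ (fun i => ?_) i
      · simpa using (hy 0).1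
      · simpa using (hy i).2


/-! ### Small tuples, cocycles, coboundaries -/

section metric

variable [PseudoMetricSpace X] [PseudoMetricSpace Y]

/-- a tuple of points of `S` of mutual distance `< ε` -/
def Sm (S : Set X) (ε : ℝ) {n : ℕ} (x : Fin n → X) : Prop :=
  (∀ i, x i ∈ S) ∧ ∀ i j, dist (x i) (x j) < ε

/-- `f` vanishes on all sufficiently small tuples of points of `S` -/
def Van (S : Set X) {n : ℕ} (f : Coch X n) : Prop := ∃ ε > 0, ∀ x, Sm S ε x → f x = 0

/-- cocycles of the pair `(S, S')` -/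
structure Coc (S S' : Set X) {n : ℕ} (f : Coch X n) : Prop where
  van : Van S' f
  cl : Van S (dl f)

/-- coboundaries of the pair `(S, S')` -/
def Cob (S S' : Set X) : ∀ {n : ℕ}, Coch X n → Prop
  | 0, f => Van S f
  | _ + 1, f => ∃ g, Van S' g ∧ Van S (f + dl g)

/-- `H(S, S')` vanishes on cochains with `n` points (degree `n - 1`) -/
def HZ (n : ℕ) (S S' : Set X) : Prop := ∀ f : Coch X n, Coc S S' f → Cob S S' f

/-- `H(S, S')` (on `n` points) is generated by `g`, which is not zero: so it is `ZMod 2` -/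
structure HG {n : ℕ} (S S' : Set X) (g : Coch X n) : Prop where
  coc : Coc S S' g
  ne : ¬ Cob S S' g
  gen : ∀ f, Coc S S' f → Cob S S' f ∨ Cob S S' (f + g)

lemma Sm.sub {S : Set X} {ε : ℝ} {n m : ℕ} {x : Fin n → X} (h : Sm S ε x) {z : Fin m → X}
    (hz : ∀ i, ∃ j, z i = x j) : Sm S ε z := by
  refine ⟨fun i => ?_, fun i j => ?_⟩
  · obtain ⟨k, hk⟩ := hz i; rw [hk]; exact h.1 k
  · obtain ⟨k, hk⟩ := hz i
    obtain ⟨l, hl⟩ := hz j
    rw [hk, hl]; exact h.2 k l

lemma Sm.mono {S T : Set X} {ε δ : ℝ} {n : ℕ} {x : Fin n → X} (h : Sm S ε x) (hST : S ⊆ T)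
    (hε : ε ≤ δ) : Sm T δ x :=
  ⟨fun i => hST (h.1 i), fun i j => lt_of_lt_of_le (h.2 i j) hε⟩

lemma Van.mono {S T : Set X} {n : ℕ} {f : Coch X n} (h : Van T f) (hST : S ⊆ T) : Van S f := by
  obtain ⟨ε, hε, h⟩ := h
  exact ⟨ε, hε, fun x hx => h x (hx.mono hST le_rfl)⟩

lemma Van.zero (S : Set X) {n : ℕ} : Van S (0 : Coch X n) := ⟨1, one_pos, fun _ _ => rfl⟩

lemma Van.add {S : Set X} {n : ℕ} {f g : Coch X n} (hf : Van S f) (hg : Van S g) :
    Van S (f + g) := by
  obtain ⟨ε, hε, hf⟩ := hf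
  obtain ⟨δ, hδ, hg⟩ := hg
  refine ⟨min ε δ, lt_min hε hδ, fun x hx => ?_⟩
  rw [Pi.add_apply, hf x (hx.mono subset_rfl (min_le_left _ _)),
    hg x (hx.mono subset_rfl (min_le_right _ _)), add_zero]

lemma Van.dl {S : Set X} {n : ℕ} {f : Coch X n} (hf : Van S f) : Van S (dl f) := by
  obtain ⟨ε, hε, hf⟩ := hf
  exact ⟨ε, hε, fun x hx => dl_eq_zero f x (fun z hz => hf z (hx.sub hz))⟩

lemma Van.empty {n : ℕ} (f : Coch X (n + 1)) : Van (∅ : Set X) f :=
  ⟨1, one_pos, fun _ hx => (hx.1 0).elim⟩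

lemma van_zero_iff {S : Set X} (f : Coch X 0) : Van S f ↔ f = 0 := by
  constructor
  · rintro ⟨ε, _, h⟩
    funext x
    exact h x ⟨fun i => i.elim0, fun i => i.elim0⟩
  · rintro rfl
    exact Van.zero S

lemma Coc.add {S S' : Set X} {n : ℕ} {f g : Coch X n} (hf : Coc S S' f) (hg : Coc S S' g) :
    Coc S S' (f + g) := ⟨hf.van.add hg.van, by rw [dl_add]; exact hf.cl.add hg.cl⟩

lemma Coc.zero (S S' : Set X) {n : ℕ} : Coc S S' (0 : Coch X n) :=
  ⟨Van.zero _, by rw [dl_zero]; exact Van.zero _⟩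

lemma Coc.mono {S S' T T' : Set X} {n : ℕ} {f : Coch X n} (h : Coc T T' f) (hS : S ⊆ T)
    (hS' : S' ⊆ T') : Coc S S' f := ⟨h.van.mono hS', h.cl.mono hS⟩

lemma Coc.eq_zero {S S' : Set X} {f : Coch X 0} (h : Coc S S' f) : f = 0 :=
  (van_zero_iff f).1 h.van

lemma Cob.zero (S S' : Set X) {n : ℕ} : Cob S S' (0 : Coch X n) := by
  cases n with
  | zero => exact Van.zero S
  | succ n => exact ⟨0, Van.zero _, by rw [dl_zero, add_zero]; exact Van.zero _⟩

lemma Cob.of_van {S S' : Set X} {n : ℕ} {f : Coch X n} (h : Van S f) : Cob S S' f := by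
  cases n with
  | zero => exact h
  | succ n => exact ⟨0, Van.zero _, by rw [dl_zero, add_zero]; exact h⟩

lemma Cob.add {S S' : Set X} {n : ℕ} {f g : Coch X n} (hf : Cob S S' f) (hg : Cob S S' g) :
    Cob S S' (f + g) := by
  cases n with
  | zero => exact Van.add hf hg
  | succ n =>
    obtain ⟨a, ha, hf⟩ := hf
    obtain ⟨b, hb, hg⟩ := hg
    refine ⟨a + b, ha.add hb, ?_⟩
    have : f + g + dl (a + b) = (f + dl a) + (g + dl b) := by rw [dl_add]; abel
    rw [this]; exact hf.add hg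

lemma Cob.mono {S S' T T' : Set X} {n : ℕ} {f : Coch X n} (h : Cob T T' f) (hS : S ⊆ T)
    (hS' : S' ⊆ T') : Cob S S' f := by
  cases n with
  | zero => exact Van.mono h hS
  | succ n =>
    obtain ⟨g, hg, hf⟩ := h
    exact ⟨g, hg.mono hS', hf.mono hS⟩

lemma Cob.coc {S S' : Set X} (hS : S' ⊆ S) {n : ℕ} {f : Coch X n} (h : Cob S S' f) :
    Coc S S' f := by
  cases n with
  | zero =>
    have : f = 0 := (van_zero_iff f).1 h
    rw [this]; exact Coc.zero _ _
  | succ n =>
    obtain ⟨g, hg, hf⟩ := h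
    have e : f = (f + dl g) + dl g := by rw [add_assoc, add_self_coch, add_zero]
    constructor
    · rw [e]; exact (hf.mono hS).add hg.dl
    · have := hf.dl
      rwa [dl_add, dl_dl, add_zero] at this

/-- `f` and `g` cohomologous, `f` coboundary: so is `g` -/
lemma Cob.congr {S S' : Set X} {n : ℕ} {f g : Coch X n} (h : Cob S S' (f + g)) (hf : Cob S S' f) :
    Cob S S' g := by
  have := hf.add h
  rwa [← add_assoc, add_self_coch, zero_add] at this

lemma Cob.congr' {S S' : Set X} {n : ℕ} {f g : Coch X n} (h : Cob S S' (f + g))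
    (hg : Cob S S' g) : Cob S S' f := by
  rw [add_comm] at h; exact h.congr hg

lemma Cob.trans {S S' : Set X} {n : ℕ} {f g k : Coch X n} (h : Cob S S' (f + g))
    (h' : Cob S S' (g + k)) : Cob S S' (f + k) := by
  have := h.add h'
  have e : f + g + (g + k) = (g + g) + (f + k) := by abel
  rwa [e, add_self_coch, zero_add] at this

lemma Coc.dl {S S' T : Set X} {n : ℕ} {f : Coch X n} (h : Coc S' T f) : Coc S S' (ASC.dl f) :=
  ⟨h.cl, by rw [dl_dl]; exact Van.zero _⟩

/-! ### The exact sequence of a triple `S'' ⊆ S' ⊆ S` -/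

lemma les1 {S S' S'' : Set X} {n : ℕ} {F : Coch X n}
    (hF : Coc S S'' F) (h : Cob S' S'' F) : ∃ F', Coc S S' F' ∧ Cob S S'' (F + F') := by
  cases n with
  | zero =>
    rw [hF.eq_zero]
    exact ⟨0, Coc.zero _ _, by rw [add_zero]; exact Cob.zero _ _⟩
  | succ n =>
    obtain ⟨g, hg, h⟩ := h
    refine ⟨F + ASC.dl g, ⟨h, ?_⟩, ⟨g, hg, ?_⟩⟩
    · rw [dl_add, dl_dl, add_zero]; exact hF.cl
    · have : F + (F + ASC.dl g) + ASC.dl g = 0 := by
        have e : F + (F + ASC.dl g) + ASC.dl g = (F + F) + (ASC.dl g + ASC.dl g) := by abel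
        rw [e, add_self_coch, add_self_coch, add_zero]
      rw [this]; exact Van.zero _

lemma les2 {S S' S'' : Set X} (hS' : S'' ⊆ S') {n : ℕ} {f : Coch X n}
    (hf : Coc S' S'' f) (h : Cob S S' (ASC.dl f)) : ∃ F, Coc S S'' F ∧ Cob S' S'' (F + f) := by
  obtain ⟨g, hg, h⟩ := h
  refine ⟨f + g, ⟨hf.van.add (hg.mono hS'), by rw [dl_add]; exact h⟩, ?_⟩
  have : f + g + f = g := by
    have e : f + g + f = (f + f) + g := by abel
    rw [e, add_self_coch, zero_add]
  rw [this]; exact Cob.of_van hg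

lemma les3 {S S' S'' : Set X} (hS : S' ⊆ S) {n : ℕ} {F : Coch X (n + 1)}
    (hF : Coc S S' F) (h : Cob S S'' F) : ∃ f, Coc S' S'' f ∧ Cob S S' (F + ASC.dl f) := by
  obtain ⟨g, hg, h⟩ := h
  refine ⟨g, ⟨hg, ?_⟩, Cob.of_van h⟩
  have := (h.mono hS).add hF.van
  have e : F + ASC.dl g + F = ASC.dl g := by
    have e : F + ASC.dl g + F = (F + F) + ASC.dl g := by abel
    rw [e, add_self_coch, zero_add]
  rwa [e] at this

/-- the connecting map is well defined -/
lemma Cob.dl {S S' S'' : Set X} {n : ℕ} {f : Coch X n} (h : Cob S' S'' f) :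
    Cob S S' (ASC.dl f) := by
  cases n with
  | zero =>
    have : f = 0 := (van_zero_iff f).1 h
    rw [this, dl_zero]; exact Cob.zero _ _
  | succ n =>
    obtain ⟨g, hg, h⟩ := h
    refine ⟨f + ASC.dl g, h, ?_⟩
    rw [dl_add, dl_dl, add_zero, add_self_coch]; exact Van.zero _

/-- the composition of two maps of the sequence of a triple vanishes -/
lemma Cob.dl' {S S' S'' : Set X} {n : ℕ} {f : Coch X n} (h : Coc S S'' f) :
    Cob S S' (ASC.dl f) := by
  refine ⟨0, Van.zero _, ?_⟩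
  rw [dl_zero, add_zero]; exact h.cl

lemma Cob.dl'' {S S' S'' : Set X} {n : ℕ} {f : Coch X n} (h : Coc S' S'' f) :
    Cob S S'' (ASC.dl f) :=
  ⟨f, h.van, by rw [add_self_coch]; exact Van.zero _⟩

/-! ### Contiguous functions -/

lemma contig {S S' : Set Y} {R R' : Set X} (hS : S' ⊆ S) {φ ψ : Y → X} {n : ℕ} {F : Coch X n}
    {ε δ : ℝ} (hδ : 0 < δ)
    (hF : ∀ x, Sm R ε x → dl F x = 0) (hF' : ∀ x, Sm R' ε x → F x = 0)
    (h : ∀ y ∈ S, φ y ∈ R ∧ ψ y ∈ R) (h' : ∀ y ∈ S', φ y ∈ R' ∧ ψ y ∈ R')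
    (hc : ∀ y ∈ S, ∀ y' ∈ S, dist y y' < δ →
      dist (φ y) (φ y') < ε ∧ dist (φ y) (ψ y') < ε ∧ dist (ψ y) (ψ y') < ε) :
    Cob S S' (pb φ F + pb ψ F) := by
  have key : ∀ {m : ℕ} (y : Fin m → Y), Sm S δ y → ∀ (T : Set X), (∀ i, φ (y i) ∈ T ∧ ψ (y i) ∈ T) →
      ∀ {k : ℕ} (x : Fin k → X), (∀ i, ∃ j, x i = φ (y j) ∨ x i = ψ (y j)) → Sm T ε x := by
    intro m y hy T hT k x hx
    refine ⟨fun i => ?_, fun i j => ?_⟩
    · obtain ⟨l, hl | hl⟩ := hx i
      · rw [hl]; exact (hT l).1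
      · rw [hl]; exact (hT l).2
    · obtain ⟨l, hl⟩ := hx i
      obtain ⟨m', hm⟩ := hx j
      have h1 := hc _ (hy.1 l) _ (hy.1 m') (hy.2 l m')
      have h2 := hc _ (hy.1 m') _ (hy.1 l) (hy.2 m' l)
      rcases hl with hl | hl <;> rcases hm with hm | hm <;> rw [hl, hm]
      · exact h1.1
      · exact h1.2.1
      · rw [dist_comm]; exact h2.2.1
      · exact h1.2.2
  cases n with
  | zero =>
    have : pb φ F + pb ψ F = 0 := by
      funext y
      have : (fun i => φ (y i)) = (fun i : Fin 0 => ψ (y i)) := by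
        funext i; exact i.elim0
      simp only [pb, Pi.add_apply, this, z2, Pi.zero_apply]
    rw [this]; exact Cob.zero _ _
  | succ n =>
    refine ⟨prism φ ψ n F, ⟨δ, hδ, fun y hy => ?_⟩, ⟨δ, hδ, fun y hy => ?_⟩⟩
    · apply prism_eq_zero φ ψ (fun x => ∃ j, x = φ (y j) ∨ x = ψ (y j)) F y
      · exact fun i => ⟨⟨i, Or.inl rfl⟩, ⟨i, Or.inr rfl⟩⟩
      · intro x hx
        exact hF' x (key y (hy.mono hS le_rfl) R' (fun i => h' _ (hy.1 i)) x hx)
    · have h1 := prism_identity φ ψ F y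
      have h2 : prism φ ψ (n + 1) (dl F) y = 0 := by
        apply prism_eq_zero φ ψ (fun x => ∃ j, x = φ (y j) ∨ x = ψ (y j)) (dl F) y
        · exact fun i => ⟨⟨i, Or.inl rfl⟩, ⟨i, Or.inr rfl⟩⟩
        · intro x hx
          exact hF x (key y hy R (fun i => h _ (hy.1 i)) x hx)
      rw [h2, add_zero] at h1
      simp only [Pi.add_apply, h1]
      rw [← Pi.add_apply, ← Pi.add_apply, Pi.add_apply]
      exact z2 _

/-- pull back by a uniformly continuous function -/
lemma Van.pb {S : Set Y} {R : Set X} {φ : Y → X} {n : ℕ} {F : Coch X n}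
    (hφ : UniformContinuousOn φ S) (h : Set.MapsTo φ S R) (hF : Van R F) : Van S (pb φ F) := by
  obtain ⟨ε, hε, hF⟩ := hF
  obtain ⟨δ, hδ, hc⟩ := Metric.uniformContinuousOn_iff.1 hφ ε hε
  exact ⟨δ, hδ, fun y hy => hF _ ⟨fun i => h (hy.1 i),
    fun i j => hc _ (hy.1 i) _ (hy.1 j) (hy.2 i j)⟩⟩

lemma Coc.pb {S S' : Set Y} {R R' : Set X} (hS : S' ⊆ S) {φ : Y → X} {n : ℕ} {F : Coch X n}
    (hφ : UniformContinuousOn φ S) (h : Set.MapsTo φ S R) (h' : Set.MapsTo φ S' R')
    (hF : Coc R R' F) : Coc S S' (pb φ F) :=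
  ⟨hF.van.pb (hφ.mono hS) h', hF.cl.pb hφ h⟩

lemma Cob.pb {S S' : Set Y} {R R' : Set X} (hS : S' ⊆ S) {φ : Y → X} {n : ℕ} {F : Coch X n}
    (hφ : UniformContinuousOn φ S) (h : Set.MapsTo φ S R) (h' : Set.MapsTo φ S' R')
    (hF : Cob R R' F) : Cob S S' (pb φ F) := by
  cases n with
  | zero => exact Van.pb hφ h hF
  | succ n =>
    obtain ⟨g, hg, hF⟩ := hF
    exact ⟨ASC.pb φ g, hg.pb (hφ.mono hS) h', by
      have : ASC.pb φ F + ASC.dl (ASC.pb φ g) = ASC.pb φ (F + ASC.dl g) := rfl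
      rw [this]; exact hF.pb hφ h⟩


/-! ### Near-retractions (not continuous) -/

/-- a near-retraction to `C` which respects `S` and `S'` -/
lemma exists_retr {S S' C : Set X} (hS : IsCompact S) (hS' : IsCompact S') (hC : IsClosed C)
    (hSS : S' ⊆ S) {η' : ℝ} (hη' : 0 < η') :
    ∃ η > 0, ∃ r : X → X, (∀ x ∈ C, r x = x) ∧
      (∀ x ∈ S ∩ Metric.thickening η C, r x ∈ S ∩ C ∧ dist (r x) x < η') ∧
      (∀ x ∈ S' ∩ Metric.thickening η C, r x ∈ S' ∩ C) := by
  classical
  have aux : ∀ T : Set X, IsCompact T → ∃ η > 0, ∀ x ∈ T ∩ Metric.thickening η C,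
      ∃ c ∈ T ∩ C, dist x c < η' := by
    intro T hT
    have hK : IsCompact (T \ Metric.thickening η' (T ∩ C)) := hT.diff Metric.isOpen_thickening
    have hd : Disjoint (T \ Metric.thickening η' (T ∩ C)) C := by
      rw [Set.disjoint_left]
      rintro x ⟨hxT, hx⟩ hxC
      exact hx (Metric.self_subset_thickening hη' _ ⟨hxT, hxC⟩)
    obtain ⟨η, hη, h⟩ := hd.exists_thickenings hK hC
    refine ⟨η, hη, fun x hx => ?_⟩
    by_contra hcon
    have hx1 : x ∈ T \ Metric.thickening η' (T ∩ C) := by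
      refine ⟨hx.1, fun hx2 => hcon ?_⟩
      exact Metric.mem_thickening_iff.1 hx2
    exact Set.disjoint_left.1 h (Metric.self_subset_thickening hη _ hx1) hx.2
  obtain ⟨η1, hη1, h1⟩ := aux S hS
  obtain ⟨η2, hη2, h2⟩ := aux S' hS'
  let r : X → X := fun x => if x ∈ C then x else
    if h : x ∈ S' ∧ ∃ c ∈ S' ∩ C, dist x c < η' then h.2.choose else
    if h : ∃ c ∈ S ∩ C, dist x c < η' then h.choose else x
  refine ⟨min η1 η2, lt_min hη1 hη2, r, ?_, ?_, ?_⟩
  · intro x hx
    simp only [r, if_pos hx]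
  · rintro x ⟨hxS, hx⟩
    by_cases hxC : x ∈ C
    · simp only [r, if_pos hxC, dist_self]
      exact ⟨⟨hxS, hxC⟩, hη'⟩
    by_cases hx' : x ∈ S' ∧ ∃ c ∈ S' ∩ C, dist x c < η'
    · simp only [r, if_neg hxC, dif_pos hx']
      have := hx'.2.choose_spec
      exact ⟨⟨hSS this.1.1, this.1.2⟩, by rw [dist_comm]; exact this.2⟩
    · have hx3 := h1 x ⟨hxS, Metric.thickening_mono (min_le_left _ _) _ hx⟩
      simp only [r, if_neg hxC, dif_neg hx', dif_pos hx3]
      have := hx3.choose_spec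
      exact ⟨this.1, by rw [dist_comm]; exact this.2⟩
  · rintro x ⟨hxS, hx⟩
    by_cases hxC : x ∈ C
    · simp only [r, if_pos hxC]
      exact ⟨hxS, hxC⟩
    have hx' : x ∈ S' ∧ ∃ c ∈ S' ∩ C, dist x c < η' :=
      ⟨hxS, h2 x ⟨hxS, Metric.thickening_mono (min_le_right _ _) _ hx⟩⟩
    simp only [r, if_neg hxC, dif_pos hx']
    exact hx'.2.choose_spec.1

/-- **Continuity**: a class that vanishes on `C` vanishes near `C`. -/
theorem cob_thickening {S S' C : Set X} (hS : IsCompact S) (hS' : IsCompact S') (hC : IsClosed C)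
    (hSS : S' ⊆ S) {n : ℕ} {F : Coch X n} (hF : Coc S S' F) (h : Cob (S ∩ C) (S' ∩ C) F) :
    ∃ η > 0, Cob (S ∩ Metric.thickening η C) (S' ∩ Metric.thickening η C) F := by
  cases n with
  | zero =>
    rw [hF.eq_zero]
    exact ⟨1, one_pos, Cob.zero _ _⟩
  | succ n =>
    obtain ⟨g, ⟨ε1, hε1, hg⟩, ⟨ε2, hε2, hFg⟩⟩ := h
    obtain ⟨ε3, hε3, hF'⟩ := hF.van
    obtain ⟨ε4, hε4, hdF⟩ := hF.cl
    set ε := min (min ε1 ε2) (min ε3 ε4) with hεdef
    have hε : 0 < ε := lt_min (lt_min hε1 hε2) (lt_min hε3 hε4)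
    obtain ⟨η, hη, r, hrC, hrS, hrS'⟩ := exists_retr hS hS' hC hSS (η' := ε / 4) (by positivity)
    refine ⟨η, hη, ?_⟩
    have hε1' : ε ≤ ε1 := (min_le_left _ _).trans (min_le_left _ _)
    have hε2' : ε ≤ ε2 := (min_le_left _ _).trans (min_le_right _ _)
    have hε3' : ε ≤ ε3 := (min_le_right _ _).trans (min_le_left _ _)
    have hε4' : ε ≤ ε4 := (min_le_right _ _).trans (min_le_right _ _)
    have h1 : Cob (S ∩ Metric.thickening η C) (S' ∩ Metric.thickening η C)
        (pb id F + pb r F) := by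
      refine contig (R := S) (R' := S') (ε := ε) (δ := ε / 4) (Set.inter_subset_inter_left _ hSS)
        (by positivity) (fun x hx => hdF x (hx.mono subset_rfl hε4'))
        (fun x hx => hF' x (hx.mono subset_rfl hε3'))
        (fun y hy => ⟨hy.1, (hrS y hy).1.1⟩) (fun y hy => ⟨hy.1, (hrS' y hy).1⟩) ?_
      intro y hy y' hy' hyy
      have a := (hrS y hy).2
      have a' := (hrS y' hy').2
      refine ⟨by simpa using hyy.trans (by linarith), ?_, ?_⟩
      · have := dist_triangle y y' (r y')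
        rw [dist_comm y' (r y')] at this
        simp only [id]; linarith
      · have := dist_triangle4 (r y) y y' (r y')
        rw [dist_comm y' (r y')] at this
        linarith
    have h2 : Cob (S ∩ Metric.thickening η C) (S' ∩ Metric.thickening η C) (pb r F) := by
      have hsm : ∀ {m : ℕ} (T : Set X), (∀ x ∈ T ∩ Metric.thickening η C,
          r x ∈ T ∩ C ∧ dist (r x) x < ε / 4) → ∀ y : Fin m → X,
          Sm (T ∩ Metric.thickening η C) (ε / 4) y → Sm (T ∩ C) ε (fun i => r (y i)) := by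
        intro m T hT y hy
        refine ⟨fun i => (hT _ (hy.1 i)).1, fun i j => ?_⟩
        have a := (hT _ (hy.1 i)).2
        have a' := (hT _ (hy.1 j)).2
        have b := hy.2 i j
        have := dist_triangle4 (r (y i)) (y i) (y j) (r (y j))
        rw [dist_comm (y j) (r (y j))] at this
        linarith
      refine ⟨pb r g, ⟨ε / 4, by positivity, fun y hy => ?_⟩, ⟨ε / 4, by positivity,
        fun y hy => ?_⟩⟩
      · refine hg _ ((hsm S' (fun x hx => ⟨hrS' x hx, (hrS x ⟨hSS hx.1, hx.2⟩).2⟩) y hy).mono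
          subset_rfl hε1')
      · exact hFg _ ((hsm S hrS y hy).mono subset_rfl hε2')
    exact h1.congr' h2

/-- a near-retraction to `A ∩ B` which respects `A` and `B`, for excision -/
lemma exists_retr2 {A B : Set X} (hA : IsCompact A) (hB : IsCompact B) (hA' : IsClosed A)
    (hB' : IsClosed B) {η' : ℝ} (hη' : 0 < η') :
    ∃ δ > 0, ∃ r : X → X, (∀ x ∈ A ∩ B, r x = x) ∧ (∀ x, dist (r x) x < η') ∧
      (∀ x ∈ A, r x ∈ A) ∧ (∀ x ∈ B, r x ∈ B) ∧
      (∀ {n : ℕ} (x : Fin n → X), Sm (A ∪ B) δ x → (∀ i, r (x i) ∈ A) ∨ (∀ i, r (x i) ∈ B)) := by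
  classical
  set C := A ∩ B with hC
  have aux : ∀ T U : Set X, IsCompact T → IsClosed U → T ∩ U ⊆ C → ∃ η > 0, ∀ x ∈ T,
      ∀ y ∈ U, dist x y < η → ∃ c ∈ C, dist x c < η' := by
    intro T U hT hU hTU
    have hK : IsCompact (T \ Metric.thickening η' C) := hT.diff Metric.isOpen_thickening
    have hd : Disjoint (T \ Metric.thickening η' C) U := by
      rw [Set.disjoint_left]
      rintro x ⟨hxT, hx⟩ hxU
      exact hx (Metric.self_subset_thickening hη' _ (hTU ⟨hxT, hxU⟩))
    obtain ⟨η, hη, h⟩ := hd.exists_thickenings hK hU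
    refine ⟨η, hη, fun x hx y hy hxy => ?_⟩
    by_contra hcon
    have hx1 : x ∈ T \ Metric.thickening η' C := by
      refine ⟨hx, fun hx2 => hcon ?_⟩
      exact Metric.mem_thickening_iff.1 hx2
    refine Set.disjoint_left.1 h (Metric.self_subset_thickening hη _ hx1) ?_
    exact Metric.mem_thickening_iff.2 ⟨y, hy, hxy⟩
  obtain ⟨η1, hη1, h1⟩ := aux A B hA hB' subset_rfl
  obtain ⟨η2, hη2, h2⟩ := aux B A hB hA' (by rw [hC, Set.inter_comm])
  let r : X → X := fun x => if x ∈ C then x else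
    if h : ∃ c ∈ C, dist x c < η' then h.choose else x
  have hr1 : ∀ x, (∃ c ∈ C, dist x c < η') → r x ∈ C := by
    intro x hx
    by_cases hxC : x ∈ C
    · simp only [r, if_pos hxC]; exact hxC
    · simp only [r, if_neg hxC, dif_pos hx]
      exact hx.choose_spec.1
  have hr2 : ∀ x, ¬ (∃ c ∈ C, dist x c < η') → r x = x := by
    intro x hx
    by_cases hxC : x ∈ C
    · simp only [r, if_pos hxC]
    · simp only [r, if_neg hxC, dif_neg hx]
  have hrA : ∀ x ∈ A, r x ∈ A := by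
    intro x hx
    by_cases h : ∃ c ∈ C, dist x c < η'
    · exact (hr1 x h).1
    · rw [hr2 x h]; exact hx
  have hrB : ∀ x ∈ B, r x ∈ B := by
    intro x hx
    by_cases h : ∃ c ∈ C, dist x c < η'
    · exact (hr1 x h).2
    · rw [hr2 x h]; exact hx
  refine ⟨min η1 η2, lt_min hη1 hη2, r, ?_, ?_, hrA, hrB, ?_⟩
  · intro x hx; simp only [r, if_pos hx]
  · intro x
    by_cases hxC : x ∈ C
    · simp only [r, if_pos hxC, dist_self]; exact hη'
    · by_cases h : ∃ c ∈ C, dist x c < η'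
      · simp only [r, if_neg hxC, dif_pos h]
        rw [dist_comm]; exact h.choose_spec.2
      · rw [hr2 x h, dist_self]; exact hη'
  · intro n x hx
    by_cases hA1 : ∀ i, x i ∈ A
    · exact Or.inl (fun i => hrA _ (hA1 i))
    by_cases hB1 : ∀ i, x i ∈ B
    · exact Or.inr (fun i => hrB _ (hB1 i))
    push Not at hA1 hB1
    obtain ⟨i, hi⟩ := hA1
    obtain ⟨j, hj⟩ := hB1
    have hiB : x i ∈ B := (hx.1 i).resolve_left hi
    have hjA : x j ∈ A := (hx.1 j).resolve_right hj
    left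
    intro k
    have : r (x k) ∈ C := by
      apply hr1
      rcases hx.1 k with hk | hk
      · exact h1 _ hk _ hiB (lt_of_lt_of_le (hx.2 k i) (min_le_left _ _))
      · exact h2 _ hk _ hjA (lt_of_lt_of_le (hx.2 k j) (min_le_right _ _))
    exact this.1

/-- **Excision**, injectivity. -/
theorem excision_inj {A B : Set X} (hA : IsCompact A) (hB : IsCompact B) (hA' : IsClosed A)
    (hB' : IsClosed B) {n : ℕ} {F : Coch X n} (hF : Coc (A ∪ B) B F) (h : Cob A (A ∩ B) F) :
    Cob (A ∪ B) B F := by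
  classical
  cases n with
  | zero => rw [hF.eq_zero]; exact Cob.zero _ _
  | succ n =>
    obtain ⟨g, ⟨ε1, hε1, hg⟩, ⟨ε2, hε2, hFg⟩⟩ := h
    obtain ⟨ε3, hε3, hF'⟩ := hF.van
    obtain ⟨ε4, hε4, hdF⟩ := hF.cl
    set ε := min (min ε1 ε2) (min ε3 ε4) with hεdef
    have hε : 0 < ε := lt_min (lt_min hε1 hε2) (lt_min hε3 hε4)
    have hε1' : ε ≤ ε1 := (min_le_left _ _).trans (min_le_left _ _)
    have hε2' : ε ≤ ε2 := (min_le_left _ _).trans (min_le_right _ _)
    have hε3' : ε ≤ ε3 := (min_le_right _ _).trans (min_le_left _ _)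
    have hε4' : ε ≤ ε4 := (min_le_right _ _).trans (min_le_right _ _)
    obtain ⟨δ, hδ, r, hrC, hrd, hrA, hrB, hr⟩ :=
      exists_retr2 hA hB hA' hB' (η' := ε / 4) (by positivity)
    have h1 : Cob (A ∪ B) B (pb id F + pb r F) := by
      refine contig (R := A ∪ B) (R' := B) (ε := ε) (δ := ε / 4) Set.subset_union_right
        (by positivity) (fun x hx => hdF x (hx.mono subset_rfl hε4'))
        (fun x hx => hF' x (hx.mono subset_rfl hε3'))
        (fun y hy => ⟨hy, hy.imp (hrA y) (hrB y)⟩) (fun y hy => ⟨hy, hrB y hy⟩) ?_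
      intro y hy y' hy' hyy
      have a := hrd y
      have a' := hrd y'
      refine ⟨by simpa using hyy.trans (by linarith), ?_, ?_⟩
      · have := dist_triangle y y' (r y')
        rw [dist_comm y' (r y')] at this
        simp only [id]; linarith
      · have := dist_triangle4 (r y) y y' (r y')
        rw [dist_comm y' (r y')] at this
        linarith
    have hsm : ∀ {m : ℕ} (T : Set X) (y : Fin m → X), (∀ i, r (y i) ∈ T) →
        Sm (A ∪ B) (min δ (ε / 4)) y → Sm T ε (fun i => r (y i)) := by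
      intro m T y hT hy
      refine ⟨hT, fun i j => ?_⟩
      have a := hrd (y i)
      have a' := hrd (y j)
      have b := lt_of_lt_of_le (hy.2 i j) (min_le_right _ _)
      have := dist_triangle4 (r (y i)) (y i) (y j) (r (y j))
      rw [dist_comm (y j) (r (y j))] at this
      linarith
    -- the cochain `g ∘ r` on tuples mapped to `A`
    set G : Coch X n := fun y => if ∀ i, r (y i) ∈ A then g (fun i => r (y i)) else 0 with hG
    have hGB : ∀ y : Fin n → X, Sm (A ∪ B) (min δ (ε / 4)) y → (∀ i, r (y i) ∈ B) → G y = 0 := by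
      intro y hy hyB
      by_cases hyA : ∀ i, r (y i) ∈ A
      · simp only [hG, if_pos hyA]
        exact hg _ ((hsm (A ∩ B) y (fun i => ⟨hyA i, hyB i⟩) hy).mono subset_rfl hε1')
      · simp only [hG, if_neg hyA]
    have hδ' : 0 < min δ (ε / 4) := lt_min hδ (by positivity)
    have h2 : Cob (A ∪ B) B (pb r F) := by
      refine ⟨G, ⟨min δ (ε / 4), hδ', fun y hy => ?_⟩, ⟨min δ (ε / 4), hδ', fun y hy => ?_⟩⟩
      · exact hGB y (hy.mono Set.subset_union_right le_rfl) (fun i => hrB _ (hy.1 i))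
      · rcases hr y (hy.mono subset_rfl (min_le_left _ _)) with hyA | hyB
        · have e : dl G y = dl (pb r g) y := by
            apply dl_congr
            intro z hz
            have : ∀ i, r (z i) ∈ A := fun i => by
              obtain ⟨j, hj⟩ := hz i; rw [hj]; exact hyA j
            simp only [hG, if_pos this, pb]
          rw [Pi.add_apply, e, dl_pb]
          exact hFg _ ((hsm A y hyA hy).mono subset_rfl hε2')
        · have e : dl G y = 0 := by
            apply dl_eq_zero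
            intro z hz
            exact hGB z (hy.sub hz) (fun i => by obtain ⟨j, hj⟩ := hz i; rw [hj]; exact hyB j)
          rw [Pi.add_apply, e, add_zero]
          exact hF' _ ((hsm B y hyB hy).mono subset_rfl hε3')
    exact h1.congr' h2

/-- **Excision**, surjectivity. -/
theorem excision_surj {A B : Set X} (hA : IsCompact A) (hB : IsCompact B) (hA' : IsClosed A)
    (hB' : IsClosed B) {n : ℕ} {f : Coch X n} (hf : Coc A (A ∩ B) f) :
    ∃ F, Coc (A ∪ B) B F ∧ Cob A (A ∩ B) (F + f) := by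
  classical
  obtain ⟨ε3, hε3, hF'⟩ := hf.van
  obtain ⟨ε4, hε4, hdF⟩ := hf.cl
  set ε := min ε3 ε4 with hεdef
  have hε : 0 < ε := lt_min hε3 hε4
  have hε3' : ε ≤ ε3 := min_le_left _ _
  have hε4' : ε ≤ ε4 := min_le_right _ _
  obtain ⟨δ, hδ, r, hrC, hrd, hrA, hrB, hr⟩ :=
    exists_retr2 hA hB hA' hB' (η' := ε / 4) (by positivity)
  have hsm : ∀ {m : ℕ} (T : Set X) (y : Fin m → X), (∀ i, r (y i) ∈ T) →
      Sm (A ∪ B) (min δ (ε / 4)) y → Sm T ε (fun i => r (y i)) := by
    intro m T y hT hy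
    refine ⟨hT, fun i j => ?_⟩
    have a := hrd (y i)
    have a' := hrd (y j)
    have b := lt_of_lt_of_le (hy.2 i j) (min_le_right _ _)
    have := dist_triangle4 (r (y i)) (y i) (y j) (r (y j))
    rw [dist_comm (y j) (r (y j))] at this
    linarith
  have hδ' : 0 < min δ (ε / 4) := lt_min hδ (by positivity)
  set G : Coch X n := fun y => if ∀ i, r (y i) ∈ A then f (fun i => r (y i)) else 0 with hG
  have hGB : ∀ y : Fin n → X, Sm (A ∪ B) (min δ (ε / 4)) y → (∀ i, r (y i) ∈ B) → G y = 0 := by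
    intro y hy hyB
    by_cases hyA : ∀ i, r (y i) ∈ A
    · simp only [hG, if_pos hyA]
      exact hF' _ ((hsm (A ∩ B) y (fun i => ⟨hyA i, hyB i⟩) hy).mono subset_rfl hε3')
    · simp only [hG, if_neg hyA]
  refine ⟨G, ⟨⟨min δ (ε / 4), hδ', fun y hy => ?_⟩, ⟨min δ (ε / 4), hδ', fun y hy => ?_⟩⟩, ?_⟩
  · exact hGB y (hy.mono Set.subset_union_right le_rfl) (fun i => hrB _ (hy.1 i))
  · rcases hr y (hy.mono subset_rfl (min_le_left _ _)) with hyA | hyB
    · have e : dl G y = dl (pb r f) y := by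
        apply dl_congr
        intro z hz
        have : ∀ i, r (z i) ∈ A := fun i => by
          obtain ⟨j, hj⟩ := hz i; rw [hj]; exact hyA j
        simp only [hG, if_pos this, pb]
      rw [e, dl_pb]
      exact hdF _ ((hsm A y hyA hy).mono subset_rfl hε4')
    · apply dl_eq_zero
      intro z hz
      exact hGB z (hy.sub hz) (fun i => by obtain ⟨j, hj⟩ := hz i; rw [hj]; exact hyB j)
  · have h1 : Cob A (A ∩ B) (pb id f + pb r f) := by
      refine contig (R := A) (R' := A ∩ B) (ε := ε) (δ := ε / 4) Set.inter_subset_left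
        (by positivity) (fun x hx => hdF x (hx.mono subset_rfl hε4'))
        (fun x hx => hF' x (hx.mono subset_rfl hε3'))
        (fun y hy => ⟨hy, hrA y hy⟩) (fun y hy => ⟨hy, hrA y hy.1, hrB y hy.2⟩) ?_
      intro y hy y' hy' hyy
      have a := hrd y
      have a' := hrd y'
      refine ⟨by simpa using hyy.trans (by linarith), ?_, ?_⟩
      · have := dist_triangle y y' (r y')
        rw [dist_comm y' (r y')] at this
        simp only [id]; linarith
      · have := dist_triangle4 (r y) y y' (r y')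
        rw [dist_comm y' (r y')] at this
        linarith
    have h2 : Van A (G + pb r f) := by
      refine ⟨1, one_pos, fun y hy => ?_⟩
      have : ∀ i, r (y i) ∈ A := fun i => hrA _ (hy.1 i)
      simp only [Pi.add_apply, hG, if_pos this, pb, z2]
    have h3 : Cob A (A ∩ B) (pb r f + f) := by
      rw [add_comm]; exact h1
    exact (Cob.of_van h2).trans h3


/-! ### Homotopy invariance -/

theorem homotopy {S S' : Set Y} {R R' : Set X} (hS : S' ⊆ S) (hSc : IsCompact S)
    (Φ : ℝ × Y → X) (hΦ : ContinuousOn Φ (Set.Icc (0 : ℝ) 1 ×ˢ S))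
    (hR : ∀ t ∈ Set.Icc (0 : ℝ) 1, ∀ y ∈ S, Φ (t, y) ∈ R)
    (hR' : ∀ t ∈ Set.Icc (0 : ℝ) 1, ∀ y ∈ S', Φ (t, y) ∈ R') {n : ℕ} {F : Coch X n}
    (hF : Coc R R' F) :
    Cob S S' (pb (fun y => Φ (0, y)) F + pb (fun y => Φ (1, y)) F) := by
  obtain ⟨ε3, hε3, hF'⟩ := hF.van
  obtain ⟨ε4, hε4, hdF⟩ := hF.cl
  set ε := min ε3 ε4 with hεdef
  have hε : 0 < ε := lt_min hε3 hε4
  have huc : UniformContinuousOn Φ (Set.Icc (0 : ℝ) 1 ×ˢ S) :=
    (isCompact_Icc.prod hSc).uniformContinuousOn_of_continuous hΦ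
  obtain ⟨δ, hδ, hc⟩ := Metric.uniformContinuousOn_iff.1 huc ε hε
  obtain ⟨N, hN⟩ := exists_nat_one_div_lt hδ
  have hN0 : (0 : ℝ) < N + 1 := by positivity
  have hmem : ∀ k : ℕ, k ≤ N + 1 → (k : ℝ) / (N + 1) ∈ Set.Icc (0 : ℝ) 1 := by
    intro k hk
    refine ⟨by positivity, ?_⟩
    rw [div_le_one hN0]; exact_mod_cast hk
  have step : ∀ k : ℕ, k ≤ N + 1 →
      Cob S S' (pb (fun y => Φ (0, y)) F + pb (fun y => Φ ((k : ℝ) / (N + 1), y)) F) := by
    intro k
    induction k with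
    | zero =>
      intro _
      simp only [Nat.cast_zero, zero_div]
      rw [add_self_coch]; exact Cob.zero _ _
    | succ k ih =>
      intro hk
      have h1 := ih (by omega)
      refine h1.trans ?_
      refine contig (R := R) (R' := R') (ε := ε) (δ := δ) hS hδ
        (fun x hx => hdF x (hx.mono subset_rfl (min_le_right _ _)))
        (fun x hx => hF' x (hx.mono subset_rfl (min_le_left _ _)))
        (fun y hy => ⟨hR _ (hmem k (by omega)) y hy, hR _ (hmem (k + 1) hk) y hy⟩)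
        (fun y hy => ⟨hR' _ (hmem k (by omega)) y hy, hR' _ (hmem (k + 1) hk) y hy⟩) ?_
      intro y hy y' hy' hyy
      have hd : dist ((k : ℝ) / (N + 1)) (((k + 1 : ℕ) : ℝ) / (N + 1)) < δ := by
        have e : ((k : ℝ) / (N + 1)) - (((k + 1 : ℕ) : ℝ) / (N + 1)) = -(1 / (N + 1)) := by
          push_cast; field_simp; ring
        rw [Real.dist_eq, e, abs_neg, abs_of_pos (by positivity)]
        exact hN
      refine ⟨?_, ?_, ?_⟩
      · apply hc _ ⟨hmem k (by omega), hy⟩ _ ⟨hmem k (by omega), hy'⟩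
        rw [Prod.dist_eq, dist_self]; exact max_lt hδ hyy
      · apply hc _ ⟨hmem k (by omega), hy⟩ _ ⟨hmem (k + 1) hk, hy'⟩
        rw [Prod.dist_eq]; exact max_lt hd hyy
      · apply hc _ ⟨hmem (k + 1) hk, hy⟩ _ ⟨hmem (k + 1) hk, hy'⟩
        rw [Prod.dist_eq, dist_self]; exact max_lt hδ hyy
  have := step (N + 1) le_rfl
  have e : (((N + 1 : ℕ) : ℝ) / (N + 1)) = 1 := by
    push_cast; exact div_self hN0.ne'
  rwa [e] at this

/-! ### The operators `chi` and `lam` -/

omit [PseudoMetricSpace X] in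
lemma dl_smul {n : ℕ} (c : ZMod 2) (f : Coch X n) : dl (fun x => c * f x) = fun x => c * dl f x := by
  funext x
  simp [dl, Finset.mul_sum]

omit [PseudoMetricSpace X] in
lemma dl_chi (f : X → ℝ) {n : ℕ} (U : Coch X (n + 1)) :
    dl (chi f U) = lam f U + chi f (dl U) := by
  funext x
  obtain ⟨a, y, rfl⟩ : ∃ a y, x = (Fin.cons a y : Fin (n + 2) → X) :=
    ⟨x 0, Fin.tail x, (Fin.cons_self_tail x).symm⟩
  rw [dl_cons]
  have h1 : (fun w => chi f U (Fin.cons a w : Fin (n + 1) → X)) =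
      fun w => ind (0 ≤ f a) * U (Fin.cons a w) := by
    funext w
    simp [chi]
  rw [h1, dl_smul]
  have h2 : (Fin.cons a y : Fin (n + 2) → X) 1 = y 0 := by
    have : (1 : Fin (n + 2)) = Fin.succ 0 := rfl
    rw [this, Fin.cons_succ]
  simp only [Pi.add_apply, chi, lam, Fin.cons_zero, Fin.tail_cons, h2, dl_cons]
  have key : ∀ p q u v : ZMod 2, p * u + q * v = (q + p) * u + q * (u + v) := by decide
  exact key _ _ _ _

omit [PseudoMetricSpace X] in
lemma chi_zero (f : X → ℝ) {n : ℕ} : chi f (0 : Coch X (n + 1)) = 0 := by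
  funext x; simp [chi]

omit [PseudoMetricSpace X] in
lemma lam_zero (f : X → ℝ) {n : ℕ} : lam f (0 : Coch X (n + 1)) = 0 := by
  funext x; simp [lam]

omit [PseudoMetricSpace X] in
lemma lam_add (f : X → ℝ) {n : ℕ} (U V : Coch X (n + 1)) :
    lam f (U + V) = lam f U + lam f V := by
  funext x; simp [lam, mul_add]

omit [PseudoMetricSpace X] in
lemma dl_lam (f : X → ℝ) {n : ℕ} (U : Coch X (n + 1)) : dl (lam f U) = lam f (dl U) := by
  have h1 := congrArg dl (dl_chi f U)
  rw [dl_dl, dl_add, dl_chi, dl_dl, chi_zero, add_zero] at h1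
  have h2 := congrArg (fun t => t + lam f (dl U)) h1
  simp only [add_assoc, add_self_coch, add_zero, zero_add] at h2
  exact h2.symm

omit [PseudoMetricSpace X] [PseudoMetricSpace Y] in
lemma lam_pb (f : X → ℝ) (φ : Y → X) {n : ℕ} (U : Coch X (n + 1)) :
    pb φ (lam f U) = lam (f ∘ φ) (pb φ U) := rfl

lemma Van.lam {S : Set X} {n : ℕ} {U : Coch X (n + 1)} (f : X → ℝ) (h : Van S U) :
    Van S (lam f U) := by
  obtain ⟨ε, hε, h⟩ := h
  refine ⟨ε, hε, fun x hx => ?_⟩
  rw [ASC.lam, h (Fin.tail x) (hx.sub (fun i => ⟨i.succ, rfl⟩)), mul_zero]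

lemma Van.chi {S : Set X} {n : ℕ} {U : Coch X (n + 1)} (f : X → ℝ) (h : Van S U) :
    Van S (chi f U) := by
  obtain ⟨ε, hε, h⟩ := h
  exact ⟨ε, hε, fun x hx => by rw [ASC.chi, h x hx, mul_zero]⟩

/-- the local class of a map to `ℝ^m`: pull back of the generator of `H^m(ℝ^m, ℝ^m - 0)` -/
noncomputable def GG : ∀ (m : ℕ), (X → Fin m → ℝ) → Coch X (m + 1)
  | 0, _ => fun _ => 1
  | m + 1, F => lam (fun y => F y 0) (GG m (fun y => Fin.tail (F y)))

omit [PseudoMetricSpace X] in
lemma dl_GG : ∀ {m : ℕ} (F : X → Fin m → ℝ), dl (GG m F) = 0 := by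
  intro m
  induction m with
  | zero =>
    intro F
    funext x
    simp only [dl, GG, Finset.sum_const, Finset.card_univ, Fintype.card_fin, Pi.zero_apply]
    rfl
  | succ m ih =>
    intro F
    rw [GG, dl_lam, ih, lam_zero]

omit [PseudoMetricSpace X] [PseudoMetricSpace Y] in
lemma pb_GG (φ : Y → X) : ∀ {m : ℕ} (F : X → Fin m → ℝ), pb φ (GG m F) = GG m (F ∘ φ) := by
  intro m
  induction m with
  | zero => intro F; rfl
  | succ m ih =>
    intro F
    rw [GG, lam_pb, ih]; rfl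

omit [PseudoMetricSpace X] in
lemma GG_eq_zero : ∀ {m : ℕ} (F : X → Fin m → ℝ) (x : Fin (m + 1) → X) (j : Fin m),
    (∀ i i', 0 ≤ F (x i) j → 0 ≤ F (x i') j) → GG m F x = 0 := by
  intro m
  induction m with
  | zero => intro F x j; exact j.elim0
  | succ m ih =>
    intro F x j hj
    rw [GG, lam]
    refine Fin.cases (fun hj => ?_) (fun j hj => ?_) j hj
    · have : (0 ≤ F (x 0) 0) = (0 ≤ F (x 1) 0) := propext ⟨hj 0 1, hj 1 0⟩
      simp only [this, z2, zero_mul]
    · rw [ih (fun y => Fin.tail (F y)) (Fin.tail x) j, mul_zero]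
      intro i i' h
      exact hj i.succ i'.succ h

lemma GG_van {S : Set X} {m : ℕ} {F : X → Fin m → ℝ} (hF : UniformContinuousOn F S) {c : ℝ}
    (hc : 0 < c) (h : ∀ x ∈ S, ∃ j, c ≤ |F x j|) : Van S (GG m F) := by
  obtain ⟨δ, hδ, hd⟩ := Metric.uniformContinuousOn_iff.1 hF c hc
  refine ⟨δ, hδ, fun x hx => ?_⟩
  obtain ⟨j, hj⟩ := h _ (hx.1 0)
  have hclose : ∀ i, |F (x i) j - F (x 0) j| < c := by
    intro i
    have := hd _ (hx.1 i) _ (hx.1 0) (hx.2 i 0)
    rw [← Real.dist_eq]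
    exact (dist_le_pi_dist (F (x i)) (F (x 0)) j).trans_lt this
  apply GG_eq_zero F x j
  have key : ∀ i, (0 ≤ F (x i) j ↔ 0 ≤ F (x 0) j) := by
    intro i
    have h1 := abs_lt.1 (hclose i)
    rcases le_abs.1 hj with h2 | h2
    · constructor <;> intro <;> linarith
    · constructor <;> intro <;> linarith
  intro i i' h
  exact (key i').2 ((key i).1 h)

/-- for `F` without zeros on the compact set `S'` -/
lemma GG_van' {S : Set X} (hS : IsCompact S) {m : ℕ} {F : X → Fin m → ℝ}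
    (hF : ContinuousOn F S) (h : ∀ x ∈ S, F x ≠ 0) : Van S (GG m F) := by
  rcases S.eq_empty_or_nonempty with rfl | hne
  · exact Van.empty _
  obtain ⟨x0, hx0, hmin⟩ := hS.exists_isMinOn hne hF.norm
  have hpos : 0 < ‖F x0‖ := norm_pos_iff.2 (h x0 hx0)
  refine GG_van (hS.uniformContinuousOn_of_continuous hF) (half_pos hpos) (fun x hx => ?_)
  by_contra hcon
  push Not at hcon
  have h1 : ‖F x‖ ≤ ‖F x0‖ / 2 := by
    rw [pi_norm_le_iff_of_nonneg (by positivity)]
    intro j; exact (hcon j).le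
  have h2 : ‖F x0‖ ≤ ‖F x‖ := hmin hx
  linarith

lemma GG_coc {S S' : Set X} (hS' : IsCompact S') {m : ℕ} {F : X → Fin m → ℝ}
    (hF : ContinuousOn F S') (h : ∀ x ∈ S', F x ≠ 0) : Coc S S' (GG m F) :=
  ⟨GG_van' hS' hF h, by rw [dl_GG]; exact Van.zero _⟩

/-- the class of `GG F` depends only on the homotopy class of `F` -/
theorem GG_homotopy {S S' : Set Y} (hS : S' ⊆ S) (hSc : IsCompact S) (hSc' : IsCompact S') {m : ℕ}
    (F : ℝ × Y → Fin m → ℝ) (hF : ContinuousOn F (Set.Icc (0 : ℝ) 1 ×ˢ S))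
    (h : ∀ t ∈ Set.Icc (0 : ℝ) 1, ∀ y ∈ S', F (t, y) ≠ 0) :
    Cob S S' (GG m (fun y => F (0, y)) + GG m (fun y => F (1, y))) := by
  have hK : IsCompact (Set.Icc (0 : ℝ) 1 ×ˢ S') := isCompact_Icc.prod hSc'
  have hFK : ContinuousOn F (Set.Icc (0 : ℝ) 1 ×ˢ S') := hF.mono (Set.prod_mono subset_rfl hS)
  have himg : IsCompact (F '' (Set.Icc (0 : ℝ) 1 ×ˢ S')) := hK.image_of_continuousOn hFK
  have hcoc : Coc (Set.univ : Set (Fin m → ℝ)) (F '' (Set.Icc (0 : ℝ) 1 ×ˢ S')) (GG m id) := by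
    refine GG_coc himg continuousOn_id ?_
    rintro _ ⟨⟨t, y⟩, ⟨ht, hy⟩, rfl⟩
    exact h t ht y hy
  have := homotopy hS hSc F hF (R := Set.univ) (R' := F '' (Set.Icc (0 : ℝ) 1 ×ˢ S'))
    (fun t _ y _ => Set.mem_univ _) (fun t ht y hy => ⟨(t, y), ⟨ht, hy⟩, rfl⟩) hcoc
  rwa [pb_GG, pb_GG] at this

/-! ### Points and contractible sets -/

omit [PseudoMetricSpace X] in
lemma dl_const (c : ZMod 2) (n : ℕ) :
    dl (fun _ : Fin n → X => c) = fun _ => ((n : ZMod 2) + 1) * c := by
  funext x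
  simp [dl]

/-- a constant cochain of positive degree which is a cocycle is a coboundary -/
lemma cob_const {S : Set X} (hne : S.Nonempty) {n : ℕ} (c : ZMod 2)
    (h : Van S (dl (fun _ : Fin (n + 2) → X => c))) :
    Cob S ∅ (fun _ : Fin (n + 2) → X => c) := by
  obtain ⟨p, hp⟩ := hne
  rw [dl_const] at h
  have h1 : (((n + 2 : ℕ) : ZMod 2) + 1) * c = 0 := by
    obtain ⟨ε, hε, h⟩ := h
    exact h (fun _ => p) ⟨fun _ => hp, fun _ _ => by rw [dist_self]; exact hε⟩
  refine ⟨fun _ => c, Van.empty _, ?_⟩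
  rw [dl_const]
  have h2 : (fun _ : Fin (n + 2) → X => c) + (fun _ => (((n + 1 : ℕ) : ZMod 2) + 1) * c) = 0 := by
    funext x
    simp only [Pi.add_apply, Pi.zero_apply]
    have e : ((n + 2 : ℕ) : ZMod 2) = ((n + 1 : ℕ) : ZMod 2) + 1 := by push_cast; ring
    rw [← e]
    have : c + ((n + 2 : ℕ) : ZMod 2) * c = (((n + 2 : ℕ) : ZMod 2) + 1) * c := by ring
    rw [this, h1]
  rw [h2]; exact Van.zero _

/-- a set that contracts to one of its points has no cohomology in positive degree -/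
theorem HZ_contractible {S : Set X} (hSc : IsCompact S) (Φ : ℝ × X → X)
    (hΦ : ContinuousOn Φ (Set.Icc (0 : ℝ) 1 ×ˢ S)) {p : X} (hp : p ∈ S)
    (hR : ∀ t ∈ Set.Icc (0 : ℝ) 1, ∀ y ∈ S, Φ (t, y) ∈ S)
    (h0 : ∀ y ∈ S, Φ (0, y) = y) (h1 : ∀ y ∈ S, Φ (1, y) = p) (n : ℕ) : HZ (n + 2) S ∅ := by
  intro F hF
  have h := homotopy (Set.empty_subset S) hSc Φ hΦ (R := S) (R' := ∅) hR
    (fun t _ y hy => hy.elim) hF
  have e0 : Cob S ∅ (F + pb (fun y => Φ (0, y)) F) := by
    apply Cob.of_van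
    refine ⟨1, one_pos, fun x hx => ?_⟩
    have : (fun i => Φ (0, x i)) = x := by funext i; exact h0 _ (hx.1 i)
    simp only [Pi.add_apply, pb, this, z2]
  have e1 : Cob S ∅ (pb (fun y => Φ (1, y)) F + fun _ => F (fun _ => p)) := by
    apply Cob.of_van
    refine ⟨1, one_pos, fun x hx => ?_⟩
    have : (fun i => Φ (1, x i)) = fun _ => p := by funext i; exact h1 _ (hx.1 i)
    simp only [Pi.add_apply, pb, this, z2]
  have e2 : Cob S ∅ (F + fun _ => F (fun _ => p)) := (e0.trans h).trans e1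
  refine e2.congr' (cob_const ⟨p, hp⟩ _ ?_)
  have := (e2.coc (Set.empty_subset S)).cl.add hF.cl
  rw [dl_add] at this
  have e : dl F + dl (fun _ : Fin (n + 2) → X => F (fun _ => p)) + dl F =
      dl (fun _ : Fin (n + 2) → X => F (fun _ => p)) := by
    have : dl F + dl (fun _ : Fin (n + 2) → X => F (fun _ => p)) + dl F =
      (dl F + dl F) + dl (fun _ : Fin (n + 2) → X => F (fun _ => p)) := by abel
    rw [this, add_self_coch, zero_add]
  rwa [e] at this

theorem HG_contractible {S : Set X} (hSc : IsCompact S) (Φ : ℝ × X → X)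
    (hΦ : ContinuousOn Φ (Set.Icc (0 : ℝ) 1 ×ˢ S)) {p : X} (hp : p ∈ S)
    (hR : ∀ t ∈ Set.Icc (0 : ℝ) 1, ∀ y ∈ S, Φ (t, y) ∈ S)
    (h0 : ∀ y ∈ S, Φ (0, y) = y) (h1 : ∀ y ∈ S, Φ (1, y) = p) :
    HG S ∅ (fun _ : Fin 1 → X => (1 : ZMod 2)) := by
  refine ⟨⟨Van.empty _, ?_⟩, ?_, ?_⟩
  · rw [dl_const]
    have : (fun _ : Fin 2 → X => (((1 : ℕ) : ZMod 2) + 1) * 1) = 0 := by
      funext x; simp only [Nat.cast_one, mul_one, Pi.zero_apply]; rfl
    rw [this]; exact Van.zero _
  · rintro ⟨g, hg, ε, hε, h⟩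
    have hg0 : g = 0 := (van_zero_iff g).1 hg
    rw [hg0, dl_zero, add_zero] at h
    have := h (fun _ => p) ⟨fun _ => hp, fun _ _ => by rw [dist_self]; exact hε⟩
    exact one_ne_zero this
  · intro F hF
    have h := homotopy (Set.empty_subset S) hSc Φ hΦ (R := S) (R' := ∅) hR
      (fun t _ y hy => hy.elim) hF
    have e0 : Cob S ∅ (F + pb (fun y => Φ (0, y)) F) := by
      apply Cob.of_van
      refine ⟨1, one_pos, fun x hx => ?_⟩
      have : (fun i => Φ (0, x i)) = x := by funext i; exact h0 _ (hx.1 i)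
      simp only [Pi.add_apply, pb, this, z2]
    have e1 : Cob S ∅ (pb (fun y => Φ (1, y)) F + fun _ => F (fun _ => p)) := by
      apply Cob.of_van
      refine ⟨1, one_pos, fun x hx => ?_⟩
      have : (fun i => Φ (1, x i)) = fun _ => p := by funext i; exact h1 _ (hx.1 i)
      simp only [Pi.add_apply, pb, this, z2]
    have e2 : Cob S ∅ (F + fun _ => F (fun _ => p)) := (e0.trans h).trans e1
    have h01 : ∀ a : ZMod 2, a = 0 ∨ a = 1 := by decide
    rcases h01 (F (fun _ => p)) with h3 | h3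
    · left
      rw [h3] at e2
      have : (F + fun _ => (0 : ZMod 2)) = F := by funext x; simp
      rwa [this] at e2
    · right
      rwa [h3] at e2

end metric

end ASC
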