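import Pool.Agent.Lib.MP_f7aa1b_gt.ASC.Slice

/-!
# Families over a cube: dimension bound and the generator of the top class
-/

set_option autoImplicit false

namespace ASC

open Set

section

variable {X : Type*}

/-- iterated `Λ`: cup product with the local class of a map to `ℝ^m` -/
noncomputable def lamI {n : ℕ} : ∀ (m : ℕ), (X → Fin m → ℝ) → Coch X (n + 1) → Coch X (n + m + 1)
  | 0, _, U => U
  | m + 1, F, U => lam (fun y => F y 0) (lamI m (fun y => Fin.tail (F y)) U)

variable [MetricSpace X]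

lemma continuousOn_tail {S : Set X} {m : ℕ} {F : X → Fin (m + 1) → ℝ} (hF : ContinuousOn F S) :
    ContinuousOn (fun y => Fin.tail (F y)) S := by
  rw [continuousOn_pi] at hF ⊢
  exact fun i => hF i.succ

lemma lamI_van {K : Set X} (hK : IsCompact K) {n : ℕ} (U : Coch X (n + 1)) : ∀ {m : ℕ}
    {F : X → Fin m → ℝ}, ContinuousOn F K → (∀ x ∈ K, F x ≠ 0) → Van K (lamI m F U) := by
  intro m
  induction m generalizing K with
  | zero =>
    intro F _ h
    have : K = ∅ := by
      rw [eq_empty_iff_forall_notMem]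
      intro x hx
      exact h x hx (Subsingleton.elim _ _)
    rw [this]; exact Van.empty _
  | succ m ih =>
    intro F hF h
    rcases K.eq_empty_or_nonempty with rfl | hne
    · exact Van.empty _
    obtain ⟨x0, hx0, hmin⟩ := hK.exists_isMinOn hne hF.norm
    have hpos : 0 < ‖F x0‖ := norm_pos_iff.2 (h x0 hx0)
    have hF0 : ContinuousOn (fun y => F y 0) K := (continuousOn_pi.1 hF) 0
    refine lam_van_of hK hF0 (half_pos hpos) ?_
    refine ih (isCompact_inter_pre hK hF0 isClosed_Icc)
      ((continuousOn_tail hF).mono inter_subset_left) ?_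
    rintro x ⟨hx, hx1⟩ h0
    have h1 : ‖F x‖ ≤ ‖F x0‖ / 2 := by
      rw [pi_norm_le_iff_of_nonneg (by positivity)]
      intro j
      refine Fin.cases ?_ (fun j => ?_) j
      · rw [Real.norm_eq_abs, abs_le]
        exact ⟨hx1.1, hx1.2⟩
      · have : F x j.succ = 0 := congrFun h0 j
        rw [this, norm_zero]; positivity
    have h2 : ‖F x0‖ ≤ ‖F x‖ := hmin hx
    linarith

lemma dl_lamI_van {K : Set X} {n : ℕ} {U : Coch X (n + 1)} (hU : Van K (dl U)) : ∀ {m : ℕ}
    (F : X → Fin m → ℝ), Van K (dl (lamI m F U)) := by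
  intro m
  induction m with
  | zero => intro F; exact hU
  | succ m ih =>
    intro F
    rw [lamI, dl_lam]
    exact (ih _).lam _

lemma lamI_coc {S S' : Set X} (hS' : IsCompact S') {n : ℕ} {U : Coch X (n + 1)}
    (hU : Van S (dl U)) {m : ℕ} {F : X → Fin m → ℝ} (hF : ContinuousOn F S')
    (h : ∀ x ∈ S', F x ≠ 0) : Coc S S' (lamI m F U) :=
  ⟨lamI_van hS' U hF h, dl_lamI_van hU F⟩

lemma isClosed_cons {m : ℕ} {A : Set (Fin (m + 1) → ℝ)} (hA : IsClosed A) (t : ℝ) :
    IsClosed {y : Fin m → ℝ | (Fin.cons t y : Fin (m + 1) → ℝ) ∈ A} := by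
  refine hA.preimage ?_
  rw [continuous_pi_iff]
  intro i
  refine Fin.cases ?_ (fun i => ?_) i
  · simp only [Fin.cons_zero]; exact continuous_const
  · simp only [Fin.cons_succ]; exact continuous_apply i

omit [MetricSpace X] in
lemma slice_fib {T : Set X} {m : ℕ} (f : X → Fin (m + 1) → ℝ) (t : ℝ) (y : Fin m → ℝ) :
    T ∩ (fun x => f x 0) ⁻¹' {t} ∩ (fun x => Fin.tail (f x)) ⁻¹' {y} =
      T ∩ f ⁻¹' {(Fin.cons t y : Fin (m + 1) → ℝ)} := by
  ext x
  simp only [mem_inter_iff, mem_preimage, mem_singleton_iff]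
  constructor
  · rintro ⟨⟨h1, h2⟩, h3⟩
    refine ⟨h1, ?_⟩
    rw [← Fin.cons_self_tail (f x), h2, h3]
  · rintro ⟨h1, h2⟩
    rw [h2]
    exact ⟨⟨h1, Fin.cons_zero _ _⟩, Fin.tail_cons _ _⟩

omit [MetricSpace X] in
lemma slice_pre {T : Set X} {m : ℕ} (f : X → Fin (m + 1) → ℝ) (t : ℝ) (A : Set (Fin (m + 1) → ℝ)) :
    T ∩ (fun x => f x 0) ⁻¹' {t} ∩ (fun x => Fin.tail (f x)) ⁻¹'
      {y : Fin m → ℝ | (Fin.cons t y : Fin (m + 1) → ℝ) ∈ A} =
      T ∩ (fun x => f x 0) ⁻¹' {t} ∩ (T ∩ f ⁻¹' A) := by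
  ext x
  simp only [mem_inter_iff, mem_preimage, mem_singleton_iff, mem_ofPred_eq]
  constructor
  · rintro ⟨⟨h1, h2⟩, h3⟩
    rw [← h2, Fin.cons_self_tail] at h3
    exact ⟨⟨h1, h2⟩, h1, h3⟩
  · rintro ⟨⟨h1, h2⟩, _, h3⟩
    rw [← h2, Fin.cons_self_tail]
    exact ⟨⟨h1, rfl⟩, h3⟩

/-- **Dimension bound** over a subset of `ℝ^m`. -/
theorem dim_box : ∀ (m : ℕ) {T : Set X} (_ : IsCompact T) (f : X → Fin m → ℝ)
    (_ : ContinuousOn f T) (N : ℕ) (_ : ∀ y, ∀ n, N < n → HZ n (T ∩ f ⁻¹' {y}) ∅)
    (A : Set (Fin m → ℝ)) (_ : IsClosed A) (n : ℕ) (_ : N + m < n), HZ n T (T ∩ f ⁻¹' A) := by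
  intro m
  induction m with
  | zero =>
    intro T hT f hf N hfib A hA n hn
    rcases A.eq_empty_or_nonempty with rfl | ⟨y, hy⟩
    · have h := hfib 0 n (by omega)
      have e : f ⁻¹' {0} = univ := by
        ext x
        simp only [mem_preimage, mem_singleton_iff, mem_univ, iff_true]
        exact Subsingleton.elim _ _
      rw [e, inter_univ] at h
      rwa [preimage_empty, inter_empty]
    · have e : f ⁻¹' A = univ := by
        ext x
        simp only [mem_preimage, mem_univ, iff_true]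
        rwa [Subsingleton.elim (f x) y]
      rw [e, inter_univ]
      exact HZ.selfL T n
  | succ m ih =>
    intro T hT f hf N hfib A hA n hn
    have hf0 : ContinuousOn (fun x => f x 0) T := (continuousOn_pi.1 hf) 0
    have hS0 : IsCompact (T ∩ f ⁻¹' A) := isCompact_inter_pre hT hf hA
    have key : ∀ k, N + m < k → ∀ t,
        HZ k (T ∩ (fun x => f x 0) ⁻¹' {t} ∪ T ∩ f ⁻¹' A) (T ∩ f ⁻¹' A) := by
      intro k hk t
      have hTt : IsCompact (T ∩ (fun x => f x 0) ⁻¹' {t}) :=
        isCompact_inter_pre hT hf0 isClosed_singleton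
      have h1 := ih hTt (fun x => Fin.tail (f x)) ((continuousOn_tail hf).mono inter_subset_left)
        N (fun y n hn => by rw [slice_fib]; exact hfib _ n hn) _ (isClosed_cons hA t) k hk
      rw [slice_pre] at h1
      exact HZ.exc hTt hS0 h1
    obtain ⟨n, rfl⟩ : ∃ k, n = k + 1 := ⟨n - 1, by omega⟩
    intro w hw
    refine slice hT hS0 inter_subset_left hf0 hw (fun t => ?_) (fun t e he => ?_)
    · exact key (n + 1) (by omega) t w (hw.mono (union_subset inter_subset_left inter_subset_left)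
        subset_rfl)
    · exact ⟨0, Coc.zero _ _, by rw [add_zero]; exact key n (by omega) t e he⟩

/-- the boundary of a box -/
def bd {m : ℕ} (lo hi : Fin m → ℝ) : Set (Fin m → ℝ) := {y | ∃ i, y i = lo i ∨ y i = hi i}

lemma isClosed_bd {m : ℕ} (lo hi : Fin m → ℝ) : IsClosed (bd lo hi) := by
  have e : bd lo hi = ⋃ i : Fin m, ({y | y i = lo i} ∪ {y | y i = hi i}) := by
    ext y; simp [bd]
  rw [e]
  exact isClosed_iUnion_of_finite fun i =>
    (isClosed_eq (continuous_apply i) continuous_const).union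
      (isClosed_eq (continuous_apply i) continuous_const)

/-- **The generator** of the top class of a family over a box. -/
theorem gen_box : ∀ (m : ℕ) {T : Set X} (_ : IsCompact T) (f : X → Fin m → ℝ)
    (_ : ContinuousOn f T) (lo hi : Fin m → ℝ) (_ : ∀ i, lo i < 0) (_ : ∀ i, 0 < hi i)
    (_ : ∀ x ∈ T, f x ∈ Icc lo hi) {n : ℕ} {U : Coch X (n + 1)} (_ : Coc T ∅ U)
    (_ : ∀ y ∈ Icc lo hi, HG (T ∩ f ⁻¹' {y}) ∅ U)
    (_ : ∀ y, ∀ k, n + 1 < k → HZ k (T ∩ f ⁻¹' {y}) ∅),
    HG T (T ∩ f ⁻¹' (bd lo hi)) (lamI m f U) := by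
  intro m
  induction m with
  | zero =>
    intro T hT f hf lo hi hlo hhi hmem n U hU hgen hvan
    have h := hgen 0 ⟨fun i => i.elim0, fun i => i.elim0⟩
    have e : f ⁻¹' {0} = univ := by
      ext x
      simp only [mem_preimage, mem_singleton_iff, mem_univ, iff_true]
      exact Subsingleton.elim _ _
    have e2 : bd lo hi = ∅ := by
      ext y
      simp only [bd, mem_ofPred_eq, mem_empty_iff_false, iff_false]
      rintro ⟨i, _⟩
      exact i.elim0
    rw [e, inter_univ] at h
    rw [e2, preimage_empty, inter_empty]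
    exact h
  | succ m ih =>
    intro T hT f hf lo hi hlo hhi hmem n U hU hgen hvan
    have hf0 : ContinuousOn (fun x => f x 0) T := (continuousOn_pi.1 hf) 0
    have hf' : ContinuousOn (fun x => Fin.tail (f x)) T := continuousOn_tail hf
    set S0 : Set X := T ∩ (fun x => Fin.tail (f x)) ⁻¹' (bd (Fin.tail lo) (Fin.tail hi)) with hS0d
    have hS0 : IsCompact S0 := isCompact_inter_pre hT hf' (isClosed_bd _ _)
    have hW : Coc T S0 (lamI m (fun x => Fin.tail (f x)) U) := by
      refine lamI_coc hS0 hU.cl (hf'.mono inter_subset_left) ?_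
      rintro x ⟨_, i, h1 | h1⟩ h0
      · have h2 : f x i.succ = 0 := congrFun h0 i
        have h3 : f x i.succ = lo i.succ := h1
        exact (hlo i.succ).ne (h3.symm.trans h2)
      · have h2 : f x i.succ = 0 := congrFun h0 i
        have h3 : f x i.succ = hi i.succ := h1
        exact (hhi i.succ).ne' (h3.symm.trans h2)
    have h := line hT hS0 inter_subset_left hf0 hW (hlo 0) (hhi 0)
      (fun x hx => ⟨(hmem x hx).1 0, (hmem x hx).2 0⟩)
      (fun t ht => by
        have hTt : IsCompact (T ∩ (fun x => f x 0) ⁻¹' {t}) :=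
          isCompact_inter_pre hT hf0 isClosed_singleton
        have h1 := ih hTt (fun x => Fin.tail (f x)) (hf'.mono inter_subset_left) (Fin.tail lo)
          (Fin.tail hi) (fun i => hlo i.succ) (fun i => hhi i.succ)
          (fun x hx => ⟨fun i => (hmem x hx.1).1 i.succ, fun i => (hmem x hx.1).2 i.succ⟩)
          (n := n) (U := U) (hU.mono inter_subset_left subset_rfl)
          (fun y hy => by
            rw [slice_fib]
            refine hgen _ ⟨fun i => ?_, fun i => ?_⟩
            · refine Fin.cases ?_ (fun i => ?_) i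
              · simpa using ht.1
              · rw [Fin.cons_succ]; exact hy.1 i
            · refine Fin.cases ?_ (fun i => ?_) i
              · simpa using ht.2
              · rw [Fin.cons_succ]; exact hy.2 i)
          (fun y k hk => by rw [slice_fib]; exact hvan _ k hk)
        have e : T ∩ (fun x => f x 0) ⁻¹' {t} ∩ (fun x => Fin.tail (f x)) ⁻¹'
            (bd (Fin.tail lo) (Fin.tail hi)) = T ∩ (fun x => f x 0) ⁻¹' {t} ∩ S0 := by
          rw [hS0d]
          ext x
          simp only [mem_inter_iff, mem_preimage]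
          tauto
        rw [e] at h1
        exact HG.exc hTt hS0 h1 (hW.mono (union_subset inter_subset_left inter_subset_left)
          subset_rfl))
      (fun t ht => by
        have hTt : IsCompact (T ∩ (fun x => f x 0) ⁻¹' {t}) :=
          isCompact_inter_pre hT hf0 isClosed_singleton
        have h1 := dim_box m hTt (fun x => Fin.tail (f x)) (hf'.mono inter_subset_left) (n + 1)
          (fun y k hk => by rw [slice_fib]; exact hvan _ k hk) _
          (isClosed_bd (Fin.tail lo) (Fin.tail hi)) (n + m + 2) (by omega)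
        have e : T ∩ (fun x => f x 0) ⁻¹' {t} ∩ (fun x => Fin.tail (f x)) ⁻¹'
            (bd (Fin.tail lo) (Fin.tail hi)) = T ∩ (fun x => f x 0) ⁻¹' {t} ∩ S0 := by
          rw [hS0d]
          ext x
          simp only [mem_inter_iff, mem_preimage]
          tauto
        rw [e] at h1
        exact HZ.exc hTt hS0 h1)
    have e : T ∩ f ⁻¹' (bd lo hi) = T ∩ (fun x => f x 0) ⁻¹' {lo 0} ∪
        T ∩ (fun x => f x 0) ⁻¹' {hi 0} ∪ S0 := by
      rw [hS0d]
      ext x
      simp only [bd, mem_inter_iff, mem_preimage, mem_ofPred_eq, mem_union, mem_singleton_iff,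
        Fin.exists_fin_succ, Fin.tail]
      by_cases hxT : x ∈ T
      · simp only [hxT, true_and]
      · simp only [hxT, false_and, or_self]
    rw [e]
    exact h

end

end ASC
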