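import Pool.Agent.Lib.MP_f7aa1b_gt.ASC.Glue

/-!
# Families over a closed connected manifold: cubes, dimension and the top class

`lemmaL` is the result: `T → Q` a compact family over a closed connected topological manifold of
dimension `m`, whose fibres have no cohomology above degree `n` and `ZMod 2` in degree `n`, generated by
local classes `U`.  Then `T` has no cohomology above degree `n + m`, and `ZMod 2` in degree `n + m`,
generated by the class `Λ_{k_1} ... Λ_{k_m} U` with support in any cube.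
-/

set_option autoImplicit false

namespace ASC

open Set

/-- open box -/
def ob {m : ℕ} (a b : Fin m → ℝ) : Set (Fin m → ℝ) := {y | ∀ i, a i < y i ∧ y i < b i}

lemma isOpen_ob {m : ℕ} (a b : Fin m → ℝ) : IsOpen (ob a b) := by
  have e : ob a b = ⋂ i : Fin m, ({y | a i < y i} ∩ {y | y i < b i}) := by
    ext y; simp [ob]
  rw [e]
  exact isOpen_iInter_of_finite fun i =>
    (isOpen_lt continuous_const (continuous_apply i)).inter
      (isOpen_lt (continuous_apply i) continuous_const)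

lemma ob_sub_Icc {m : ℕ} (a b : Fin m → ℝ) : ob a b ⊆ Icc a b :=
  fun _ hy => ⟨fun i => (hy i).1.le, fun i => (hy i).2.le⟩

section

variable {X Q : Type*} [MetricSpace X] [MetricSpace Q]

/-- A closed cube in `Q` with coordinates `k`, and a class `U` over it which generates the
cohomology of the fibres in degree `n`. -/
structure Cube (T : Set X) (ρ : X → Q) (m n : ℕ) where
  D : Set Q
  k : Q → Fin m → ℝ
  lo : Fin m → ℝ
  hi : Fin m → ℝ
  U : Coch X (n + 1)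
  lt : ∀ i, lo i < hi i
  compact : IsCompact D
  cont : ContinuousOn k D
  inj : InjOn k D
  image : k '' D = Icc lo hi
  open_int : IsOpen (D ∩ k ⁻¹' (ob lo hi))
  coc : Coc (TA T ρ D) ∅ U
  gen : ∀ q ∈ D, HG (TA T ρ {q}) ∅ U

namespace Cube

variable {T : Set X} {ρ : X → Q} {m n : ℕ} (c : Cube T ρ m n)

/-- the open subcube -/
def V (a b : Fin m → ℝ) : Set Q := c.D ∩ c.k ⁻¹' (ob a b)

/-- the closed subcube -/
def cl (a b : Fin m → ℝ) : Set Q := c.D ∩ c.k ⁻¹' (Icc a b)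

/-- a subbox of the box of the cube -/
structure Sub (a b : Fin m → ℝ) : Prop where
  lo : ∀ i, c.lo i ≤ a i
  lt : ∀ i, a i < b i
  hi : ∀ i, b i ≤ c.hi i

lemma sub_self : c.Sub c.lo c.hi := ⟨fun _ => le_rfl, c.lt, fun _ => le_rfl⟩

lemma cl_compact (a b : Fin m → ℝ) : IsCompact (c.cl a b) :=
  isCompact_inter_pre c.compact c.cont isClosed_Icc

lemma V_sub_cl (a b : Fin m → ℝ) : c.V a b ⊆ c.cl a b :=
  inter_subset_inter_right _ (preimage_mono (ob_sub_Icc a b))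

lemma cl_self : c.cl c.lo c.hi = c.D := by
  refine inter_eq_self_of_subset_left (fun q hq => ?_)
  rw [mem_preimage, ← c.image]
  exact ⟨q, hq, rfl⟩

lemma isOpen_V {a b : Fin m → ℝ} (h : c.Sub a b) : IsOpen (c.V a b) := by
  have e : c.V a b = (c.D ∩ c.k ⁻¹' (ob c.lo c.hi)) ∩ c.k ⁻¹' (ob a b) := by
    ext q
    simp only [V, mem_inter_iff, mem_preimage]
    constructor
    · rintro ⟨h1, h2⟩
      exact ⟨⟨h1, fun i => ⟨(h.lo i).trans_lt (h2 i).1, (h2 i).2.trans_le (h.hi i)⟩⟩, h2⟩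
    · rintro ⟨⟨h1, _⟩, h2⟩
      exact ⟨h1, h2⟩
  rw [e]
  exact (c.cont.mono inter_subset_left).isOpen_inter_preimage c.open_int (isOpen_ob a b)

lemma V_mono {a b a' b' : Fin m → ℝ} (ha : ∀ i, a' i ≤ a i) (hb : ∀ i, b i ≤ b' i) :
    c.V a b ⊆ c.V a' b' := fun _ hq =>
  ⟨hq.1, fun i => ⟨(ha i).trans_lt (hq.2 i).1, (hq.2 i).2.trans_le (hb i)⟩⟩

lemma cl_mono {a b a' b' : Fin m → ℝ} (ha : ∀ i, a' i ≤ a i) (hb : ∀ i, b i ≤ b' i) :
    c.cl a b ⊆ c.cl a' b' := fun _ hq =>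
  ⟨hq.1, fun i => (ha i).trans (hq.2.1 i), fun i => (hq.2.2 i).trans (hb i)⟩

lemma exists_mem {a b : Fin m → ℝ} (h : c.Sub a b) {y : Fin m → ℝ} (hy : y ∈ Icc a b) :
    ∃ q ∈ c.D, c.k q = y := by
  have : y ∈ c.k '' c.D := by
    rw [c.image]
    exact ⟨fun i => (h.lo i).trans (hy.1 i), fun i => (hy.2 i).trans (h.hi i)⟩
  obtain ⟨q, hq, e⟩ := this
  exact ⟨q, hq, e⟩

lemma V_nonempty {a b : Fin m → ℝ} (h : c.Sub a b) : (c.V a b).Nonempty := by
  have hy : (fun i => (a i + b i) / 2) ∈ ob a b := fun i => by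
    have := h.lt i
    constructor <;> linarith
  obtain ⟨q, hq, e⟩ := c.exists_mem h (ob_sub_Icc a b hy)
  exact ⟨q, hq, by rw [mem_preimage, e]; exact hy⟩

lemma fib {A : Set Q} (hA : A ⊆ c.D) {q : Q} (hq : q ∈ A) :
    TA T ρ A ∩ (fun x => c.k (ρ x)) ⁻¹' {c.k q} = TA T ρ {q} := by
  ext x
  simp only [TA, mem_inter_iff, mem_preimage, mem_singleton_iff]
  constructor
  · rintro ⟨⟨h1, h2⟩, h3⟩
    exact ⟨h1, c.inj (hA h2) (hA hq) h3⟩
  · rintro ⟨h1, h2⟩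
    exact ⟨⟨h1, by rw [h2]; exact hq⟩, by rw [h2]⟩

lemma fib_empty {A : Set Q} {y : Fin m → ℝ} (hy : ¬ ∃ q ∈ A, c.k q = y) :
    TA T ρ A ∩ (fun x => c.k (ρ x)) ⁻¹' {y} = ∅ := by
  rw [eq_empty_iff_forall_notMem]
  rintro x ⟨⟨_, h2⟩, h3⟩
  exact hy ⟨ρ x, h2, h3⟩

lemma cont_k (hρ : ContinuousOn ρ T) {A : Set Q} (hA : A ⊆ c.D) :
    ContinuousOn (fun x => c.k (ρ x)) (TA T ρ A) :=
  c.cont.comp (hρ.mono (TA_sub _ _ _)) (fun _ hx => hA hx.2)

/-- dimension bound over a closed cube -/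
lemma dim (hT : IsCompact T) (hρ : ContinuousOn ρ T)
    (hfib : ∀ q, ∀ k, n + 1 < k → HZ k (TA T ρ {q}) ∅) {A A' : Set Q} (hA : IsClosed A)
    (hA' : IsClosed A') (hAA : A' ⊆ A) {k : ℕ} (hk : n + 1 + m < k) :
    HZ k (TA T ρ (A ∩ c.D)) (TA T ρ (A' ∩ c.D)) := by
  have hAD : IsClosed (A ∩ c.D) := hA.inter c.compact.isClosed
  have hK : IsCompact (A' ∩ c.D) := c.compact.inter_left hA'
  have h := dim_box m (TA_compact hT hρ hAD) (fun x => c.k (ρ x))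
    (c.cont_k hρ inter_subset_right) (n + 1) (fun y k hk => by
      by_cases hy : ∃ q ∈ A ∩ c.D, c.k q = y
      · obtain ⟨q, hq, rfl⟩ := hy
        rw [c.fib inter_subset_right hq]
        exact hfib q k hk
      · rw [c.fib_empty hy]
        obtain ⟨k, rfl⟩ : ∃ j, k = j + 1 := ⟨k - 1, by omega⟩
        exact HZ.emptyL k ∅) (c.k '' (A' ∩ c.D))
    (hK.image_of_continuousOn (c.cont.mono inter_subset_right)).isClosed k hk
  have e : TA T ρ (A ∩ c.D) ∩ (fun x => c.k (ρ x)) ⁻¹' (c.k '' (A' ∩ c.D)) =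
      TA T ρ (A' ∩ c.D) := by
    ext x
    simp only [TA, mem_inter_iff, mem_preimage, mem_image]
    constructor
    · rintro ⟨⟨h1, _, h3⟩, q, ⟨hq1, hq2⟩, hq⟩
      have : q = ρ x := c.inj hq2 h3 hq
      rw [← this]
      exact ⟨h1, hq1, hq2⟩
    · rintro ⟨h1, h2, h3⟩
      exact ⟨⟨h1, hAA h2, h3⟩, ρ x, ⟨h2, h3⟩, rfl⟩
  rwa [e] at h

/-- the explicit generator over a subcube -/
lemma gen_sub (hT : IsCompact T) (hρ : ContinuousOn ρ T)
    (hfib : ∀ q, ∀ k, n + 1 < k → HZ k (TA T ρ {q}) ∅) {a b z : Fin m → ℝ} (h : c.Sub a b)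
    (hz : z ∈ ob a b) :
    HG (TA T ρ (c.cl a b)) (TA T ρ (c.cl a b) ∩ TA T ρ (c.V a b)ᶜ)
      (lamI m (fun x => c.k (ρ x) - z) c.U) := by
  have hfibz : ∀ y, TA T ρ (c.cl a b) ∩ (fun x => c.k (ρ x) - z) ⁻¹' {y} =
      TA T ρ (c.cl a b) ∩ (fun x => c.k (ρ x)) ⁻¹' {y + z} := by
    intro y
    ext x
    simp only [mem_inter_iff, mem_preimage, mem_singleton_iff, sub_eq_iff_eq_add]
  have h1 := gen_box m (TA_compact hT hρ (c.cl_compact a b).isClosed)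
    (fun x => c.k (ρ x) - z) ((c.cont_k hρ inter_subset_left).sub continuousOn_const)
    (a - z) (b - z) (fun i => by have := (hz i).1; simp only [Pi.sub_apply]; linarith)
    (fun i => by have := (hz i).2; simp only [Pi.sub_apply]; linarith)
    (fun x hx => ⟨sub_le_sub_right hx.2.2.1 z, sub_le_sub_right hx.2.2.2 z⟩) (n := n) (U := c.U)
    (c.coc.mono (TA_mono T ρ inter_subset_left) subset_rfl)
    (fun y hy => by
      rw [hfibz]
      have hy' : y + z ∈ Icc a b := ⟨sub_le_iff_le_add.1 hy.1, le_sub_iff_add_le.1 hy.2⟩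
      obtain ⟨q, hq, e⟩ := c.exists_mem h hy'
      have hq' : q ∈ c.cl a b := ⟨hq, by rw [mem_preimage, e]; exact hy'⟩
      rw [← e, c.fib (A := c.cl a b) inter_subset_left hq']
      exact c.gen q hq)
    (fun y k hk => by
      rw [hfibz]
      by_cases hy : ∃ q ∈ c.cl a b, c.k q = y + z
      · obtain ⟨q, hq, e⟩ := hy
        rw [← e, c.fib (A := c.cl a b) inter_subset_left hq]
        exact hfib q k hk
      · rw [c.fib_empty hy]
        obtain ⟨k, rfl⟩ : ∃ j, k = j + 1 := ⟨k - 1, by omega⟩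
        exact HZ.emptyL k ∅)
  have e : TA T ρ (c.cl a b) ∩ (fun x => c.k (ρ x) - z) ⁻¹' (bd (a - z) (b - z)) =
      TA T ρ (c.cl a b) ∩ TA T ρ (c.V a b)ᶜ := by
    ext x
    simp only [TA, cl, V, bd, mem_inter_iff, mem_preimage, mem_ofPred_eq, mem_compl_iff, ob,
      Pi.sub_apply, sub_left_inj, not_and, not_forall]
    constructor
    · rintro ⟨⟨h1, h2, h3⟩, i, h4⟩
      refine ⟨⟨h1, h2, h3⟩, h1, fun _ => ⟨i, fun h5 h6 => ?_⟩⟩
      rcases h4 with h4 | h4 <;> linarith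
    · rintro ⟨⟨h1, h2, h3⟩, _, h4⟩
      obtain ⟨i, h5⟩ := h4 h2
      refine ⟨⟨h1, h2, h3⟩, i, ?_⟩
      rcases (h3.1 i).lt_or_eq with h6 | h6
      · right
        exact le_antisymm (h3.2 i) (not_lt.1 (h5 h6))
      · left; exact h6.symm
  rwa [e] at h1

lemma cl_union_compl (a b : Fin m → ℝ) :
    TA T ρ (c.cl a b) ∪ TA T ρ (c.V a b)ᶜ = T := by
  rw [← TA_union]
  have e : c.cl a b ∪ (c.V a b)ᶜ = univ := by
    rw [eq_univ_iff_forall]
    intro q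
    by_cases hq : q ∈ c.V a b
    · exact Or.inl (c.V_sub_cl a b hq)
    · exact Or.inr hq
  rw [e, TA_univ]

/-- the class with support in an open subcube -/
lemma lift (hT : IsCompact T) (hρ : ContinuousOn ρ T)
    (hfib : ∀ q, ∀ k, n + 1 < k → HZ k (TA T ρ {q}) ∅) {a b z : Fin m → ℝ} (h : c.Sub a b)
    (hz : z ∈ ob a b) : ∃ Z : Coch X (n + m + 1), HG T (TA T ρ (c.V a b)ᶜ) Z ∧
      Cob (TA T ρ (c.cl a b)) (TA T ρ (c.cl a b) ∩ TA T ρ (c.V a b)ᶜ)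
        (Z + lamI m (fun x => c.k (ρ x) - z) c.U) := by
  have hA : IsCompact (TA T ρ (c.cl a b)) := TA_compact hT hρ (c.cl_compact a b).isClosed
  have hB : IsCompact (TA T ρ (c.V a b)ᶜ) := TA_compact hT hρ (c.isOpen_V h).isClosed_compl
  have hg := c.gen_sub hT hρ hfib h hz
  obtain ⟨Z, hZ, hZg⟩ := excision_surj hA hB hA.isClosed hB.isClosed hg.coc
  refine ⟨Z, ?_, hZg⟩
  have h1 : HG (TA T ρ (c.cl a b)) (TA T ρ (c.cl a b) ∩ TA T ρ (c.V a b)ᶜ) Z :=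
    hg.congr (hZ.mono subset_union_left inter_subset_right)
      (by rw [add_comm (lamI m (fun x => c.k (ρ x) - z) c.U)]; exact hZg)
  have h2 := h1.exc hA hB hZ
  rwa [c.cl_union_compl] at h2

lemma _root_.ASC.HG.eq {S S' : Set X} {n : ℕ} {g g' : Coch X n} (h : HG S S' g)
    (h' : HG S S' g') : Cob S S' (g' + g) :=
  (h.gen g' h'.coc).resolve_left h'.ne

/-- nested subcubes of the same cube -/
lemma nest (hT : IsCompact T) (hρ : ContinuousOn ρ T)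
    (hfib : ∀ q, ∀ k, n + 1 < k → HZ k (TA T ρ {q}) ∅) {a b a' b' : Fin m → ℝ} (h : c.Sub a b)
    (h' : c.Sub a' b') (ha : ∀ i, a' i ≤ a i) (hb : ∀ i, b i ≤ b' i) {Z : Coch X (n + m + 1)}
    (hZ : HG T (TA T ρ (c.V a b)ᶜ) Z) : ¬ Cob T (TA T ρ (c.V a' b')ᶜ) Z := by
  intro hc
  obtain ⟨z, hz⟩ : ∃ z, z ∈ ob a b := ⟨fun i => (a i + b i) / 2, fun i => by
    have := h.lt i
    constructor <;> linarith⟩
  have hz' : z ∈ ob a' b' := fun i => ⟨(ha i).trans_lt (hz i).1, (hz i).2.trans_le (hb i)⟩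
  obtain ⟨Z0, hZ0, hZ0l⟩ := c.lift hT hρ hfib h hz
  have hVV : c.V a b ⊆ c.V a' b' := c.V_mono ha hb
  have hcc : c.cl a b ⊆ c.cl a' b' := c.cl_mono ha hb
  have hTV : TA T ρ (c.V a' b')ᶜ ⊆ TA T ρ (c.V a b)ᶜ := TA_mono T ρ (compl_subset_compl.2 hVV)
  have h1 : Cob T (TA T ρ (c.V a' b')ᶜ) Z0 :=
    Cob.congr ((hZ0.eq hZ).mono subset_rfl hTV) hc
  have h2 : Cob (TA T ρ (c.cl a' b')) (TA T ρ (c.cl a' b') ∩ TA T ρ (c.V a' b')ᶜ) Z0 :=
    h1.mono (TA_sub _ _ _) inter_subset_right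
  -- comparison with the explicit class
  have hA : IsCompact (TA T ρ (c.cl a b)) := TA_compact hT hρ (c.cl_compact a b).isClosed
  have hB1 : IsCompact (TA T ρ (c.V a b)ᶜ) := TA_compact hT hρ (c.isOpen_V h).isClosed_compl
  have hB : IsCompact (TA T ρ (c.cl a' b') ∩ TA T ρ (c.V a b)ᶜ) :=
    (TA_compact hT hρ (c.cl_compact a' b').isClosed).inter_right hB1.isClosed
  have hun : TA T ρ (c.cl a b) ∪ (TA T ρ (c.cl a' b') ∩ TA T ρ (c.V a b)ᶜ) =
      TA T ρ (c.cl a' b') := by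
    refine subset_antisymm (union_subset (TA_mono T ρ hcc) inter_subset_left) ?_
    intro x hx
    by_cases hxV : ρ x ∈ c.V a b
    · exact Or.inl ⟨hx.1, c.V_sub_cl a b hxV⟩
    · exact Or.inr ⟨hx, hx.1, hxV⟩
  have hin : TA T ρ (c.cl a b) ∩ (TA T ρ (c.cl a' b') ∩ TA T ρ (c.V a b)ᶜ) =
      TA T ρ (c.cl a b) ∩ TA T ρ (c.V a b)ᶜ := by
    rw [← inter_assoc, inter_eq_self_of_subset_left (TA_mono T ρ hcc)]
  have hlam : Coc (TA T ρ (c.cl a' b')) (TA T ρ (c.cl a' b') ∩ TA T ρ (c.V a b)ᶜ)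
      (lamI m (fun x => c.k (ρ x) - z) c.U) := by
    refine lamI_coc hB (c.coc.cl.mono (TA_mono T ρ inter_subset_left))
      (((c.cont_k hρ inter_subset_left).mono inter_subset_left).sub continuousOn_const) ?_
    rintro x ⟨⟨_, h3⟩, _, h4⟩ h5
    refine h4 ⟨h3.1, ?_⟩
    rw [mem_preimage, sub_eq_zero.1 h5]
    exact hz
  have h3 := excision_inj hA hB hA.isClosed hB.isClosed
    (F := Z0 + lamI m (fun x => c.k (ρ x) - z) c.U)
    (by rw [hun]; exact (hZ0.coc.mono (TA_sub _ _ _) inter_subset_right).add hlam)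
    (by rw [hin]; exact hZ0l)
  rw [hun] at h3
  have h4 : Cob (TA T ρ (c.cl a' b')) (TA T ρ (c.cl a' b') ∩ TA T ρ (c.V a' b')ᶜ)
      (Z0 + lamI m (fun x => c.k (ρ x) - z) c.U) :=
    h3.mono subset_rfl (inter_subset_inter_right _ hTV)
  exact (c.gen_sub hT hρ hfib h' hz').ne (Cob.congr h4 h2)

/-- small subcubes around a point -/
lemma small {a b : Fin m → ℝ} (hab : c.Sub a b) {q : Q} (hq : q ∈ c.V a b) {W : Set Q}
    (hW : IsOpen W) (hqW : q ∈ W) :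
    ∃ a' b', c.Sub a' b' ∧ (∀ i, a i ≤ a' i) ∧ (∀ i, b' i ≤ b i) ∧ q ∈ c.V a' b' ∧
      c.V a' b' ⊆ W := by
  have hK : IsCompact (c.D \ W) := c.compact.diff hW
  obtain ⟨δ, hδ, hd⟩ : ∃ δ > 0, ∀ y ∈ c.D \ W, δ ≤ ‖c.k y - c.k q‖ := by
    rcases (c.D \ W).eq_empty_or_nonempty with he | hne
    · exact ⟨1, one_pos, fun y hy => by rw [he] at hy; exact hy.elim⟩
    · have hcn : ContinuousOn (fun y => ‖c.k y - c.k q‖) (c.D \ W) :=
        ((c.cont.mono sdiff_subset).sub continuousOn_const).norm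
      obtain ⟨y0, hy0, hmin⟩ := hK.exists_isMinOn hne hcn
      refine ⟨‖c.k y0 - c.k q‖, ?_, fun y hy => hmin hy⟩
      rw [gt_iff_lt, norm_pos_iff, sub_ne_zero]
      intro h0
      exact hy0.2 ((c.inj hy0.1 hq.1 h0) ▸ hqW)
  obtain ⟨r, hr, hrδ, hrb⟩ : ∃ r > 0, r < δ ∧ ∀ i, a i ≤ c.k q i - r ∧ c.k q i + r ≤ b i := by
    have hnh : ∀ᶠ r : ℝ in nhdsWithin 0 (Ioi 0), r < δ ∧
        ∀ i, a i ≤ c.k q i - r ∧ c.k q i + r ≤ b i := by
      refine Filter.Eventually.and ?_ ?_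
      · exact Filter.Eventually.filter_mono nhdsWithin_le_nhds (gt_mem_nhds hδ)
      · rw [Filter.eventually_all]
        intro i
        have h1 : ∀ᶠ r : ℝ in nhdsWithin 0 (Ioi 0), r < c.k q i - a i :=
          Filter.Eventually.filter_mono nhdsWithin_le_nhds (gt_mem_nhds (sub_pos.2 (hq.2 i).1))
        have h2 : ∀ᶠ r : ℝ in nhdsWithin 0 (Ioi 0), r < b i - c.k q i :=
          Filter.Eventually.filter_mono nhdsWithin_le_nhds (gt_mem_nhds (sub_pos.2 (hq.2 i).2))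
        filter_upwards [h1, h2] with r h1 h2
        constructor <;> linarith
    obtain ⟨r, hr, hr0⟩ := (hnh.and self_mem_nhdsWithin).exists
    exact ⟨r, hr0, hr.1, hr.2⟩
  refine ⟨fun i => c.k q i - r, fun i => c.k q i + r,
    ⟨fun i => (hab.lo i).trans (hrb i).1, fun i => by linarith,
    fun i => (hrb i).2.trans (hab.hi i)⟩, fun i => (hrb i).1, fun i => (hrb i).2,
    ⟨hq.1, fun i => by constructor <;> linarith⟩, ?_⟩
  rintro y ⟨hy1, hy2⟩
  by_contra hcon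
  have h1 := hd y ⟨hy1, hcon⟩
  have h2 : ‖c.k y - c.k q‖ ≤ r := by
    rw [pi_norm_le_iff_of_nonneg hr.le]
    intro i
    have := hy2 i
    rw [Pi.sub_apply, Real.norm_eq_abs, abs_le]
    constructor <;> linarith [this.1, this.2]
  linarith

end Cube

/-- the dimension bound for the whole family -/
theorem dim_all [CompactSpace Q] {T : Set X} {ρ : X → Q} (hT : IsCompact T)
    (hρ : ContinuousOn ρ T) {m n : ℕ} (hfib : ∀ q, ∀ k, n + 1 < k → HZ k (TA T ρ {q}) ∅)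
    (hcov : ∀ q, ∃ c : Cube T ρ m n, q ∈ c.V c.lo c.hi) {A : Set Q} (hA : IsClosed A) {k : ℕ}
    (hk : n + 1 + m < k) : HZ k T (TA T ρ A) := by
  have key : ∀ A : Set Q, IsClosed A → ∃ B : Set Q, IsClosed B ∧ univ ⊆ B ∧ A ⊆ B ∧
      HZ k (TA T ρ B) (TA T ρ A) := by
    refine (isCompact_univ (X := Q)).induction_on (p := fun K => ∀ A : Set Q, IsClosed A →
      ∃ B : Set Q, IsClosed B ∧ K ⊆ B ∧ A ⊆ B ∧ HZ k (TA T ρ B) (TA T ρ A))
      (fun A hA => ⟨A, hA, empty_subset _, subset_rfl, HZ.selfL _ _⟩) ?_ ?_ ?_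
    · intro s t hst h A hA
      obtain ⟨B, hB, htB, h⟩ := h A hA
      exact ⟨B, hB, hst.trans htB, h⟩
    · intro s t hs ht A hA
      obtain ⟨B, hB, hsB, hAB, h⟩ := hs A hA
      obtain ⟨B', hB', htB', hBB, h'⟩ := ht B hB
      exact ⟨B', hB', union_subset (hsB.trans hBB) htB', hAB.trans hBB,
        h'.transL h (TA_mono T ρ hBB) (TA_mono T ρ hAB)⟩
    · intro q _
      obtain ⟨c, hc⟩ := hcov q
      refine ⟨c.V c.lo c.hi, mem_nhdsWithin_of_mem_nhds ((c.isOpen_V c.sub_self).mem_nhds hc),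
        fun A hA => ⟨c.D ∪ A, c.compact.isClosed.union hA, ?_, subset_union_right, ?_⟩⟩
      · exact (inter_subset_left).trans subset_union_left
      · rw [TA_union]
        refine HZ.exc (TA_compact hT hρ c.compact.isClosed) (TA_compact hT hρ hA) ?_
        have h := c.dim hT hρ hfib isClosed_univ hA (subset_univ A) hk
        rwa [univ_inter, inter_comm, TA_inter] at h
  obtain ⟨B, _, hB, _, h⟩ := key A hA
  rw [univ_subset_iff.1 hB, TA_univ] at h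
  exact h

/-- the gluing data of the cubes -/
theorem exists_glueData [CompactSpace Q] {T : Set X} {ρ : X → Q} (hT : IsCompact T)
    (hρ : ContinuousOn ρ T) {m n : ℕ} (hfib : ∀ q, ∀ k, n + 1 < k → HZ k (TA T ρ {q}) ∅)
    (hcov : ∀ q, ∃ c : Cube T ρ m n, q ∈ c.V c.lo c.hi) :
    ∃ 𝒢 : GlueData T ρ (n + m), 𝒢.B = {V | ∃ (c : Cube T ρ m n) (a b : Fin m → ℝ), c.Sub a b ∧
      V = c.V a b} := by
  have hex : ∀ V, (∃ (c : Cube T ρ m n) (a b : Fin m → ℝ), c.Sub a b ∧ V = c.V a b) →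
      ∃ Z : Coch X (n + m + 1), HG T (TA T ρ Vᶜ) Z := by
    rintro V ⟨c, a, b, hab, rfl⟩
    obtain ⟨Z, hZ, _⟩ := c.lift hT hρ hfib hab (z := fun i => (a i + b i) / 2) (fun i => by
      have := hab.lt i
      constructor <;> linarith)
    exact ⟨Z, hZ⟩
  classical
  let Z : Set Q → Coch X (n + m + 1) := fun V =>
    if h : ∃ Z : Coch X (n + m + 1), HG T (TA T ρ Vᶜ) Z then h.choose else 0
  have hZ : ∀ V, (∃ (c : Cube T ρ m n) (a b : Fin m → ℝ), c.Sub a b ∧ V = c.V a b) →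
      HG T (TA T ρ Vᶜ) (Z V) := by
    intro V hV
    simp only [Z, dif_pos (hex V hV)]
    exact (hex V hV).choose_spec
  refine ⟨⟨hT, hρ, fun A hA => dim_all hT hρ hfib hcov hA (by omega),
    {V | ∃ (c : Cube T ρ m n) (a b : Fin m → ℝ), c.Sub a b ∧ V = c.V a b}, ?_, ?_, ?_, Z, hZ, ?_⟩,
    rfl⟩
  · rintro V ⟨c, a, b, hab, rfl⟩
    exact c.isOpen_V hab
  · rintro V ⟨c, a, b, hab, rfl⟩
    exact c.V_nonempty hab
  · intro q W hW hqW
    obtain ⟨c, hc⟩ := hcov q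
    obtain ⟨a, b, hab, _, _, hq, hs⟩ := c.small c.sub_self hc hW hqW
    exact ⟨_, ⟨c, a, b, hab, rfl⟩, hq, hs⟩
  · -- nested cubes of different charts
    rintro V ⟨c, a, b, hab, rfl⟩ V' ⟨c', a', b', hab', rfl⟩ hVV hcob
    obtain ⟨q, hq⟩ := c.V_nonempty hab
    obtain ⟨a1, b1, hab1, ha1, hb1, hq1, hs1⟩ := c'.small hab' (hVV hq) (c.isOpen_V hab) hq
    obtain ⟨a2, b2, hab2, ha2, hb2, hq2, hs2⟩ := c.small hab hq (c'.isOpen_V hab1) hq1
    have g : HG T (TA T ρ (c.V a b)ᶜ) (Z (c.V a b)) := hZ _ ⟨c, a, b, hab, rfl⟩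
    have g1 : HG T (TA T ρ (c'.V a1 b1)ᶜ) (Z (c'.V a1 b1)) := hZ _ ⟨c', a1, b1, hab1, rfl⟩
    have g2 : HG T (TA T ρ (c.V a2 b2)ᶜ) (Z (c.V a2 b2)) := hZ _ ⟨c, a2, b2, hab2, rfl⟩
    have n2 := c.nest hT hρ hfib hab2 hab ha2 hb2 g2
    have n1 := c'.nest hT hρ hfib hab1 hab' ha1 hb1 g1
    have e1 : TA T ρ (c.V a b)ᶜ ⊆ TA T ρ (c'.V a1 b1)ᶜ := TA_mono T ρ (compl_subset_compl.2 hs1)
    have e2 : TA T ρ (c'.V a1 b1)ᶜ ⊆ TA T ρ (c.V a2 b2)ᶜ := TA_mono T ρ (compl_subset_compl.2 hs2)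
    have e3 : TA T ρ (c'.V a' b')ᶜ ⊆ TA T ρ (c.V a b)ᶜ := TA_mono T ρ (compl_subset_compl.2 hVV)
    have h1 : Cob T (TA T ρ (c.V a b)ᶜ) (Z (c.V a2 b2) + Z (c'.V a1 b1)) :=
      ((g1.gen _ (g2.coc.mono subset_rfl e2)).resolve_left
        (fun h => n2 (h.mono subset_rfl e1))).mono subset_rfl e1
    have h2 : Cob T (TA T ρ (c.V a b)ᶜ) (Z (c.V a2 b2) + Z (c.V a b)) :=
      (g.gen _ (g2.coc.mono subset_rfl (e1.trans e2))).resolve_left n2
    have h3 : Cob T (TA T ρ (c'.V a' b')ᶜ) (Z (c'.V a1 b1) + Z (c.V a b)) := by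
      have h4 := h1.add h2
      have e : Z (c.V a2 b2) + Z (c'.V a1 b1) + (Z (c.V a2 b2) + Z (c.V a b)) =
          (Z (c.V a2 b2) + Z (c.V a2 b2)) + (Z (c'.V a1 b1) + Z (c.V a b)) := by abel
      rw [e, add_self_coch, zero_add] at h4
      exact h4.mono subset_rfl e3
    exact n1 (h3.congr' hcob)

/-- **Lemma L.** -/
theorem lemmaL [CompactSpace Q] [PreconnectedSpace Q] {T : Set X} {ρ : X → Q} (hT : IsCompact T)
    (hρ : ContinuousOn ρ T) {m n : ℕ} (hfib : ∀ q, ∀ k, n + 1 < k → HZ k (TA T ρ {q}) ∅)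
    (hcov : ∀ q, ∃ c : Cube T ρ m n, q ∈ c.V c.lo c.hi) :
    (∀ k, n + m + 1 < k → HZ k T ∅) ∧
    ∀ (c : Cube T ρ m n) (z : Fin m → ℝ), z ∈ ob c.lo c.hi → ∀ F : Coch X (n + m + 1),
      Coc T (TA T ρ (c.V c.lo c.hi)ᶜ) F →
      Cob (TA T ρ c.D) (TA T ρ c.D ∩ TA T ρ (c.V c.lo c.hi)ᶜ)
        (F + lamI m (fun x => c.k (ρ x) - z) c.U) → HG T ∅ F := by
  constructor
  · intro k hk
    have h := dim_all hT hρ hfib hcov isClosed_empty (k := k) (by omega)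
    rwa [TA_empty] at h
  · intro c z hz F hF hFl
    obtain ⟨𝒢, h𝒢⟩ := exists_glueData hT hρ hfib hcov
    have hV : c.V c.lo c.hi ∈ 𝒢.B := by
      rw [h𝒢]
      exact ⟨c, c.lo, c.hi, c.sub_self, rfl⟩
    obtain ⟨Z0, hZ0, hZl⟩ := c.lift hT hρ hfib c.sub_self hz
    rw [c.cl_self] at hZl
    have h1 : Cob (TA T ρ c.D) (TA T ρ c.D ∩ TA T ρ (c.V c.lo c.hi)ᶜ) (F + Z0) := by
      have h2 := hFl.add hZl
      have e : F + lamI m (fun x => c.k (ρ x) - z) c.U +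
          (Z0 + lamI m (fun x => c.k (ρ x) - z) c.U) =
          (lamI m (fun x => c.k (ρ x) - z) c.U + lamI m (fun x => c.k (ρ x) - z) c.U) +
          (F + Z0) := by abel
      rwa [e, add_self_coch, zero_add] at h2
    have hA : IsCompact (TA T ρ c.D) := TA_compact hT hρ c.compact.isClosed
    have hB : IsCompact (TA T ρ (c.V c.lo c.hi)ᶜ) :=
      TA_compact hT hρ (c.isOpen_V c.sub_self).isClosed_compl
    have hun : TA T ρ c.D ∪ TA T ρ (c.V c.lo c.hi)ᶜ = T := by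
      have := c.cl_union_compl (T := T) (ρ := ρ) c.lo c.hi
      rwa [c.cl_self] at this
    have h2 := excision_inj hA hB hA.isClosed hB.isClosed (F := F + Z0)
      (by rw [hun]; exact hF.add hZ0.coc) h1
    rw [hun] at h2
    have h3 : Cob T ∅ (F + Z0) := h2.mono subset_rfl (empty_subset _)
    have h4 : Cob T ∅ (Z0 + 𝒢.Z (c.V c.lo c.hi)) :=
      ((𝒢.gen _ hV).eq hZ0).mono subset_rfl (empty_subset _)
    have h5 := 𝒢.glue hV
    refine h5.congr (hF.mono subset_rfl (empty_subset _)) ?_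
    have h6 := h3.trans h4
    rwa [add_comm F] at h6

end

end ASC
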