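import Pool.Agent.Lib.MP_f7aa1b_gt.ASC.MV

/-!
# Transfer along homotopy equivalences of pairs, disjoint unions
-/

set_option autoImplicit false

namespace ASC

open Set

variable {X Y : Type*}

section pseudo

variable [PseudoMetricSpace X] [PseudoMetricSpace Y]

/-- the vanishing of the cohomology passes to homotopy retracts -/
lemma HZ.transfer {S S' : Set X} {R R' : Set Y} (hS' : S' ⊆ S) (hR' : R' ⊆ R) {φ : X → Y}
    {ψ : Y → X} {n : ℕ} (hφ : UniformContinuousOn φ S) (hφS : MapsTo φ S R)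
    (hφS' : MapsTo φ S' R') (hψ : UniformContinuousOn ψ R) (hψR : MapsTo ψ R S)
    (hψR' : MapsTo ψ R' S')
    (h1 : ∀ F : Coch X n, Coc S S' F → Cob S S' (pb (ψ ∘ φ) F + F)) (h : HZ n R R') :
    HZ n S S' := by
  intro F hF
  have a : Coc R R' (pb ψ F) := hF.pb hR' hψ hψR hψR'
  have b : Cob S S' (pb φ (pb ψ F)) := (h _ a).pb hS' hφ hφS hφS'
  exact (h1 F hF).congr b

/-- `H = ZMod 2` passes along homotopy equivalences of pairs -/
lemma HG.transfer {S S' : Set X} {R R' : Set Y} (hS' : S' ⊆ S) (hR' : R' ⊆ R) {φ : X → Y}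
    {ψ : Y → X} {n : ℕ} (hφ : UniformContinuousOn φ S) (hφS : MapsTo φ S R)
    (hφS' : MapsTo φ S' R') (hψ : UniformContinuousOn ψ R) (hψR : MapsTo ψ R S)
    (hψR' : MapsTo ψ R' S')
    (h1 : ∀ F : Coch X n, Coc S S' F → Cob S S' (pb (ψ ∘ φ) F + F)) {g : Coch Y n}
    (h2 : Cob R R' (pb (φ ∘ ψ) g + g)) (h : HG R R' g) :
    HG S S' (pb φ g) := by
  refine ⟨h.coc.pb hS' hφ hφS hφS', ?_, ?_⟩
  · intro hc
    apply h.ne
    have : Cob R R' (pb ψ (pb φ g)) := hc.pb hR' hψ hψR hψR'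
    exact h2.congr this
  · intro F hF
    have a : Coc R R' (pb ψ F) := hF.pb hR' hψ hψR hψR'
    have e := h1 F hF
    rcases h.gen _ a with h3 | h3
    · left
      have b : Cob S S' (pb φ (pb ψ F)) := h3.pb hS' hφ hφS hφS'
      exact e.congr b
    · right
      have b : Cob S S' (pb φ (pb ψ F + g)) := h3.pb hS' hφ hφS hφS'
      rw [pb_add] at b
      have e' : Cob S S' (F + pb φ (pb ψ F)) := by rw [add_comm]; exact e
      exact e'.trans b

/-- homotopic to the identity, as needed for `HZ.transfer` and `HG.transfer` -/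
lemma cob_of_homotopy_id {S S' : Set X} (hS : S' ⊆ S) (hSc : IsCompact S)
    (Φ : ℝ × X → X) (hΦ : ContinuousOn Φ (Icc (0 : ℝ) 1 ×ˢ S))
    (hR : ∀ t ∈ Icc (0 : ℝ) 1, ∀ y ∈ S, Φ (t, y) ∈ S)
    (hR' : ∀ t ∈ Icc (0 : ℝ) 1, ∀ y ∈ S', Φ (t, y) ∈ S') {χ : X → X}
    (h0 : ∀ y ∈ S, Φ (0, y) = χ y) (h1 : ∀ y ∈ S, Φ (1, y) = y) {n : ℕ} {F : Coch X n}
    (hF : Coc S S' F) : Cob S S' (pb χ F + F) := by
  have h := homotopy hS hSc Φ hΦ (R := S) (R' := S') hR hR' hF
  have e0 : Cob S S' (pb χ F + pb (fun y => Φ (0, y)) F) := by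
    apply Cob.of_van
    refine ⟨1, one_pos, fun x hx => ?_⟩
    have : (fun i => Φ (0, x i)) = fun i => χ (x i) := by funext i; exact h0 _ (hx.1 i)
    simp only [Pi.add_apply, pb, this, z2]
  have e1 : Cob S S' (pb (fun y => Φ (1, y)) F + F) := by
    apply Cob.of_van
    refine ⟨1, one_pos, fun x hx => ?_⟩
    have : (fun i => Φ (1, x i)) = x := by funext i; exact h1 _ (hx.1 i)
    simp only [Pi.add_apply, pb, this, z2]
  exact (e0.trans h).trans e1

omit [PseudoMetricSpace X] in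
/-- two functions which agree on `S` give the same pull back, up to a coboundary -/
lemma cob_pb_of_eqOn {S S' : Set Y} {φ ψ : Y → X} (h : EqOn φ ψ S) {n : ℕ} (F : Coch X n) :
    Cob S S' (pb φ F + pb ψ F) := by
  apply Cob.of_van
  refine ⟨1, one_pos, fun x hx => ?_⟩
  have : (fun i => φ (x i)) = fun i => ψ (x i) := by funext i; exact h (hx.1 i)
  simp only [Pi.add_apply, pb, this, z2]

/-- deformation of `S` into `S'`: the cohomology of the pair vanishes -/
lemma HZ_of_deformation {S S' : Set X} (hS : S' ⊆ S) (hSc : IsCompact S)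
    (Φ : ℝ × X → X) (hΦ : ContinuousOn Φ (Icc (0 : ℝ) 1 ×ˢ S))
    (hR : ∀ t ∈ Icc (0 : ℝ) 1, ∀ y ∈ S, Φ (t, y) ∈ S)
    (hR' : ∀ t ∈ Icc (0 : ℝ) 1, ∀ y ∈ S', Φ (t, y) ∈ S')
    (h0 : ∀ y ∈ S, Φ (0, y) ∈ S') (h1 : ∀ y ∈ S, Φ (1, y) = y) (n : ℕ) : HZ n S S' := by
  intro F hF
  have a := cob_of_homotopy_id hS hSc Φ hΦ hR hR' (χ := fun y => Φ (0, y)) (fun _ _ => rfl) h1 hF
  refine a.congr ?_
  apply Cob.of_van
  have hc : ContinuousOn (fun y => Φ (0, y)) S :=
    hΦ.comp (by fun_prop) (fun y hy => ⟨⟨le_rfl, zero_le_one⟩, hy⟩)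
  exact hF.van.pb (hSc.uniformContinuousOn_of_continuous hc) h0

end pseudo

section metric

variable [MetricSpace X]

/-- a class vanishes on a disjoint union if it vanishes on both parts -/
lemma cob_disjoint {S1 S2 S' : Set X} (h1 : IsCompact S1) (h2 : IsCompact S2)
    (h' : IsCompact S') (hS' : S' ⊆ S1 ∪ S2) (hd : Disjoint S1 S2) {n : ℕ} {F : Coch X n}
    (hF : Coc (S1 ∪ S2) S' F) (hF1 : Cob S1 (S1 ∩ S') F) (hF2 : Cob S2 (S2 ∩ S') F) :
    Cob (S1 ∪ S2) S' F := by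
  cases n with
  | zero => rw [hF.eq_zero]; exact Cob.zero _ _
  | succ m =>
    refine mv_inj h1 h2 h' hS' hF hF1 hF2 ?_
    rw [disjoint_iff_inter_eq_empty.1 hd]
    intro v hv
    refine ⟨0, Coc.zero _ _, ?_⟩
    rw [zero_add]
    exact HZ.empty _ _ _ hv

/-- cut off of a cochain to the tuples of points of `A` -/
noncomputable def cut (A : Set X) {n : ℕ} (f : Coch X n) : Coch X n := by
  classical
  exact fun x => if ∀ i, x i ∈ A then f x else 0

omit [MetricSpace X] in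
lemma cut_apply_of_mem {A : Set X} {n : ℕ} (f : Coch X n) {x : Fin n → X} (h : ∀ i, x i ∈ A) :
    cut A f x = f x := by
  simp [cut, h]

omit [MetricSpace X] in
lemma cut_apply_of_not {A : Set X} {n : ℕ} (f : Coch X n) {x : Fin n → X}
    (h : ¬ ∀ i, x i ∈ A) : cut A f x = 0 := by
  simp only [cut, if_neg h]

/-- extension by zero over a disjoint set: `S1`, `S2` disjoint, `f` a cocycle on `S1` -/
lemma coc_cut {S1 S2 S' : Set X} (h1 : IsCompact S1) (h2 : IsCompact S2)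
    (hd : Disjoint S1 S2) (hS' : S' ⊆ S1 ∪ S2) {n : ℕ} {f : Coch X (n + 1)}
    (hf : Coc S1 (S1 ∩ S') f) :
    Coc (S1 ∪ S2) S' (cut S1 f) := by
  obtain ⟨δ, hδ, hdis⟩ := hd.exists_thickenings h1 h2.isClosed
  have hsep : ∀ {m : ℕ} (x : Fin (m + 1) → X), Sm (S1 ∪ S2) δ x →
      (∀ i, x i ∈ S1) ∨ (∀ i, x i ∈ S2) := by
    intro m x hx
    rcases hx.1 0 with h0 | h0
    · left
      intro i
      refine (hx.1 i).resolve_right (fun hi => ?_)
      have a1 : x i ∈ Metric.thickening δ S1 :=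
        Metric.mem_thickening_iff.2 ⟨x 0, h0, hx.2 i 0⟩
      exact Set.disjoint_left.1 hdis a1 (Metric.self_subset_thickening hδ _ hi)
    · right
      intro i
      refine (hx.1 i).resolve_left (fun hi => ?_)
      have a1 : x i ∈ Metric.thickening δ S2 :=
        Metric.mem_thickening_iff.2 ⟨x 0, h0, hx.2 i 0⟩
      exact Set.disjoint_left.1 hdis (Metric.self_subset_thickening hδ _ hi) a1
  obtain ⟨ε1, hε1, hv⟩ := hf.van
  obtain ⟨ε2, hε2, hc⟩ := hf.cl
  constructor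
  · refine ⟨min δ ε1, lt_min hδ hε1, fun x hx => ?_⟩
    rcases hsep x (hx.mono hS' (min_le_left _ _)) with h | h
    · rw [cut_apply_of_mem f h]
      exact hv x ⟨fun i => ⟨h i, hx.1 i⟩, fun i j => (hx.2 i j).trans_le (min_le_right _ _)⟩
    · rw [cut_apply_of_not]
      intro h'
      exact Set.disjoint_left.1 hd (h' 0) (h 0)
  · refine ⟨min δ ε2, lt_min hδ hε2, fun x hx => ?_⟩
    rcases hsep x (hx.mono subset_rfl (min_le_left _ _)) with h | h
    · have : dl (cut S1 f) x = dl f x := by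
        apply dl_congr
        intro z hz
        exact cut_apply_of_mem f (fun i => by obtain ⟨j, hj⟩ := hz i; rw [hj]; exact h j)
      rw [this]
      exact hc x ⟨h, fun i j => (hx.2 i j).trans_le (min_le_right _ _)⟩
    · apply dl_eq_zero
      intro z hz
      apply cut_apply_of_not
      intro h'
      obtain ⟨j, hj⟩ := hz 0
      exact Set.disjoint_left.1 hd (h' 0) (by rw [hj]; exact h j)

end metric

end ASC
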