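import Pool.Agent.Lib.MP_f7aa1b_gt.ASC.Basic

/-!
# The local class `GG F` does not change under linear isomorphisms of `ℝ^m`
-/

set_option autoImplicit false

namespace ASC

open Set

variable {X : Type*}

lemma ind_pos {P : Prop} (h : P) : ind P = 1 := by simp [ind, h]

lemma ind_neg {P : Prop} (h : ¬ P) : ind P = 0 := by simp [ind, h]

lemma GG_succ {m : ℕ} (F : X → Fin (m + 1) → ℝ) :
    GG (m + 1) F = lam (fun y => F y 0) (GG m (fun y => Fin.tail (F y))) := rfl

/-- multiply the coordinate `i` by `c` -/
def scl {m : ℕ} (i : Fin m) (c : ℝ) (v : Fin m → ℝ) : Fin m → ℝ := Function.update v i (c * v i)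

/-- indicator of `{f = 0}` at the first point -/
noncomputable def eqz (f : X → ℝ) {n : ℕ} (U : Coch X (n + 1)) : Coch X (n + 1) :=
  fun x => ind (f (x 0) = 0) * U x

lemma dl_eqz (f : X → ℝ) {n : ℕ} (U : Coch X (n + 1)) :
    dl (eqz f U) = lam f U + lam (fun x => - f x) U + eqz f (dl U) := by
  have h : eqz f U = chi f U + chi (fun x => - f x) U + U := by
    funext x
    simp only [eqz, chi, Pi.add_apply]
    have h2 : (1 : ZMod 2) + 1 = 0 := by decide
    rcases lt_trichotomy (f (x 0)) 0 with h | h | h
    · rw [ind_neg h.ne, ind_neg (not_le.2 h), ind_pos (show 0 ≤ - f (x 0) by linarith)]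
      linear_combination (- U x) * h2
    · rw [ind_pos h, ind_pos h.ge, ind_pos (show 0 ≤ - f (x 0) by linarith)]
      linear_combination (- U x) * h2
    · rw [ind_neg h.ne', ind_pos h.le, ind_neg (show ¬ 0 ≤ - f (x 0) by linarith)]
      linear_combination (- U x) * h2
  have h' : eqz f (dl U) = chi f (dl U) + chi (fun x => - f x) (dl U) + dl U := by
    funext x
    simp only [eqz, chi, Pi.add_apply]
    have h2 : (1 : ZMod 2) + 1 = 0 := by decide
    rcases lt_trichotomy (f (x 0)) 0 with h | h | h
    · rw [ind_neg h.ne, ind_neg (not_le.2 h), ind_pos (show 0 ≤ - f (x 0) by linarith)]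
      linear_combination (- dl U x) * h2
    · rw [ind_pos h, ind_pos h.ge, ind_pos (show 0 ≤ - f (x 0) by linarith)]
      linear_combination (- dl U x) * h2
    · rw [ind_neg h.ne', ind_pos h.le, ind_neg (show ¬ 0 ≤ - f (x 0) by linarith)]
      linear_combination (- dl U x) * h2
  rw [h, h', dl_add, dl_add, dl_chi, dl_chi]
  abel

/-- all points of the tuple have the same strict sign in the coordinate `j` -/
def SameSign {m n : ℕ} (F : X → Fin m → ℝ) (x : Fin n → X) (j : Fin m) : Prop :=
  (∀ k, 0 < F (x k) j) ∨ (∀ k, F (x k) j < 0)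

lemma GG_sameSign {m : ℕ} {F : X → Fin m → ℝ} {x : Fin (m + 1) → X} {j : Fin m}
    (h : SameSign F x j) : GG m F x = 0 := by
  apply GG_eq_zero F x j
  intro i i' hi
  rcases h with h | h
  · exact (h i').le
  · exact absurd hi (not_le.2 (h i))

/-- changing the sign of one coordinate -/
lemma GG_flip : ∀ {m : ℕ} (F : X → Fin m → ℝ) (i : Fin m), ∃ g : Coch X m,
    GG m F + GG m (fun x => scl i (-1) (F x)) = dl g ∧
      ∀ x : Fin m → X, (∃ j, SameSign F x j) → g x = 0 := by
  intro m
  induction m with
  | zero => intro F i; exact i.elim0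
  | succ m ih =>
    intro F i
    refine Fin.cases ?_ (fun i => ?_) i
    · refine ⟨eqz (fun x => F x 0) (GG m (fun y => Fin.tail (F y))), ?_, ?_⟩
      · rw [dl_eqz, dl_GG]
        have e1 : eqz (fun x => F x 0) (0 : Coch X (m + 2)) = 0 := by
          funext x; simp [eqz]
        rw [e1, add_zero, GG_succ F, GG_succ (fun x => scl 0 (-1) (F x))]
        have e2 : (fun y => scl (0 : Fin (m + 1)) (-1) (F y) 0) = fun x => - F x 0 := by
          funext y; simp [scl]
        have e3 : (fun y => Fin.tail (scl (0 : Fin (m + 1)) (-1) (F y))) =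
            fun y => Fin.tail (F y) := by
          funext y j
          simp [scl, Fin.tail]
        rw [e2, e3]
      · rintro x ⟨j, hj⟩
        rw [eqz]
        revert hj
        refine Fin.cases (fun hj => ?_) (fun j hj => ?_) j
        · have : F (x 0) 0 ≠ 0 := by
            rcases hj with h | h
            · exact (h 0).ne'
            · exact (h 0).ne
          simp only [ind, if_neg this, zero_mul]
        · rw [GG_sameSign (F := fun y => Fin.tail (F y)) (j := j) hj, mul_zero]
    · cases m with
      | zero => exact i.elim0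
      | succ m =>
        obtain ⟨g, hg, hg0⟩ := ih (fun y => Fin.tail (F y)) i
        refine ⟨lam (fun x => F x 0) g, ?_, ?_⟩
        · rw [dl_lam, ← hg, lam_add, GG_succ F, GG_succ (fun x => scl i.succ (-1) (F x))]
          have e2 : (fun y => scl i.succ (-1) (F y) 0) = fun x => F x 0 := by
            funext y
            have : (0 : Fin (m + 2)) ≠ i.succ := (Fin.succ_ne_zero i).symm
            simp [scl, this]
          have e3 : (fun y => Fin.tail (scl i.succ (-1) (F y))) =
              fun y => scl i (-1) (Fin.tail (F y)) := by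
            funext y j
            simp only [scl, Fin.tail, Function.update_apply, Fin.succ_inj]
          rw [e2, e3]
        · rintro x ⟨j, hj⟩
          rw [lam]
          revert hj
          refine Fin.cases (fun hj => ?_) (fun j hj => ?_) j
          · have : (0 ≤ F (x 0) 0) = (0 ≤ F (x 1) 0) := by
              apply propext
              rcases hj with h | h
              · exact ⟨fun _ => (h 1).le, fun _ => (h 0).le⟩
              · exact ⟨fun h' => absurd h' (not_le.2 (h 0)), fun h' => absurd h' (not_le.2 (h 1))⟩
            simp only [this, z2, zero_mul]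
          · rw [hg0 (Fin.tail x), mul_zero]
            refine ⟨j, ?_⟩
            rcases hj with h | h
            · exact Or.inl (fun k => h k.succ)
            · exact Or.inr (fun k => h k.succ)

variable [PseudoMetricSpace X]

/-- near a compact set without zeros of `F` small tuples have a coordinate of constant sign -/
lemma sameSign_small {S : Set X} (hS : IsCompact S) {m : ℕ} {F : X → Fin m → ℝ}
    (hF : ContinuousOn F S) (h : ∀ x ∈ S, F x ≠ 0) :
    ∃ ε > 0, ∀ {n : ℕ} (x : Fin (n + 1) → X), Sm S ε x → ∃ j, SameSign F x j := by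
  rcases S.eq_empty_or_nonempty with rfl | hne
  · exact ⟨1, one_pos, fun x hx => (hx.1 0).elim⟩
  obtain ⟨x0, hx0, hmin⟩ := hS.exists_isMinOn hne hF.norm
  have hpos : 0 < ‖F x0‖ := norm_pos_iff.2 (h x0 hx0)
  set c := ‖F x0‖ / 2 with hc
  have hcpos : 0 < c := half_pos hpos
  obtain ⟨δ, hδ, hd⟩ := Metric.uniformContinuousOn_iff.1 (hS.uniformContinuousOn_of_continuous hF)
    c hcpos
  refine ⟨δ, hδ, fun x hx => ?_⟩
  obtain ⟨j, hj⟩ : ∃ j, c ≤ |F (x 0) j| := by
    by_contra hcon
    push Not at hcon
    have h1 : ‖F (x 0)‖ ≤ c := by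
      rw [pi_norm_le_iff_of_nonneg hcpos.le]
      intro j; exact (hcon j).le
    have h2 : ‖F x0‖ ≤ ‖F (x 0)‖ := hmin (hx.1 0)
    linarith
  have hclose : ∀ i, |F (x i) j - F (x 0) j| < c := by
    intro i
    have := hd _ (hx.1 i) _ (hx.1 0) (hx.2 i 0)
    rw [← Real.dist_eq]
    exact (dist_le_pi_dist (F (x i)) (F (x 0)) j).trans_lt this
  refine ⟨j, ?_⟩
  rcases le_abs.1 hj with h2 | h2
  · left; intro k; have := abs_lt.1 (hclose k); linarith
  · right; intro k; have := abs_lt.1 (hclose k); linarith

/-- `A ∘ F` and `F` have the same local class -/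
def LinInv (X : Type*) [PseudoMetricSpace X] {m : ℕ} (A : (Fin m → ℝ) → (Fin m → ℝ)) : Prop :=
  ∀ (S S' : Set X), S' ⊆ S → IsCompact S → IsCompact S' →
    ∀ F : X → Fin m → ℝ, ContinuousOn F S → (∀ x ∈ S', F x ≠ 0) →
      Cob S S' (GG m F + GG m (fun x => A (F x)))

omit [PseudoMetricSpace X] in
lemma scl_apply {m : ℕ} (i : Fin m) (c : ℝ) (v : Fin m → ℝ) (j : Fin m) :
    scl i c v j = if j = i then c * v j else v j := by
  unfold scl
  by_cases h : j = i
  · subst h; simp
  · simp [h]

lemma continuous_scl {m : ℕ} (i : Fin m) (c : ℝ) : Continuous (scl i c) := by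
  refine continuous_pi (fun j => ?_)
  simp only [scl_apply]
  by_cases h : j = i
  · simp only [h, if_true]; fun_prop
  · simp only [h, if_false]; fun_prop

lemma scl_ne_zero {m : ℕ} (i : Fin m) {c : ℝ} (hc : c ≠ 0) {v : Fin m → ℝ} (hv : v ≠ 0) :
    scl i c v ≠ 0 := by
  obtain ⟨j, hj⟩ := Function.ne_iff.1 hv
  refine Function.ne_iff.2 ⟨j, ?_⟩
  rw [scl_apply]
  split_ifs with h
  · exact mul_ne_zero hc hj
  · exact hj

lemma linInv_flip {m : ℕ} (i : Fin m) : LinInv X (scl i (-1)) := by
  intro S S' hS hSc hSc' F hF h
  obtain ⟨g, hg, hg0⟩ := GG_flip F i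
  rw [hg]
  cases m with
  | zero => exact i.elim0
  | succ m =>
    obtain ⟨ε, hε, hs⟩ := sameSign_small hSc' (hF.mono hS) h
    refine ⟨g, ⟨ε, hε, fun x hx => hg0 x (hs x hx)⟩, ?_⟩
    rw [add_self_coch]; exact Van.zero _

/-- linear homotopies -/
lemma linInv_of_homotopy {m : ℕ} (A : ℝ → (Fin m → ℝ) → (Fin m → ℝ))
    (hA : Continuous (fun p : ℝ × (Fin m → ℝ) => A p.1 p.2)) (h0 : ∀ v, A 0 v = v)
    (hne : ∀ t ∈ Set.Icc (0 : ℝ) 1, ∀ v, v ≠ 0 → A t v ≠ 0) : LinInv X (A 1) := by
  intro S S' hS hSc hSc' F hF h
  have := GG_homotopy hS hSc hSc' (fun p : ℝ × X => A p.1 (F p.2))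
    (hA.comp_continuousOn (continuousOn_fst.prodMk (hF.comp continuousOn_snd (fun p hp => hp.2))))
    (fun t ht y hy => hne t ht _ (h y hy))
  simpa only [h0] using this

lemma linInv_comp {m : ℕ} {A B : (Fin m → ℝ) → (Fin m → ℝ)} (hA : LinInv X A) (hB : LinInv X B)
    (hBc : Continuous B) (hB0 : ∀ v, v ≠ 0 → B v ≠ 0) : LinInv X (fun v => A (B v)) := by
  intro S S' hS hSc hSc' F hF h
  have h1 := hB S S' hS hSc hSc' F hF h
  have h2 := hA S S' hS hSc hSc' (fun x => B (F x)) (hBc.comp_continuousOn hF)
    (fun x hx => hB0 _ (h x hx))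
  exact h1.trans h2

lemma linInv_scl {m : ℕ} (i : Fin m) {c : ℝ} (hc : c ≠ 0) : LinInv X (scl i c) := by
  have hpos : ∀ c : ℝ, 0 < c → LinInv X (scl i c) := by
    intro c hc
    have := linInv_of_homotopy (X := X) (fun t v => scl i (1 - t + t * c) v) ?_ ?_ ?_
    · simpa using this
    · refine continuous_pi (fun j => ?_)
      simp only [scl_apply]
      by_cases h : j = i
      · simp only [h, if_true]; fun_prop
      · simp only [h, if_false]; fun_prop
    · intro v
      funext j
      simp [scl_apply]
    · intro t ht v hv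
      refine scl_ne_zero i (ne_of_gt ?_) hv
      rcases eq_or_lt_of_le ht.1 with h | h
      · rw [← h]; simp
      · have := mul_pos h hc
        linarith [ht.2]
  rcases lt_or_gt_of_ne hc with h | h
  · have h1 := linInv_comp (hpos (-c) (by linarith)) (linInv_flip (X := X) i) (continuous_scl i _)
      (fun v hv => scl_ne_zero i (by norm_num) hv)
    have e : (fun v : Fin m → ℝ => scl i (-c) (scl i (-1) v)) = scl i c := by
      funext v j
      simp only [scl_apply]
      split_ifs with h
      · ring
      · rfl
    rwa [e] at h1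
  · exact hpos c h

open Matrix in
/-- **The local class is invariant under linear isomorphisms.** -/
theorem GG_linear {m : ℕ} (A : Matrix (Fin m) (Fin m) ℝ) (hA : A.det ≠ 0) :
    LinInv X (fun v => A.mulVec v) := by
  have key : A.det ≠ 0 ∧ LinInv X (fun v => A.mulVec v) := by
    refine Matrix.diagonal_transvection_induction_of_det_ne_zero
      (fun A => A.det ≠ 0 ∧ LinInv X (fun v => A.mulVec v)) A hA ?_ ?_ ?_
    · intro D hD
      refine ⟨hD, ?_⟩
      have hD' : ∀ i, D i ≠ 0 := by
        rw [det_diagonal] at hD
        exact fun i => (Finset.prod_ne_zero_iff.1 hD) i (Finset.mem_univ i)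
      have hs : ∀ s : Finset (Fin m), LinInv X (fun v j => (if j ∈ s then D j else 1) * v j) := by
        intro s
        induction s using Finset.induction_on with
        | empty =>
          intro S S' _ _ _ F _ _
          simp only [Finset.notMem_empty, if_false, one_mul]
          rw [add_self_coch]; exact Cob.zero _ _
        | insert i s hi ih =>
          have h1 := linInv_comp (linInv_scl (X := X) i (hD' i)) ih ?_ ?_
          · have e : (fun v : Fin m → ℝ => scl i (D i) (fun j => (if j ∈ s then D j else 1) * v j)) =
                fun v j => (if j ∈ insert i s then D j else 1) * v j := by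
              funext v j
              rw [scl_apply]
              by_cases h : j = i
              · subst h
                simp [hi]
              · simp [h]
            rwa [e] at h1
          · fun_prop
          · intro v hv
            obtain ⟨j, hj⟩ := Function.ne_iff.1 hv
            refine Function.ne_iff.2 ⟨j, ?_⟩
            refine mul_ne_zero ?_ hj
            split_ifs
            · exact hD' j
            · exact one_ne_zero
      have e : (fun v : Fin m → ℝ => (diagonal D).mulVec v) =
          fun v j => (if j ∈ (Finset.univ : Finset (Fin m)) then D j else 1) * v j := by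
        funext v j
        simp [mulVec_diagonal]
      rw [e]; exact hs _
    · intro t
      refine ⟨by simp, ?_⟩
      obtain ⟨i, j, hij, c⟩ := t
      have hT : ∀ (c : ℝ) (v : Fin m → ℝ), (transvection i j c).mulVec v =
          fun k => v k + (if k = i then c * v j else 0) := by
        intro c v
        funext k
        rw [transvection, add_mulVec, one_mulVec, Pi.add_apply]
        congr 1
        by_cases h : k = i
        · subst h
          simp [mulVec, dotProduct, Matrix.single, Finset.sum_ite_eq]
        · simp [mulVec, dotProduct, Matrix.single, h, Ne.symm h]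
      have := linInv_of_homotopy (X := X) (fun t v => (transvection i j (t * c)).mulVec v) ?_ ?_ ?_
      · simpa [TransvectionStruct.toMatrix] using this
      · simp only [hT]
        refine continuous_pi (fun k => ?_)
        by_cases h : k = i
        · simp only [h, if_true]; fun_prop
        · simp only [h, if_false]; fun_prop
      · intro v
        rw [hT]; funext k; simp
      · intro t _ v hv hcon
        apply hv
        have h1 : ∀ k, v k + (if k = i then t * c * v j else 0) = 0 := by
          intro k
          have := congrFun hcon k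
          rwa [hT] at this
        have h2 : v j = 0 := by
          have := h1 j
          rwa [if_neg (Ne.symm hij), add_zero] at this
        funext k
        have := h1 k
        rw [h2, mul_zero, ite_self, add_zero] at this
        exact this
    · rintro A B hA hB ⟨-, hA'⟩ ⟨-, hB'⟩
      refine ⟨by rw [det_mul]; exact mul_ne_zero hA hB, ?_⟩
      have := linInv_comp hA' hB' (by fun_prop) (fun v hv hcon => ?_)
      · simpa only [mulVec_mulVec] using this
      · apply hv
        have h1 := congrArg (fun w => B⁻¹.mulVec w) hcon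
        simpa [mulVec_mulVec, Matrix.nonsing_inv_mul _ (isUnit_iff_ne_zero.2 hB)] using h1
  exact key.2

end ASC
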