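import Pool.Agent.Lib.MP_f7aa1b_gt.ASC.Box

/-!
# Families over a closed connected manifold: gluing of the top class
-/

set_option autoImplicit false

namespace ASC

open Set

section

variable {X : Type*} [MetricSpace X]

lemma HG.congr {S S' : Set X} {n : ℕ} {g g' : Coch X n} (h : HG S S' g) (hg' : Coc S S' g')
    (hc : Cob S S' (g + g')) : HG S S' g' := by
  refine ⟨hg', fun h1 => h.ne (hc.congr' h1), fun f hf => ?_⟩
  rcases h.gen f hf with h1 | h1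
  · exact Or.inl h1
  · exact Or.inr (h1.trans hc)

/-- Mayer–Vietoris for classes with support in open sets: surjectivity. -/
lemma mv_surjL {T A1 A2 : Set X} (h1 : IsCompact A1) (h2 : IsCompact A2) {n : ℕ} {F : Coch X n}
    (hz : HZ (n + 1) T (A1 ∪ A2)) (hF : Coc T (A1 ∩ A2) F) (hA1 : A1 ⊆ T) :
    ∃ F1 F2, Coc T A1 F1 ∧ Coc T A2 F2 ∧ Cob T (A1 ∩ A2) (F + (F1 + F2)) := by
  obtain ⟨G1, hG1, hGF⟩ := excision_surj h1 h2 h1.isClosed h2.isClosed (hF.mono hA1 subset_rfl)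
  obtain ⟨F2, hF2, hF2G⟩ := les2 subset_union_right hG1 (hz _ hG1.dl)
  have hF2' : Coc T (A1 ∩ A2) F2 := hF2.mono subset_rfl inter_subset_right
  have h3 : Cob A1 (A1 ∩ A2) (F + F2) := by
    have h4 := (hF2G.mono (subset_union_left (s := A1) (t := A2))
      (inter_subset_right (s := A1) (t := A2))).add hGF
    have e : F2 + G1 + (G1 + F) = F + F2 := by
      have e : F2 + G1 + (G1 + F) = (G1 + G1) + (F + F2) := by abel
      rw [e, add_self_coch, zero_add]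
    rwa [e] at h4
  obtain ⟨F1, hF1, h5⟩ := les1 (hF.add hF2') h3
  refine ⟨F1, F2, hF1, hF2, ?_⟩
  have e : F + (F1 + F2) = F + F2 + F1 := by abel
  rw [e]; exact h5

/-- Mayer–Vietoris for classes with support in open sets: exactness in the middle. -/
lemma mv_midL {T A1 A2 : Set X} (h1 : IsCompact A1) (h2 : IsCompact A2) (hA1 : A1 ⊆ T)
    (hA2 : A2 ⊆ T) {n : ℕ} {F1 F2 : Coch X (n + 1)} (hF1 : Coc T A1 F1) (hF2 : Coc T A2 F2)
    (h : Cob T (A1 ∩ A2) (F1 + F2)) :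
    ∃ G, Coc T (A1 ∪ A2) G ∧ Cob T A1 (F1 + G) ∧ Cob T A2 (F2 + G) := by
  have h3 : Cob A2 (A2 ∩ A1) F1 := by
    have h4 : Cob A2 (A2 ∩ A1) (F1 + F2) := h.mono hA2 (by rw [inter_comm])
    exact h4.congr' (Cob.of_van hF2.van)
  have h5 : Cob (A2 ∪ A1) A1 F1 := excision_inj h2 h1 h2.isClosed h1.isClosed
    (hF1.mono (union_subset hA2 hA1) subset_rfl) h3
  rw [union_comm] at h5
  obtain ⟨G0, hG0, hFG⟩ := les1 hF1 h5
  have h6 : Cob T (A1 ∩ A2) (F2 + G0) := by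
    have h7 := h.add (hFG.mono subset_rfl (inter_subset_left (s := A1) (t := A2)))
    have e : F1 + F2 + (F1 + G0) = F2 + G0 := by
      have e : F1 + F2 + (F1 + G0) = (F1 + F1) + (F2 + G0) := by abel
      rw [e, add_self_coch, zero_add]
    rwa [e] at h7
  obtain ⟨f, hf, h7⟩ := les3 hA2 (hF2.add (hG0.mono subset_rfl subset_union_right)) h6
  obtain ⟨f', hf', hff⟩ := excision_surj (A := A2) (B := A1) h2 h1 h2.isClosed h1.isClosed
    (f := f) (by rw [inter_comm]; exact hf)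
  have hdf' : Coc T (A1 ∪ A2) (dl f') := by rw [union_comm]; exact hf'.dl
  refine ⟨G0 + dl f', hG0.add hdf', ?_, ?_⟩
  · rw [← add_assoc]
    exact hFG.add (Cob.dl'' (hf'.mono subset_rfl subset_rfl))
  · have h8 : Cob T A2 (dl (f' + f)) := hff.dl
    have e : F2 + (G0 + dl f') = (F2 + G0 + dl f) + dl (f' + f) := by
      rw [dl_add]
      have e : (F2 + G0 + dl f) + (dl f' + dl f) = (dl f + dl f) + (F2 + (G0 + dl f')) := by abel
      rw [e, add_self_coch, zero_add]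
    rw [e]; exact h7.add h8

end

section

variable {X Q : Type*} [MetricSpace X] [MetricSpace Q]

/-- the part of `T` over `A` -/
def TA (T : Set X) (ρ : X → Q) (A : Set Q) : Set X := T ∩ ρ ⁻¹' A

omit [MetricSpace X] [MetricSpace Q] in
lemma TA_sub (T : Set X) (ρ : X → Q) (A : Set Q) : TA T ρ A ⊆ T := inter_subset_left

omit [MetricSpace X] [MetricSpace Q] in
lemma TA_mono (T : Set X) (ρ : X → Q) {A B : Set Q} (h : A ⊆ B) : TA T ρ A ⊆ TA T ρ B :=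
  inter_subset_inter_right _ (preimage_mono h)

omit [MetricSpace X] [MetricSpace Q] in
lemma TA_union (T : Set X) (ρ : X → Q) (A B : Set Q) : TA T ρ (A ∪ B) = TA T ρ A ∪ TA T ρ B := by
  rw [TA, preimage_union, inter_union_distrib_left]; rfl

omit [MetricSpace X] [MetricSpace Q] in
lemma TA_inter (T : Set X) (ρ : X → Q) (A B : Set Q) : TA T ρ (A ∩ B) = TA T ρ A ∩ TA T ρ B := by
  ext x
  simp only [TA, mem_inter_iff, mem_preimage]
  tauto

omit [MetricSpace X] [MetricSpace Q] in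
lemma TA_univ (T : Set X) (ρ : X → Q) : TA T ρ univ = T := by rw [TA, preimage_univ, inter_univ]

omit [MetricSpace X] [MetricSpace Q] in
lemma TA_empty (T : Set X) (ρ : X → Q) : TA T ρ ∅ = ∅ := by rw [TA, preimage_empty, inter_empty]

lemma TA_compact {T : Set X} {ρ : X → Q} (hT : IsCompact T) (hρ : ContinuousOn ρ T) {A : Set Q}
    (hA : IsClosed A) : IsCompact (TA T ρ A) := isCompact_inter_pre hT hρ hA

/-- the union of a list of sets -/
def UL (L : List (Set Q)) : Set Q := {q | ∃ V ∈ L, q ∈ V}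

omit [MetricSpace Q] in
lemma UL_nil : UL ([] : List (Set Q)) = ∅ := by
  ext q; simp [UL]

omit [MetricSpace Q] in
lemma UL_cons (V : Set Q) (L : List (Set Q)) : UL (V :: L) = V ∪ UL L := by
  ext q; simp [UL]

omit [MetricSpace Q] in
lemma sub_UL {V : Set Q} {L : List (Set Q)} (h : V ∈ L) : V ⊆ UL L := fun _ hq => ⟨V, h, hq⟩

lemma isOpen_UL {L : List (Set Q)} (h : ∀ V ∈ L, IsOpen V) : IsOpen (UL L) := by
  induction L with
  | nil => rw [UL_nil]; exact isOpen_empty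
  | cons V L ih =>
    rw [UL_cons]
    exact (h V (by simp)).union (ih (fun V hV => h V (by simp [hV])))

/-- the data for the gluing -/
structure GlueData (T : Set X) (ρ : X → Q) (M : ℕ) where
  compact : IsCompact T
  cont : ContinuousOn ρ T
  dim : ∀ A : Set Q, IsClosed A → HZ (M + 2) T (TA T ρ A)
  B : Set (Set Q)
  isOpen : ∀ V ∈ B, IsOpen V
  nonempty : ∀ V ∈ B, V.Nonempty
  basis : ∀ (q : Q) (W : Set Q), IsOpen W → q ∈ W → ∃ V ∈ B, q ∈ V ∧ V ⊆ W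
  Z : Set Q → Coch X (M + 1)
  gen : ∀ V ∈ B, HG T (TA T ρ Vᶜ) (Z V)
  nest : ∀ V ∈ B, ∀ V' ∈ B, V ⊆ V' → ¬ Cob T (TA T ρ V'ᶜ) (Z V)

namespace GlueData

variable {T : Set X} {ρ : X → Q} {M : ℕ} (𝒢 : GlueData T ρ M)

/-- the sum of the local classes of a list of sets -/
def sm (L : List (Set Q)) : Coch X (M + 1) := (L.map 𝒢.Z).sum

lemma sm_nil : 𝒢.sm [] = 0 := rfl

lemma sm_cons (V : Set Q) (L : List (Set Q)) : 𝒢.sm (V :: L) = 𝒢.Z V + 𝒢.sm L := by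
  simp [sm]

lemma sm_append (L L' : List (Set Q)) : 𝒢.sm (L ++ L') = 𝒢.sm L + 𝒢.sm L' := by
  simp [sm]

include 𝒢 in
lemma comp {A : Set Q} (hA : IsClosed A) : IsCompact (TA T ρ A) :=
  TA_compact 𝒢.compact 𝒢.cont hA

/-- a smaller set has the same class -/
lemma same {V V' : Set Q} (hV : V ∈ 𝒢.B) (hV' : V' ∈ 𝒢.B) (h : V ⊆ V') :
    Cob T (TA T ρ V'ᶜ) (𝒢.Z V + 𝒢.Z V') := by
  rcases (𝒢.gen V' hV').gen (𝒢.Z V) ((𝒢.gen V hV).coc.mono subset_rfl
    (TA_mono T ρ (compl_subset_compl.2 h))) with h1 | h1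
  · exact absurd h1 (𝒢.nest V hV V' hV' h)
  · exact h1

lemma coc_sm {W : Set Q} : ∀ {L : List (Set Q)}, (∀ V ∈ L, V ∈ 𝒢.B ∧ V ⊆ W) →
    Coc T (TA T ρ Wᶜ) (𝒢.sm L) := by
  intro L
  induction L with
  | nil => intro _; exact Coc.zero _ _
  | cons V L ih =>
    intro h
    rw [sm_cons]
    have hV := h V (by simp)
    exact ((𝒢.gen V hV.1).coc.mono subset_rfl (TA_mono T ρ (compl_subset_compl.2 hV.2))).add
      (ih (fun V hV => h V (by simp [hV])))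

/-- decomposition of a class with support in a finite union -/
lemma decomp_list : ∀ (L : List (Set Q)), (∀ V ∈ L, V ∈ 𝒢.B) → ∀ F : Coch X (M + 1),
    Coc T (TA T ρ (UL L)ᶜ) F → ∃ L' : List (Set Q), (∀ V ∈ L', V ∈ L) ∧
      Cob T (TA T ρ (UL L)ᶜ) (F + 𝒢.sm L') := by
  intro L
  induction L with
  | nil =>
    intro _ F hF
    rw [UL_nil, compl_empty, TA_univ] at hF ⊢
    exact ⟨[], by simp, Cob.of_van (by rw [sm_nil, add_zero]; exact hF.van)⟩
  | cons V L ih =>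
    intro hL F hF
    have hVB : V ∈ 𝒢.B := hL V (by simp)
    have hLB : ∀ V ∈ L, V ∈ 𝒢.B := fun V hV => hL V (by simp [hV])
    have hUo : IsOpen (UL L) := isOpen_UL (fun V hV => 𝒢.isOpen V (hLB V hV))
    have e : TA T ρ (UL (V :: L))ᶜ = TA T ρ (UL L)ᶜ ∩ TA T ρ Vᶜ := by
      rw [UL_cons, union_comm, compl_union, TA_inter]
    rw [e] at hF ⊢
    have hz : HZ (M + 1 + 1) T (TA T ρ (UL L)ᶜ ∪ TA T ρ Vᶜ) := by
      rw [← TA_union]
      exact 𝒢.dim _ (hUo.isClosed_compl.union (𝒢.isOpen V hVB).isClosed_compl)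
    obtain ⟨F1, F2, hF1, hF2, hFF⟩ := mv_surjL (𝒢.comp hUo.isClosed_compl)
      (𝒢.comp (𝒢.isOpen V hVB).isClosed_compl) hz hF (TA_sub _ _ _)
    obtain ⟨L1, hL1, h1⟩ := ih hLB F1 hF1
    have h1' := h1.mono (Subset.refl T) (inter_subset_left (s := TA T ρ (UL L)ᶜ)
      (t := TA T ρ Vᶜ))
    rcases (𝒢.gen V hVB).gen F2 hF2 with h2 | h2
    · refine ⟨L1, fun V hV => by simp [hL1 V hV], ?_⟩
      have h2' := h2.mono (Subset.refl T) (inter_subset_right (s := TA T ρ (UL L)ᶜ)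
        (t := TA T ρ Vᶜ))
      have e : F + 𝒢.sm L1 = (F + (F1 + F2)) + (F1 + 𝒢.sm L1) + F2 := by
        have e : (F + (F1 + F2)) + (F1 + 𝒢.sm L1) + F2 =
          (F1 + F1) + (F2 + F2) + (F + 𝒢.sm L1) := by abel
        rw [e]; simp only [add_self_coch, zero_add]
      rw [e]; exact (hFF.add h1').add h2'
    · refine ⟨V :: L1, ?_, ?_⟩
      · intro V' hV'
        rw [List.mem_cons] at hV' ⊢
        exact hV'.imp id (hL1 V')
      have h2' := h2.mono (Subset.refl T) (inter_subset_right (s := TA T ρ (UL L)ᶜ)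
        (t := TA T ρ Vᶜ))
      rw [sm_cons]
      have e : F + (𝒢.Z V + 𝒢.sm L1) = (F + (F1 + F2)) + (F1 + 𝒢.sm L1) + (F2 + 𝒢.Z V) := by
        have e : (F + (F1 + F2)) + (F1 + 𝒢.sm L1) + (F2 + 𝒢.Z V) =
          (F1 + F1) + (F2 + F2) + (F + (𝒢.Z V + 𝒢.sm L1)) := by abel
        rw [e]; simp only [add_self_coch, zero_add]
      rw [e]; exact (hFF.add h1').add h2'

/-- a compact subset of an open set is covered by finitely many sets of the basis -/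
lemma cover {K W : Set Q} (hK : IsCompact K) (hW : IsOpen W) (hKW : K ⊆ W) :
    ∃ L : List (Set Q), (∀ V ∈ L, V ∈ 𝒢.B ∧ V ⊆ W) ∧ K ⊆ UL L := by
  refine hK.induction_on (p := fun K => ∃ L : List (Set Q), (∀ V ∈ L, V ∈ 𝒢.B ∧ V ⊆ W) ∧
    K ⊆ UL L) ⟨[], by simp, empty_subset _⟩ ?_ ?_ ?_
  · rintro s t hst ⟨L, hL, ht⟩
    exact ⟨L, hL, hst.trans ht⟩
  · rintro s t ⟨L, hL, hs⟩ ⟨L', hL', ht⟩
    refine ⟨L ++ L', ?_, ?_⟩
    · intro V hV
      rw [List.mem_append] at hV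
      exact hV.elim (hL V) (hL' V)
    · refine union_subset ?_ ?_
      · intro q hq
        obtain ⟨V, hV, hqV⟩ := hs hq
        exact ⟨V, by simp [hV], hqV⟩
      · intro q hq
        obtain ⟨V, hV, hqV⟩ := ht hq
        exact ⟨V, by simp [hV], hqV⟩
  · intro q hq
    obtain ⟨V, hV, hqV, hVW⟩ := 𝒢.basis q W hW (hKW hq)
    refine ⟨V, mem_nhdsWithin_of_mem_nhds ((𝒢.isOpen V hV).mem_nhds hqV), [V], ?_, ?_⟩
    · intro V' hV'
      rw [List.mem_singleton] at hV'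
      rw [hV']; exact ⟨hV, hVW⟩
    · exact sub_UL (by simp)

/-- decomposition of a class with support in an open set -/
lemma decomp {W : Set Q} (hW : IsOpen W) {F : Coch X (M + 1)} (hF : Coc T (TA T ρ Wᶜ) F) :
    ∃ L : List (Set Q), (∀ V ∈ L, V ∈ 𝒢.B ∧ V ⊆ W) ∧ Cob T (TA T ρ Wᶜ) (F + 𝒢.sm L) := by
  have hC : IsCompact (TA T ρ Wᶜ) := 𝒢.comp hW.isClosed_compl
  obtain ⟨η, hη, g, hg, hFg⟩ := cob_thickening 𝒢.compact hC hC.isClosed (TA_sub _ _ _) hF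
    (Cob.of_van (hF.van.mono inter_subset_right))
  rw [inter_eq_self_of_subset_left (Metric.self_subset_thickening hη _)] at hg
  have hK : IsCompact (ρ '' (T \ Metric.thickening η (TA T ρ Wᶜ))) :=
    (𝒢.compact.diff Metric.isOpen_thickening).image_of_continuousOn
      (𝒢.cont.mono sdiff_subset)
  have hKW : ρ '' (T \ Metric.thickening η (TA T ρ Wᶜ)) ⊆ W := by
    rintro _ ⟨x, ⟨hxT, hx⟩, rfl⟩
    by_contra hcon
    exact hx (Metric.self_subset_thickening hη _ ⟨hxT, hcon⟩)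
  obtain ⟨L, hL, hKL⟩ := 𝒢.cover hK hW hKW
  have hUW : UL L ⊆ W := by
    rintro q ⟨V, hV, hq⟩
    exact (hL V hV).2 hq
  have hsub : TA T ρ (UL L)ᶜ ⊆ T ∩ Metric.thickening η (TA T ρ Wᶜ) := by
    rintro x ⟨hxT, hx⟩
    refine ⟨hxT, ?_⟩
    by_contra hcon
    exact hx (hKL ⟨x, ⟨hxT, hcon⟩, rfl⟩)
  obtain ⟨L', hL', h'⟩ := 𝒢.decomp_list L (fun V hV => (hL V hV).1) (F + dl g)
    ⟨hFg.mono hsub, by rw [dl_add, dl_dl, add_zero]; exact hF.cl⟩
  refine ⟨L', fun V hV => hL V (hL' V hV), ?_⟩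
  have h2 : Cob T (TA T ρ Wᶜ) (F + dl g + 𝒢.sm L') :=
    h'.mono subset_rfl (TA_mono T ρ (compl_subset_compl.2 hUW))
  have h3 : Cob T (TA T ρ Wᶜ) (dl g) := ⟨g, hg, by rw [add_self_coch]; exact Van.zero _⟩
  have e : F + 𝒢.sm L' = (F + dl g + 𝒢.sm L') + dl g := by
    have e : (F + dl g + 𝒢.sm L') + dl g = (dl g + dl g) + (F + 𝒢.sm L') := by abel
    rw [e, add_self_coch, zero_add]
  rw [e]; exact h2.add h3

/-- all classes of sets in `V` are the class of `V` -/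
lemma sm_eq {V : Set Q} (hV : V ∈ 𝒢.B) : ∀ {L : List (Set Q)}, (∀ V' ∈ L, V' ∈ 𝒢.B ∧ V' ⊆ V) →
    (Even L.length → Cob T (TA T ρ Vᶜ) (𝒢.sm L)) ∧
    (¬ Even L.length → Cob T (TA T ρ Vᶜ) (𝒢.sm L + 𝒢.Z V)) := by
  intro L
  induction L with
  | nil =>
    intro _
    exact ⟨fun _ => Cob.zero _ _, fun h => absurd (by simp) h⟩
  | cons V' L ih =>
    intro h
    have hV' := h V' (by simp)
    have h1 := 𝒢.same hV'.1 hV hV'.2
    obtain ⟨h2, h3⟩ := ih (fun V' hV' => h V' (by simp [hV']))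
    rw [sm_cons, List.length_cons]
    constructor
    · intro he
      have h4 := h3 (by rw [Nat.even_add_one] at he; exact he)
      have e : 𝒢.Z V' + 𝒢.sm L = (𝒢.Z V' + 𝒢.Z V) + (𝒢.sm L + 𝒢.Z V) := by
        have e : (𝒢.Z V' + 𝒢.Z V) + (𝒢.sm L + 𝒢.Z V) =
          (𝒢.Z V + 𝒢.Z V) + (𝒢.Z V' + 𝒢.sm L) := by abel
        rw [e, add_self_coch, zero_add]
      rw [e]; exact h1.add h4
    · intro he
      have h4 := h2 (by rw [Nat.even_add_one] at he; exact not_not.1 he)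
      have e : 𝒢.Z V' + 𝒢.sm L + 𝒢.Z V = (𝒢.Z V' + 𝒢.Z V) + 𝒢.sm L := by abel
      rw [e]; exact h1.add h4

lemma even_of_cob {V : Set Q} (hV : V ∈ 𝒢.B) {L : List (Set Q)}
    (hL : ∀ V' ∈ L, V' ∈ 𝒢.B ∧ V' ⊆ V) (h : Cob T (TA T ρ Vᶜ) (𝒢.sm L)) : Even L.length := by
  by_contra hcon
  exact (𝒢.gen V hV).ne (Cob.congr ((𝒢.sm_eq hV hL).2 hcon) h)

/-- shrinking the sets of a list -/
lemma split {V W : Set Q} (hV : IsOpen V) (hW : IsOpen W) : ∀ {L : List (Set Q)},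
    (∀ V' ∈ L, V' ∈ 𝒢.B ∧ V' ⊆ V ∪ W) → ∃ L1 L2 : List (Set Q),
      (∀ V' ∈ L1, V' ∈ 𝒢.B ∧ V' ⊆ W) ∧ (∀ V' ∈ L2, V' ∈ 𝒢.B ∧ V' ⊆ V) ∧
      L1.length + L2.length = L.length ∧
      Cob T (TA T ρ (V ∪ W)ᶜ) (𝒢.sm L + (𝒢.sm L1 + 𝒢.sm L2)) := by
  intro L
  induction L with
  | nil =>
    intro _
    refine ⟨[], [], by simp, by simp, by simp, ?_⟩
    simp only [sm_nil, add_zero]
    exact Cob.zero _ _
  | cons B L ih =>
    intro h
    obtain ⟨L1, L2, h1, h2, h3, h4⟩ := ih (fun V' hV' => h V' (by simp [hV']))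
    obtain ⟨hB, hBs⟩ := h B (by simp)
    obtain ⟨q, hq⟩ := 𝒢.nonempty B hB
    have hBo := 𝒢.isOpen B hB
    rcases hBs hq with hqV | hqW
    · obtain ⟨B', hB', hqB', hBB'⟩ := 𝒢.basis q (B ∩ V) (hBo.inter hV) ⟨hq, hqV⟩
      have h5 : Cob T (TA T ρ (V ∪ W)ᶜ) (𝒢.Z B' + 𝒢.Z B) :=
        (𝒢.same hB' hB (hBB'.trans inter_subset_left)).mono subset_rfl
          (TA_mono T ρ (compl_subset_compl.2 hBs))
      refine ⟨L1, B' :: L2, h1, ?_, by simp only [List.length_cons]; omega, ?_⟩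
      · intro V' hV'
        rw [List.mem_cons] at hV'
        rcases hV' with rfl | hV'
        · exact ⟨hB', hBB'.trans inter_subset_right⟩
        · exact h2 V' hV'
      · rw [sm_cons, sm_cons]
        have e : 𝒢.Z B + 𝒢.sm L + (𝒢.sm L1 + (𝒢.Z B' + 𝒢.sm L2)) =
          (𝒢.sm L + (𝒢.sm L1 + 𝒢.sm L2)) + (𝒢.Z B' + 𝒢.Z B) := by abel
        rw [e]; exact h4.add h5
    · obtain ⟨B', hB', hqB', hBB'⟩ := 𝒢.basis q (B ∩ W) (hBo.inter hW) ⟨hq, hqW⟩
      have h5 : Cob T (TA T ρ (V ∪ W)ᶜ) (𝒢.Z B' + 𝒢.Z B) :=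
        (𝒢.same hB' hB (hBB'.trans inter_subset_left)).mono subset_rfl
          (TA_mono T ρ (compl_subset_compl.2 hBs))
      refine ⟨B' :: L1, L2, ?_, h2, by simp only [List.length_cons]; omega, ?_⟩
      · intro V' hV'
        rw [List.mem_cons] at hV'
        rcases hV' with rfl | hV'
        · exact ⟨hB', hBB'.trans inter_subset_right⟩
        · exact h1 V' hV'
      · rw [sm_cons, sm_cons]
        have e : 𝒢.Z B + 𝒢.sm L + (𝒢.Z B' + 𝒢.sm L1 + 𝒢.sm L2) =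
          (𝒢.sm L + (𝒢.sm L1 + 𝒢.sm L2)) + (𝒢.Z B' + 𝒢.Z B) := by abel
        rw [e]; exact h4.add h5

/-- **Parity.** -/
lemma parity : ∀ (L0 : List (Set Q)), (∀ V ∈ L0, V ∈ 𝒢.B) → ∀ (L : List (Set Q)),
    (∀ V' ∈ L, V' ∈ 𝒢.B ∧ V' ⊆ UL L0) → Cob T (TA T ρ (UL L0)ᶜ) (𝒢.sm L) → Even L.length := by
  intro L0
  induction L0 with
  | nil =>
    intro _ L hL _
    cases L with
    | nil => simp
    | cons V L =>
      exfalso
      obtain ⟨hV, hVs⟩ := hL V (by simp)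
      obtain ⟨q, hq⟩ := 𝒢.nonempty V hV
      have := hVs hq
      rw [UL_nil] at this
      exact this
  | cons V L0 ih =>
    intro hL0 L hL h
    have hVB : V ∈ 𝒢.B := hL0 V (by simp)
    have hLB : ∀ V ∈ L0, V ∈ 𝒢.B := fun V hV => hL0 V (by simp [hV])
    have hUo : IsOpen (UL L0) := isOpen_UL (fun V hV => 𝒢.isOpen V (hLB V hV))
    have hVo : IsOpen V := 𝒢.isOpen V hVB
    rw [UL_cons] at hL h
    obtain ⟨L1, L2, h1, h2, h3, h4⟩ := 𝒢.split hVo hUo hL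
    have h5 : Cob T (TA T ρ (UL L0)ᶜ ∩ TA T ρ Vᶜ) (𝒢.sm L1 + 𝒢.sm L2) := by
      have e : TA T ρ (UL L0)ᶜ ∩ TA T ρ Vᶜ = TA T ρ (V ∪ UL L0)ᶜ := by
        rw [union_comm, compl_union, TA_inter]
      rw [e]
      exact Cob.congr h4 h
    obtain ⟨G, hG, hG1, hG2⟩ := mv_midL (𝒢.comp hUo.isClosed_compl) (𝒢.comp hVo.isClosed_compl)
      (TA_sub _ _ _) (TA_sub _ _ _) (𝒢.coc_sm h1) (𝒢.coc_sm h2) h5
    have eU : TA T ρ (UL L0)ᶜ ∪ TA T ρ Vᶜ = TA T ρ (UL L0 ∩ V)ᶜ := by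
      rw [compl_inter, TA_union]
    rw [eU] at hG
    obtain ⟨L3, hL3, hGL⟩ := 𝒢.decomp (hUo.inter hVo) hG
    have h6 : Even (L1 ++ L3).length := by
      apply ih hLB
      · intro V' hV'
        rw [List.mem_append] at hV'
        exact hV'.elim (h1 V') (fun h => ⟨(hL3 V' h).1, (hL3 V' h).2.trans inter_subset_left⟩)
      · rw [sm_append]
        exact hG1.trans (hGL.mono subset_rfl
          (TA_mono T ρ (compl_subset_compl.2 inter_subset_left)))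
    have h7 : Even (L2 ++ L3).length := by
      apply 𝒢.even_of_cob hVB
      · intro V' hV'
        rw [List.mem_append] at hV'
        exact hV'.elim (h2 V') (fun h => ⟨(hL3 V' h).1, (hL3 V' h).2.trans inter_subset_right⟩)
      · rw [sm_append]
        exact hG2.trans (hGL.mono subset_rfl
          (TA_mono T ρ (compl_subset_compl.2 inter_subset_right)))
    rw [List.length_append] at h6 h7
    rw [← h3]
    rw [Nat.even_iff] at h6 h7 ⊢
    omega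

/-- **Gluing**: over a closed connected manifold the top class is generated by any local class. -/
theorem glue [CompactSpace Q] [PreconnectedSpace Q] {V : Set Q} (hV : V ∈ 𝒢.B) :
    HG T ∅ (𝒢.Z V) := by
  obtain ⟨L0, hL0, hcov⟩ := 𝒢.cover (isCompact_univ (X := Q)) isOpen_univ subset_rfl
  have hU : UL L0 = univ := univ_subset_iff.1 hcov
  -- all classes are equal
  have hall : ∀ V ∈ 𝒢.B, ∀ V' ∈ 𝒢.B, Cob T ∅ (𝒢.Z V + 𝒢.Z V') := by
    intro V0 hV0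
    have hmeet : ∀ V ∈ 𝒢.B, ∀ V' ∈ 𝒢.B, (V ∩ V').Nonempty → Cob T ∅ (𝒢.Z V + 𝒢.Z V') := by
      rintro V hV V' hV' ⟨q, hq⟩
      obtain ⟨V'', hV'', _, hs⟩ := 𝒢.basis q (V ∩ V')
        ((𝒢.isOpen V hV).inter (𝒢.isOpen V' hV')) hq
      have h1 := (𝒢.same hV'' hV (hs.trans inter_subset_left)).mono (Subset.refl T)
        (empty_subset _)
      have h2 := (𝒢.same hV'' hV' (hs.trans inter_subset_right)).mono (Subset.refl T)
        (empty_subset _)
      rw [add_comm (𝒢.Z V'')] at h1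
      exact h1.trans h2
    have hself : ∀ V, Cob T ∅ (𝒢.Z V + 𝒢.Z V) := fun V => by
      rw [add_self_coch]; exact Cob.zero _ _
    let O : Set Q := {q | ∃ V ∈ 𝒢.B, q ∈ V ∧ Cob T ∅ (𝒢.Z V0 + 𝒢.Z V)}
    let O' : Set Q := {q | ∃ V ∈ 𝒢.B, q ∈ V ∧ ¬ Cob T ∅ (𝒢.Z V0 + 𝒢.Z V)}
    have hO : IsOpen O := by
      rw [isOpen_iff_mem_nhds]
      rintro q ⟨V, hV, hq, hc⟩
      exact Filter.mem_of_superset ((𝒢.isOpen V hV).mem_nhds hq) (fun q' hq' => ⟨V, hV, hq', hc⟩)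
    have hO' : IsOpen O' := by
      rw [isOpen_iff_mem_nhds]
      rintro q ⟨V, hV, hq, hc⟩
      exact Filter.mem_of_superset ((𝒢.isOpen V hV).mem_nhds hq) (fun q' hq' => ⟨V, hV, hq', hc⟩)
    have hcover : (univ : Set Q) ⊆ O ∪ O' := by
      intro q _
      obtain ⟨V, hV, hq, _⟩ := 𝒢.basis q univ isOpen_univ (mem_univ _)
      by_cases hc : Cob T ∅ (𝒢.Z V0 + 𝒢.Z V)
      · exact Or.inl ⟨V, hV, hq, hc⟩
      · exact Or.inr ⟨V, hV, hq, hc⟩
    intro V' hV'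
    obtain ⟨q0, hq0⟩ := 𝒢.nonempty V0 hV0
    obtain ⟨q', hq'⟩ := 𝒢.nonempty V' hV'
    by_contra hcon
    obtain ⟨q, _, ⟨V1, hV1, hq1, hc1⟩, ⟨V2, hV2, hq2, hc2⟩⟩ :=
      isPreconnected_univ O O' hO hO' hcover ⟨q0, mem_univ _, V0, hV0, hq0, hself V0⟩
        ⟨q', mem_univ _, V', hV', hq', hcon⟩
    exact hc2 (hc1.trans (hmeet V1 hV1 V2 hV2 ⟨q, hq1, hq2⟩))
  have hsumeq : ∀ L : List (Set Q), (∀ V' ∈ L, V' ∈ 𝒢.B) →
      Cob T ∅ (𝒢.sm L) ∨ Cob T ∅ (𝒢.sm L + 𝒢.Z V) := by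
    intro L
    induction L with
    | nil => intro _; left; exact Cob.zero _ _
    | cons V' L ih =>
      intro h
      have h1 := hall V' (h V' (by simp)) V hV
      rw [sm_cons]
      rcases ih (fun V' hV' => h V' (by simp [hV'])) with h2 | h2
      · right
        have e : 𝒢.Z V' + 𝒢.sm L + 𝒢.Z V = (𝒢.Z V' + 𝒢.Z V) + 𝒢.sm L := by abel
        rw [e]; exact h1.add h2
      · left
        have e : 𝒢.Z V' + 𝒢.sm L = (𝒢.Z V' + 𝒢.Z V) + (𝒢.sm L + 𝒢.Z V) := by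
          have e : (𝒢.Z V' + 𝒢.Z V) + (𝒢.sm L + 𝒢.Z V) =
            (𝒢.Z V + 𝒢.Z V) + (𝒢.Z V' + 𝒢.sm L) := by abel
          rw [e, add_self_coch, zero_add]
        rw [e]; exact h1.add h2
  refine ⟨(𝒢.gen V hV).coc.mono subset_rfl (empty_subset _), ?_, ?_⟩
  · intro hc
    have h1 := 𝒢.parity L0 (fun V hV => (hL0 V hV).1) [V] (by
      intro V' hV'
      rw [List.mem_singleton] at hV'
      rw [hV', hU]
      exact ⟨hV, subset_univ _⟩) (by
      rw [hU, compl_univ, TA_empty]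
      have e : 𝒢.sm [V] = 𝒢.Z V := by simp [sm]
      rw [e]; exact hc)
    simp at h1
  · intro F hF
    obtain ⟨L, hL, hFL⟩ := 𝒢.decomp (W := univ) isOpen_univ (F := F) (by
      rw [compl_univ, TA_empty]; exact hF)
    rw [compl_univ, TA_empty] at hFL
    rcases hsumeq L (fun V hV => (hL V hV).1) with h1 | h1
    · left; exact hFL.congr' h1
    · right; exact hFL.trans h1

end GlueData

end

end ASC
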