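import Pool.Agent.Lib.MP_f7aa1b_gt.ASC.Basic

/-!
# Mayer–Vietoris, slicing, neighbourhoods
-/

set_option autoImplicit false

namespace ASC

open Set

variable {X Y Z : Type*} [MetricSpace X] [MetricSpace Y] [MetricSpace Z]

lemma coch_add_cancel {X : Type*} {n : ℕ} (f g : Coch X n) : f + (f + g) = g := by
  rw [← add_assoc, add_self_coch, zero_add]

lemma HZ.trans {S S' S'' : Set X} (hS' : S'' ⊆ S') {n : ℕ} (h : HZ n S S') (h' : HZ n S' S'')
    (hS : S' ⊆ S) : HZ n S S'' := by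
  intro F hF
  obtain ⟨F1, hF1, hc⟩ := les1 hF (h' F (hF.mono hS subset_rfl))
  exact hc.congr' ((h F1 hF1).mono subset_rfl hS')

lemma HZ.self (S : Set X) (n : ℕ) : HZ n S S := fun _ hF => Cob.of_van hF.van

lemma HZ.empty (S' : Set X) (n : ℕ) : HZ n (∅ : Set X) S' := by
  intro F hF
  cases n with
  | zero => rw [hF.eq_zero]; exact Cob.zero _ _
  | succ n => exact Cob.of_van (Van.empty _)

/-- excision for vanishing -/
lemma HZ.union {A B : Set X} (hA : IsCompact A) (hB : IsCompact B) {n : ℕ}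
    (h : HZ n A (A ∩ B)) : HZ n (A ∪ B) B := fun _ hF =>
  excision_inj hA hB hA.isClosed hB.isClosed hF
    (h _ (hF.mono subset_union_left inter_subset_right))

/-- Mayer–Vietoris, injectivity -/
theorem mv_inj {S1 S2 S' : Set X} (h1 : IsCompact S1) (h2 : IsCompact S2) (h' : IsCompact S')
    (hS' : S' ⊆ S1 ∪ S2) {m : ℕ} {F : Coch X (m + 1)} (hF : Coc (S1 ∪ S2) S' F)
    (hF1 : Cob S1 (S1 ∩ S') F) (hF2 : Cob S2 (S2 ∩ S') F)
    (hext : ∀ v : Coch X m, Coc (S1 ∩ S2) (S1 ∩ S2 ∩ S') v → ∃ v', Coc S1 (S1 ∩ S') v' ∧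
      Cob (S1 ∩ S2) (S1 ∩ S2 ∩ S') (v' + v)) : Cob (S1 ∪ S2) S' F := by
  have hS1 : IsCompact (S1 ∪ S') := h1.union h'
  have a1 : Cob (S1 ∪ S') S' F :=
    excision_inj h1 h' h1.isClosed h'.isClosed (hF.mono (union_subset subset_union_left hS')
      subset_rfl) hF1
  obtain ⟨F1, hF1c, hFF1⟩ := les1 hF a1
  set W := S2 ∩ (S1 ∪ S') with hW
  have hWS2 : W ⊆ S2 := inter_subset_left
  have b1 : Coc S2 W F1 := hF1c.mono subset_union_right inter_subset_right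
  have b2 : Cob S2 (S2 ∩ S') F1 := (hFF1.mono subset_union_right inter_subset_right).congr hF2
  obtain ⟨v, hv, hFv⟩ := les3 hWS2 b1 b2
  have hWeq : W = (S1 ∩ S2) ∪ (S2 ∩ S') := by
    ext x; simp only [hW, mem_inter_iff, mem_union]; tauto
  obtain ⟨v', hv', hvv'⟩ := hext v (hv.mono (by rw [hWeq]; exact subset_union_left)
    (fun x hx => ⟨hx.1.2, hx.2⟩))
  obtain ⟨V, hV, hVv'⟩ := excision_surj h1 h' h1.isClosed h'.isClosed hv'
  have c1 : Coc W (S2 ∩ S') (V + v) :=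
    (hV.mono inter_subset_right inter_subset_right).add hv
  have c2 : Cob (S1 ∩ S2) (S1 ∩ S2 ∩ S') (V + v) :=
    (hVv'.mono inter_subset_left (fun x hx => ⟨hx.1.1, hx.2⟩)).trans hvv'
  have c3 : Cob W (S2 ∩ S') (V + v) := by
    rw [hWeq] at c1 ⊢
    have e : S1 ∩ S2 ∩ (S2 ∩ S') = S1 ∩ S2 ∩ S' := by
      ext x; simp only [mem_inter_iff]; tauto
    refine excision_inj (h1.inter h2) (h2.inter h') (h1.inter h2).isClosed (h2.inter h').isClosed
      c1 ?_
    rw [e]; exact c2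
  have d1 : Cob S2 W (F1 + dl V) := by
    have e1 : Cob S2 W (dl (V + v)) := c3.dl
    rw [dl_add, add_comm (dl V) (dl v)] at e1
    exact hFv.trans e1
  have d2 : Coc (S1 ∪ S2) (S1 ∪ S') (F1 + dl V) := hF1c.add hV.dl
  have d3 : Cob (S1 ∪ S2) (S1 ∪ S') (F1 + dl V) := by
    have e : S1 ∪ S2 = S2 ∪ (S1 ∪ S') := by
      ext x
      simp only [mem_union]
      constructor
      · tauto
      · rintro (h | h | h)
        · exact Or.inr h
        · exact Or.inl h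
        · exact hS' h
    rw [e] at d2 ⊢
    exact excision_inj h2 hS1 h2.isClosed hS1.isClosed d2 d1
  have d4 : Cob (S1 ∪ S2) S' (F1 + dl V) := d3.mono subset_rfl subset_union_right
  have d5 : Cob (S1 ∪ S2) S' (dl V) := Cob.dl'' hV
  exact hFF1.congr' (d4.congr' d5)

/-- Mayer–Vietoris, surjectivity onto the relative group of the intersection -/
theorem mv_surj {T K1 K2 : Set X} (h1 : IsCompact K1) (h2 : IsCompact K2)
    (hK1 : K1 ⊆ T) (_hK2 : K2 ⊆ T) {n : ℕ} (hZ : HZ (n + 1) T (K1 ∪ K2)) {F : Coch X n}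
    (hF : Coc T (K1 ∩ K2) F) :
    ∃ F1 F2, Coc T K1 F1 ∧ Coc T K2 F2 ∧ Cob T (K1 ∩ K2) (F + (F1 + F2)) := by
  obtain ⟨f, hf, hff⟩ := excision_surj h1 h2 h1.isClosed h2.isClosed
    (hF.mono hK1 subset_rfl)
  have a : Cob T (K1 ∪ K2) (dl f) := hZ _ hf.dl
  obtain ⟨F2, hF2, hF2f⟩ := les2 subset_union_right hf a
  have b : Cob K1 (K1 ∩ K2) (F2 + F) :=
    (hF2f.mono subset_union_left inter_subset_right).trans hff
  have c : Coc T (K1 ∩ K2) (F2 + F) := (hF2.mono subset_rfl inter_subset_right).add hF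
  obtain ⟨F1, hF1, hc⟩ := les1 c b
  refine ⟨F1, F2, hF1, hF2, ?_⟩
  have e : F + (F1 + F2) = F2 + F + F1 := by abel
  rwa [e]

/-- Mayer–Vietoris, exactness in the middle -/
theorem mv_mid {T K1 K2 : Set X} (h1 : IsCompact K1) (h2 : IsCompact K2)
    (hK1 : K1 ⊆ T) (hK2 : K2 ⊆ T) {n : ℕ} {F1 F2 : Coch X n}
    (hF1 : Coc T K1 F1) (hF2 : Coc T K2 F2) (h : Cob T (K1 ∩ K2) (F1 + F2)) :
    ∃ F, Coc T (K1 ∪ K2) F ∧ Cob T K1 (F1 + F) ∧ Cob T K2 (F2 + F) := by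
  have a1 : Cob K1 (K1 ∩ K2) F2 := by
    have := h.mono hK1 subset_rfl
    exact this.congr (Cob.of_van hF1.van)
  have a2 : Cob (K1 ∪ K2) K2 F2 :=
    excision_inj h1 h2 h1.isClosed h2.isClosed (hF2.mono (union_subset hK1 hK2) subset_rfl) a1
  obtain ⟨F12, hF12, hc⟩ := les1 hF2 a2
  have b1 : Coc T K1 (F1 + F12) := hF1.add (hF12.mono subset_rfl subset_union_left)
  have b2 : Cob T (K1 ∩ K2) (F1 + F12) :=
    h.trans (hc.mono subset_rfl inter_subset_right)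
  cases n with
  | zero =>
    rw [hF1.eq_zero, hF2.eq_zero]
    exact ⟨0, Coc.zero _ _, by rw [add_zero]; exact Cob.zero _ _, by
      rw [add_zero]; exact Cob.zero _ _⟩
  | succ n =>
    obtain ⟨f, hf, hcf⟩ := les3 hK1 b1 b2
    obtain ⟨f', hf', hff'⟩ := excision_surj h1 h2 h1.isClosed h2.isClosed hf
    refine ⟨F12 + dl f', hF12.add hf'.dl, ?_, ?_⟩
    · have e : F1 + (F12 + dl f') = (F1 + F12 + dl f) + dl (f' + f) := by
        rw [dl_add]
        have : F1 + F12 + dl f + (dl f' + dl f) = F1 + (F12 + dl f') + (dl f + dl f) := by abel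
        rw [this, add_self_coch, add_zero]
      rw [e]
      exact hcf.add (Cob.dl (S'' := K1 ∩ K2) hff')
    · have e : F2 + (F12 + dl f') = (F2 + F12) + dl f' := by abel
      rw [e]
      exact hc.add (Cob.dl'' hf')

/-- continuity of the relative group in the second variable -/
theorem cont_rel {T K : Set X} (hT : IsCompact T) (hK : IsClosed K) {n : ℕ} {F : Coch X n}
    (hF : Coc T (T ∩ K) F) :
    ∃ η > 0, ∃ F', Coc T (T ∩ Metric.thickening η K) F' ∧ Cob T (T ∩ K) (F + F') := by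
  classical
  obtain ⟨ε3, hε3, hF'⟩ := hF.van
  obtain ⟨ε4, hε4, hdF⟩ := hF.cl
  set ε := min ε3 ε4 with hεdef
  have hε : 0 < ε := lt_min hε3 hε4
  obtain ⟨η, hη, r, hrC, hrS, -⟩ := exists_retr hT hT hK subset_rfl (η' := ε / 4) (by positivity)
  set r' : X → X := fun x => if x ∈ T ∩ Metric.thickening η K then r x else x with hr'
  have hr1 : ∀ x ∈ T ∩ Metric.thickening η K, r' x ∈ T ∩ K := by
    intro x hx; simp only [hr', if_pos hx]; exact (hrS x hx).1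
  have hr2 : ∀ x, dist (r' x) x < ε / 4 := by
    intro x
    by_cases hx : x ∈ T ∩ Metric.thickening η K
    · simp only [hr', if_pos hx]; exact (hrS x hx).2
    · simp only [hr', if_neg hx, dist_self]; positivity
  have hr3 : ∀ x ∈ T, r' x ∈ T := by
    intro x hx
    by_cases hx' : x ∈ T ∩ Metric.thickening η K
    · exact (hr1 x hx').1
    · simp only [hr', if_neg hx']; exact hx
  have hr4 : ∀ x ∈ T ∩ K, r' x ∈ T ∩ K := fun x hx =>
    hr1 x ⟨hx.1, Metric.self_subset_thickening hη _ hx.2⟩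
  have hdist : ∀ y y', dist y y' < ε / 4 → dist (r' y) (r' y') < ε := by
    intro y y' h
    have a := hr2 y
    have a' := hr2 y'
    have := dist_triangle4 (r' y) y y' (r' y')
    rw [dist_comm y' (r' y')] at this
    linarith
  refine ⟨η, hη, pb r' F, ⟨⟨ε / 4, by positivity, fun y hy => ?_⟩,
    ⟨ε / 4, by positivity, fun y hy => ?_⟩⟩, ?_⟩
  · exact hF' _ ⟨fun i => hr1 _ (hy.1 i), fun i j => (hdist _ _ (hy.2 i j)).trans_le
      (min_le_left _ _)⟩
  · rw [dl_pb]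
    exact hdF _ ⟨fun i => hr3 _ (hy.1 i), fun i j => (hdist _ _ (hy.2 i j)).trans_le
      (min_le_right _ _)⟩
  · have h1 : Cob T (T ∩ K) (pb id F + pb r' F) := by
      refine contig (R := T) (R' := T ∩ K) (ε := ε) (δ := ε / 4) inter_subset_left
        (by positivity) (fun x hx => hdF x (hx.mono subset_rfl (min_le_right _ _)))
        (fun x hx => hF' x (hx.mono subset_rfl (min_le_left _ _)))
        (fun y hy => ⟨hy, hr3 y hy⟩) (fun y hy => ⟨hy, hr4 y hy⟩) ?_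
      intro y hy y' hy' hyy
      refine ⟨by simpa using hyy.trans (by linarith), ?_, hdist y y' hyy⟩
      have a' := hr2 y'
      have := dist_triangle y y' (r' y')
      rw [dist_comm y' (r' y')] at this
      simp only [id]; linarith
    exact h1

/-- continuity, over a base -/
theorem cob_nbhd {T T' : Set X} (hT : IsCompact T) (hT' : IsCompact T') (hTT : T' ⊆ T)
    {ρ : X → Z} (hρ : ContinuousOn ρ T) {C : Set Z} (hC : IsClosed C) {n : ℕ} {F : Coch X n}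
    (hF : Coc T T' F) (h : Cob (T ∩ ρ ⁻¹' C) (T' ∩ ρ ⁻¹' C) F) :
    ∃ U, IsOpen U ∧ C ⊆ U ∧ Cob (T ∩ ρ ⁻¹' U) (T' ∩ ρ ⁻¹' U) F := by
  have hC' : IsCompact (T ∩ ρ ⁻¹' C) := by
    have := hρ.preimage_isClosed_of_isClosed hT.isClosed hC
    exact hT.of_isClosed_subset this inter_subset_left
  have e1 : T ∩ (T ∩ ρ ⁻¹' C) = T ∩ ρ ⁻¹' C := by
    ext x; simp only [mem_inter_iff]; tauto
  have e2 : T' ∩ (T ∩ ρ ⁻¹' C) = T' ∩ ρ ⁻¹' C := by
    ext x; simp only [mem_inter_iff]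
    exact ⟨fun h => ⟨h.1, h.2.2⟩, fun h => ⟨h.1, hTT h.1, h.2⟩⟩
  obtain ⟨η, hη, hcob⟩ := cob_thickening hT hT' hC'.isClosed hTT hF (by rw [e1, e2]; exact h)
  set K := T \ Metric.thickening η (T ∩ ρ ⁻¹' C) with hK
  have hKc : IsCompact K := hT.diff Metric.isOpen_thickening
  have hρK : IsCompact (ρ '' K) := hKc.image_of_continuousOn (hρ.mono sdiff_subset)
  refine ⟨(ρ '' K)ᶜ, hρK.isClosed.isOpen_compl, ?_, ?_⟩
  · rintro c hc ⟨x, hx, rfl⟩
    exact hx.2 (Metric.self_subset_thickening hη _ ⟨hx.1, hc⟩)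
  · refine hcob.mono ?_ ?_
    · rintro x ⟨hx, hxU⟩
      refine ⟨hx, ?_⟩
      by_contra hcon
      exact hxU ⟨x, ⟨hx, hcon⟩, rfl⟩
    · rintro x ⟨hx, hxU⟩
      refine ⟨hx, ?_⟩
      by_contra hcon
      exact hxU ⟨x, ⟨hTT hx, hcon⟩, rfl⟩

/-- compactness of preimages -/
lemma isCompact_pre {T : Set X} (hT : IsCompact T) {ρ : X → Z} (hρ : ContinuousOn ρ T)
    {C : Set Z} (hC : IsClosed C) : IsCompact (T ∩ ρ ⁻¹' C) :=
  hT.of_isClosed_subset (hρ.preimage_isClosed_of_isClosed hT.isClosed hC) inter_subset_left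

/-- **Slicing**: a class which vanishes on all slices `{s = s₀}` vanishes, if the classes (of one
degree less) of all slices extend. -/
theorem slice_zero {T T' : Set X} (hT : IsCompact T) (hT' : IsCompact T') (hTT : T' ⊆ T)
    {s : X → ℝ} (hs : ContinuousOn s T) {a b : ℝ} (hab : a ≤ b) (hsab : ∀ x ∈ T, s x ∈ Icc a b)
    {m : ℕ} {F : Coch X (m + 1)} (hF : Coc T T' F)
    (h0 : ∀ t ∈ Icc a b, Cob (T ∩ s ⁻¹' {t}) (T' ∩ s ⁻¹' {t}) F)
    (hext : ∀ t ∈ Icc a b, ∀ v : Coch X m, Coc (T ∩ s ⁻¹' {t}) (T' ∩ s ⁻¹' {t}) v →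
      ∃ v', Coc T T' v' ∧ Cob (T ∩ s ⁻¹' {t}) (T' ∩ s ⁻¹' {t}) (v' + v)) :
    Cob T T' F := by
  -- local vanishing
  have hloc : ∀ t ∈ Icc a b, ∃ U : Set ℝ, IsOpen U ∧ t ∈ U ∧
      Cob (T ∩ s ⁻¹' U) (T' ∩ s ⁻¹' U) F := by
    intro t ht
    obtain ⟨U, hU, htU, h⟩ := cob_nbhd hT hT' hTT hs (isClosed_singleton (x := t)) hF (h0 t ht)
    exact ⟨U, hU, htU rfl, h⟩
  choose! U hUo htU hUc using hloc
  obtain ⟨t, ht0, htm, ⟨N, hN⟩, hcov⟩ := exists_monotone_Icc_subset_open_cover_Icc hab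
    (c := fun i : Icc a b => (Subtype.val ⁻¹' (U i) : Set (Icc a b)))
    (fun i => (hUo i i.2).preimage continuous_subtype_val)
    (fun i _ => mem_iUnion.2 ⟨i, htU i i.2⟩)
  have step : ∀ k, Cob (T ∩ s ⁻¹' (Icc a (t k))) (T' ∩ s ⁻¹' (Icc a (t k))) F := by
    intro k
    induction k with
    | zero =>
      rw [ht0, Icc_self]
      exact h0 a (left_mem_Icc.2 hab)
    | succ k ih =>
      have hle : (t k : ℝ) ≤ t (k + 1) := htm (Nat.le_succ k)
      have hak : a ≤ (t k : ℝ) := (t k).2.1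
      have hpiece : Cob (T ∩ s ⁻¹' (Icc (t k : ℝ) (t (k + 1)))) (T' ∩ s ⁻¹' (Icc (t k : ℝ) (t (k + 1))))
          F := by
        obtain ⟨i, hi⟩ := hcov k
        refine (hUc i i.2).mono (inter_subset_inter_right _ ?_) (inter_subset_inter_right _ ?_)
        all_goals
          intro x hx
          have h1 : s x ∈ Icc a b := ⟨hak.trans hx.1, hx.2.trans (t (k + 1)).2.2⟩
          exact hi (show (⟨s x, h1⟩ : Icc a b) ∈ Icc (t k) (t (k + 1)) from ⟨hx.1, hx.2⟩)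
      have e1 : T ∩ s ⁻¹' (Icc a (t (k + 1))) =
          (T ∩ s ⁻¹' (Icc a (t k))) ∪ (T ∩ s ⁻¹' (Icc (t k : ℝ) (t (k + 1)))) := by
        rw [← inter_union_distrib_left, ← preimage_union, Icc_union_Icc_eq_Icc hak hle]
      have e2 : T' ∩ s ⁻¹' (Icc a (t (k + 1))) =
          (T' ∩ s ⁻¹' (Icc a (t k))) ∪ (T' ∩ s ⁻¹' (Icc (t k : ℝ) (t (k + 1)))) := by
        rw [← inter_union_distrib_left, ← preimage_union, Icc_union_Icc_eq_Icc hak hle]
      have hs' : ContinuousOn s T' := hs.mono hTT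
      have e3 : ∀ J : Set ℝ, J ⊆ Icc a (t (k + 1)) →
          T ∩ s ⁻¹' J ∩ (T' ∩ s ⁻¹' (Icc a (t (k + 1)))) = T' ∩ s ⁻¹' J := by
        intro J hJ
        ext x
        simp only [mem_inter_iff, mem_preimage]
        exact ⟨fun h => ⟨h.2.1, h.1.2⟩, fun h => ⟨⟨hTT h.1, h.2⟩, h.1, hJ h.2⟩⟩
      have e4 : (T ∩ s ⁻¹' (Icc a (t k))) ∩ (T ∩ s ⁻¹' (Icc (t k : ℝ) (t (k + 1)))) =
          T ∩ s ⁻¹' {(t k : ℝ)} := by
        ext x
        simp only [mem_inter_iff, mem_preimage, mem_Icc, mem_singleton_iff]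
        constructor
        · rintro ⟨⟨h1, h2⟩, -, h3⟩; exact ⟨h1, le_antisymm h2.2 h3.1⟩
        · rintro ⟨h1, h2⟩; exact ⟨⟨h1, by rw [h2]; exact ⟨hak, le_rfl⟩⟩, h1, by
            rw [h2]; exact ⟨le_rfl, hle⟩⟩
      have hsub1 : Icc a (t k : ℝ) ⊆ Icc a (t (k + 1)) := Icc_subset_Icc_right hle
      have hsub2 : Icc (t k : ℝ) (t (k + 1)) ⊆ Icc a (t (k + 1)) := Icc_subset_Icc_left hak
      have hsub3 : ({(t k : ℝ)} : Set ℝ) ⊆ Icc a (t (k + 1)) := by
        rintro _ rfl; exact ⟨hak, hle⟩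
      have key := mv_inj (S1 := T ∩ s ⁻¹' (Icc a (t k))) (S2 := T ∩ s ⁻¹' (Icc (t k : ℝ) (t (k + 1))))
        (S' := T' ∩ s ⁻¹' (Icc a (t (k + 1)))) (isCompact_pre hT hs isClosed_Icc)
        (isCompact_pre hT hs isClosed_Icc) (isCompact_pre hT' hs' isClosed_Icc)
        (by rw [← e1]; exact inter_subset_inter_left _ hTT) (F := F)
        (by rw [← e1]; exact hF.mono inter_subset_left inter_subset_left)
        (by rw [e3 _ hsub1]; exact ih) (by rw [e3 _ hsub2]; exact hpiece)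
        (by
          rw [e4, e3 _ hsub3, e3 _ hsub1]
          intro v hv
          obtain ⟨v', hv', hc⟩ := hext (t k) (t k).2 v hv
          exact ⟨v', hv'.mono inter_subset_left inter_subset_left, hc⟩)
      rwa [← e1] at key
  have hfin := step N
  have hNb : (t N : ℝ) = b := by rw [hN N le_rfl]
  rw [hNb] at hfin
  have e1 : T ∩ s ⁻¹' (Icc a b) = T := by
    ext x; simp only [mem_inter_iff, mem_preimage]; exact ⟨fun h => h.1, fun h => ⟨h, hsab x h⟩⟩
  have e2 : T' ∩ s ⁻¹' (Icc a b) = T' := by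
    ext x; simp only [mem_inter_iff, mem_preimage]
    exact ⟨fun h => h.1, fun h => ⟨h, hsab x (hTT h)⟩⟩
  rwa [e1, e2] at hfin

end ASC
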