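import Pool.Agent.Lib.MP_f7aa1b_gt.ASC.Basic

/-!
# The cohomology groups as vector spaces over `ZMod 2`, Betti numbers
-/

set_option autoImplicit false

namespace ASC

open Set

variable {X : Type*} [PseudoMetricSpace X]

lemma zmod2_cases (c : ZMod 2) : c = 0 ∨ c = 1 := by
  revert c; decide

/-- the cocycles of the pair `(S, S')` on `n` points -/
def Zc (n : ℕ) (S S' : Set X) : Submodule (ZMod 2) (Coch X n) where
  carrier := {f | Coc S S' f}
  add_mem' := fun hf hg => Coc.add hf hg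
  zero_mem' := Coc.zero _ _
  smul_mem' := by
    intro c f hf
    rcases zmod2_cases c with rfl | rfl
    · rw [zero_smul]; exact Coc.zero _ _
    · rw [one_smul]; exact hf

/-- the coboundaries of the pair `(S, S')` on `n` points -/
def Bc (n : ℕ) (S S' : Set X) : Submodule (ZMod 2) (Coch X n) where
  carrier := {f | Cob S S' f}
  add_mem' := fun hf hg => Cob.add hf hg
  zero_mem' := Cob.zero _ _
  smul_mem' := by
    intro c f hf
    rcases zmod2_cases c with rfl | rfl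
    · rw [zero_smul]; exact Cob.zero _ _
    · rw [one_smul]; exact hf

/-- the cohomology of the pair `(S, S')` with coefficients in `ZMod 2`, on `n` points
(degree `n - 1`) -/
abbrev HM (n : ℕ) (S S' : Set X) : Type _ :=
  ↥(Zc n S S') ⧸ (Bc n S S').comap (Zc n S S').subtype

/-- the class of a cocycle -/
def HM.mk {n : ℕ} {S S' : Set X} : ↥(Zc n S S') →ₗ[ZMod 2] HM n S S' :=
  ((Bc n S S').comap (Zc n S S').subtype).mkQ

lemma HM.mk_surjective {n : ℕ} {S S' : Set X} :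
    Function.Surjective (HM.mk : ↥(Zc n S S') →ₗ[ZMod 2] HM n S S') :=
  Submodule.mkQ_surjective _

lemma HM.mk_eq_zero {n : ℕ} {S S' : Set X} (f : ↥(Zc n S S')) :
    HM.mk f = 0 ↔ Cob S S' f.1 := by
  unfold HM.mk
  rw [Submodule.mkQ_apply, Submodule.Quotient.mk_eq_zero]
  rfl

lemma HM.mk_eq {n : ℕ} {S S' : Set X} (f g : ↥(Zc n S S')) :
    HM.mk f = HM.mk g ↔ Cob S S' (f.1 + g.1) := by
  rw [← sub_eq_zero, ← map_sub, HM.mk_eq_zero]
  have : (f - g : ↥(Zc n S S')).1 = f.1 + g.1 := by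
    rw [AddSubgroupClass.coe_sub]
    funext x
    rw [Pi.sub_apply, Pi.add_apply, CharTwo.sub_eq_add]
  rw [this]

/-- restriction -/
def HM.res {n : ℕ} {S S' T T' : Set X} (h : S ⊆ T) (h' : S' ⊆ T') :
    HM n T T' →ₗ[ZMod 2] HM n S S' :=
  Submodule.mapQ _ _ (Submodule.inclusion (fun _ hf => Coc.mono hf h h'))
    (by
      intro f hf
      exact Cob.mono hf h h')

lemma HM.res_mk {n : ℕ} {S S' T T' : Set X} (h : S ⊆ T) (h' : S' ⊆ T') (f : ↥(Zc n T T')) :
    HM.res h h' (HM.mk f) = HM.mk (⟨f.1, Coc.mono f.2 h h'⟩ : ↥(Zc n S S')) := rfl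

lemma HM.eq_zero_of_HZ {n : ℕ} {S S' : Set X} (h : HZ n S S') (x : HM n S S') : x = 0 := by
  obtain ⟨f, rfl⟩ := HM.mk_surjective x
  exact (HM.mk_eq_zero f).2 (h _ f.2)

lemma HM.HZ_iff {n : ℕ} {S S' : Set X} : HZ n S S' ↔ ∀ x : HM n S S', x = 0 := by
  refine ⟨fun h x => HM.eq_zero_of_HZ h x, fun h f hf => ?_⟩
  exact (HM.mk_eq_zero (⟨f, hf⟩ : ↥(Zc n S S'))).1 (h _)

/-- exactness of `H(S, S') → H(S, S'') → H(S', S'')` -/
lemma HM.exact_res {n : ℕ} {S S' S'' : Set X} (hS : S' ⊆ S) (hS' : S'' ⊆ S') :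
    Function.Exact (HM.res (n := n) (Subset.refl S) hS') (HM.res (n := n) hS (Subset.refl S'')) := by
  intro x
  constructor
  · intro hx
    obtain ⟨f, rfl⟩ := HM.mk_surjective x
    rw [HM.res_mk, HM.mk_eq_zero] at hx
    obtain ⟨F', hF', hc⟩ := les1 f.2 hx
    refine ⟨HM.mk ⟨F', hF'⟩, ?_⟩
    rw [HM.res_mk, HM.mk_eq]
    rw [add_comm]; exact hc
  · rintro ⟨y, rfl⟩
    obtain ⟨f, rfl⟩ := HM.mk_surjective y
    rw [HM.res_mk, HM.res_mk, HM.mk_eq_zero]
    exact Cob.of_van f.2.van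

lemma HM.finrank_of_HG {n : ℕ} {S S' : Set X} {g : Coch X n} (h : HG S S' g) :
    Module.finrank (ZMod 2) (HM n S S') = 1 := by
  rw [finrank_eq_one_iff']
  refine ⟨HM.mk ⟨g, h.coc⟩, ?_, ?_⟩
  · intro h0
    exact h.ne ((HM.mk_eq_zero _).1 h0)
  · intro w
    obtain ⟨f, rfl⟩ := HM.mk_surjective w
    rcases h.gen f.1 f.2 with h1 | h1
    · exact ⟨0, by rw [zero_smul]; exact ((HM.mk_eq_zero f).2 h1).symm⟩
    · refine ⟨1, ?_⟩
      rw [one_smul, HM.mk_eq]
      rw [add_comm]; exact h1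

lemma HM.finrank_of_HZ {n : ℕ} {S S' : Set X} (h : HZ n S S') :
    Module.finrank (ZMod 2) (HM n S S') = 0 := by
  have : Subsingleton (HM n S S') :=
    ⟨fun a b => by rw [HM.eq_zero_of_HZ h a, HM.eq_zero_of_HZ h b]⟩
  exact Module.finrank_zero_of_subsingleton

/-- the `i`-th Betti number modulo 2 of a set (Alexander–Spanier cohomology) -/
noncomputable def betti (i : ℕ) (S : Set X) : ℕ := Module.finrank (ZMod 2) (HM (i + 1) S ∅)

/-- bijectivity of the restriction in terms of cocycles -/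
lemma HM.res_injective_iff {n : ℕ} {S S' T T' : Set X} (h : S ⊆ T) (h' : S' ⊆ T') :
    Function.Injective (HM.res (n := n) h h') ↔
      ∀ F : Coch X n, Coc T T' F → Cob S S' F → Cob T T' F := by
  rw [injective_iff_map_eq_zero]
  constructor
  · intro H F hF hc
    have := H (HM.mk ⟨F, hF⟩) (by rw [HM.res_mk, HM.mk_eq_zero]; exact hc)
    exact (HM.mk_eq_zero _).1 this
  · intro H x hx
    obtain ⟨f, rfl⟩ := HM.mk_surjective x
    rw [HM.res_mk, HM.mk_eq_zero] at hx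
    exact (HM.mk_eq_zero f).2 (H _ f.2 hx)

lemma HM.res_surjective_iff {n : ℕ} {S S' T T' : Set X} (h : S ⊆ T) (h' : S' ⊆ T') :
    Function.Surjective (HM.res (n := n) h h') ↔
      ∀ f : Coch X n, Coc S S' f → ∃ F, Coc T T' F ∧ Cob S S' (F + f) := by
  constructor
  · intro H f hf
    obtain ⟨x, hx⟩ := H (HM.mk ⟨f, hf⟩)
    obtain ⟨F, rfl⟩ := HM.mk_surjective x
    rw [HM.res_mk, HM.mk_eq] at hx
    exact ⟨F.1, F.2, hx⟩
  · intro H x
    obtain ⟨f, rfl⟩ := HM.mk_surjective x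
    obtain ⟨F, hF, hc⟩ := H f.1 f.2
    refine ⟨HM.mk ⟨F, hF⟩, ?_⟩
    rw [HM.res_mk, HM.mk_eq]; exact hc

end ASC
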