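import Pool.Agent.Lib.MP_f7aa1b_gt.ASC.Basic

/-!
# Slicing: Mayer–Vietoris injectivity, slices of a real function, the one-dimensional lemma
-/

set_option autoImplicit false

namespace ASC

open Set

section

variable {X : Type*} [MetricSpace X]

/-- cutting off a cochain that vanishes near `A ∩ B` -/
lemma van_inter {A B : Set X} {n : ℕ} {F : Coch X n} (h : Van (A ∩ B) F) :
    ∃ G, Van A G ∧ Van B (F + G) := by
  classical
  obtain ⟨ε, hε, h⟩ := h
  refine ⟨fun x => if ∀ i, x i ∈ A then 0 else F x, ⟨ε, hε, fun x hx => ?_⟩,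
    ⟨ε, hε, fun x hx => ?_⟩⟩
  · exact if_pos hx.1
  · by_cases hA : ∀ i, x i ∈ A
    · simp only [Pi.add_apply, if_pos hA, add_zero]
      exact h x ⟨fun i => ⟨hA i, hx.1 i⟩, hx.2⟩
    · simp only [Pi.add_apply, if_neg hA, z2]

/-- `F` vanishes near `A` and near `B` and is a cocycle near `A ∪ B`. -/
lemma van_union {A B : Set X} (hA : IsCompact A) (hB : IsCompact B) {n : ℕ} {F : Coch X (n + 1)}
    (h1 : Van A F) (h2 : Van B F) (h3 : Van (A ∪ B) (dl F)) :
    ∃ g : Coch X n, Van A g ∧ Van B g ∧ Van (A ∪ B) (F + dl g) := by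
  obtain ⟨g, hg, hFg⟩ := excision_inj hA hB hA.isClosed hB.isClosed (F := F) ⟨h2, h3⟩
    (Cob.of_van h1)
  have hgA : Coc A (A ∩ B) g := by
    refine ⟨hg.mono inter_subset_right, ?_⟩
    have := (hFg.mono (subset_union_left (s := A) (t := B))).add h1
    have e : F + dl g + F = dl g := by
      have e : F + dl g + F = (F + F) + dl g := by abel
      rw [e, add_self_coch, zero_add]
    rwa [e] at this
  obtain ⟨G, hG, hGg⟩ := excision_surj hA hB hA.isClosed hB.isClosed hgA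
  have hdG : F + dl (g + G) = (F + dl g) + dl G := by rw [dl_add]; abel
  cases n with
  | zero =>
    refine ⟨g + G, ?_, hg.add hG.van, ?_⟩
    · have : Van A (G + g) := hGg
      rwa [add_comm] at this
    · rw [hdG]; exact hFg.add hG.cl
  | succ n =>
    obtain ⟨k, hk, hGk⟩ := hGg
    obtain ⟨k', hk', hkk⟩ := van_inter hk
    refine ⟨g + G + dl (k + k'), ?_, (hg.add hG.van).add hkk.dl, ?_⟩
    · have e : g + G + dl (k + k') = (G + g + dl k) + dl k' := by rw [dl_add]; abel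
      rw [e]; exact hGk.add hk'.dl
    · rw [dl_add, dl_dl, add_zero, hdG]; exact hFg.add hG.cl

/-- **Mayer–Vietoris**, injectivity (relative to `S0`). -/
lemma mv_injL {S1 S2 S0 : Set X} (h1 : IsCompact S1) (h2 : IsCompact S2) (h01 : S0 ⊆ S1) {n : ℕ} {w : Coch X (n + 1)} (hw : Coc (S1 ∪ S2) S0 w)
    (hc1 : Cob S1 S0 w) (hc2 : Cob S2 S0 w)
    (hs : ∀ e : Coch X n, Coc (S1 ∩ S2) S0 e → ∃ e', Coc S1 S0 e' ∧ Cob (S1 ∩ S2) S0 (e + e')) :
    Cob (S1 ∪ S2) S0 w := by
  obtain ⟨g1, hg1, hwg1⟩ := hc1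
  obtain ⟨g2, hg2, hwg2⟩ := hc2
  have he : Coc (S1 ∩ S2) S0 (g1 + g2) := by
    refine ⟨hg1.add hg2, ?_⟩
    have := (hwg1.mono (inter_subset_left (s := S1) (t := S2))).add
      (hwg2.mono (inter_subset_right (s := S1) (t := S2)))
    have e : w + dl g1 + (w + dl g2) = dl (g1 + g2) := by
      have e : w + dl g1 + (w + dl g2) = (w + w) + (dl g1 + dl g2) := by abel
      rw [e, add_self_coch, zero_add, dl_add]
    rwa [e] at this
  -- a cocycle `e'` on `S1` with `g1 + g2 + e'` zero near the intersection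
  obtain ⟨e', he', hee⟩ : ∃ e', Coc S1 S0 e' ∧ Van (S1 ∩ S2) (g1 + g2 + e') := by
    obtain ⟨e', he', hee⟩ := hs _ he
    cases n with
    | zero => exact ⟨e', he', hee⟩
    | succ n =>
      obtain ⟨f, hf, hff⟩ := hee
      refine ⟨e' + dl f, ⟨he'.van.add hf.dl, ?_⟩, ?_⟩
      · rw [dl_add, dl_dl, add_zero]; exact he'.cl
      · rwa [← add_assoc]
  obtain ⟨v, hv1, hv2⟩ := van_inter hee
  -- `g = g1 + e' + v`, near `S2` it is `g2`
  have hw1 : Van S1 (w + dl (g1 + e' + v)) := by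
    have e : w + dl (g1 + e' + v) = (w + dl g1) + (dl e' + dl v) := by
      rw [dl_add, dl_add]; abel
    rw [e]; exact hwg1.add (he'.cl.add hv1.dl)
  have hw2 : Van S2 (w + dl (g1 + e' + v)) := by
    have e : w + dl (g1 + e' + v) = (w + dl g2) + dl (g1 + g2 + e' + v) := by
      have e1 : dl (g1 + g2 + e' + v) = dl g2 + dl (g1 + e' + v) := by
        rw [← dl_add]; congr 1; abel
      rw [e1]
      have e2 : w + dl g2 + (dl g2 + dl (g1 + e' + v)) =
          (dl g2 + dl g2) + (w + dl (g1 + e' + v)) := by abel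
      rw [e2, add_self_coch, zero_add]
    rw [e]; exact hwg2.add hv2.dl
  have hw3 : Van (S1 ∪ S2) (dl (w + dl (g1 + e' + v))) := by
    rw [dl_add, dl_dl, add_zero]; exact hw.cl
  obtain ⟨k, hk1, hk2, hk⟩ := van_union h1 h2 hw1 hw2 hw3
  refine ⟨g1 + e' + v + k, ((hg1.add he'.van).add (hv1.mono h01)).add (hk1.mono h01), ?_⟩
  rw [dl_add, ← add_assoc]; exact hk

/-- Transfer of vanishing by excision. -/
lemma HZ.exc {A B : Set X} (hA : IsCompact A) (hB : IsCompact B) {n : ℕ} (h : HZ n A (A ∩ B)) :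
    HZ n (A ∪ B) B := by
  intro F hF
  exact excision_inj hA hB hA.isClosed hB.isClosed hF
    (h F (hF.mono subset_union_left inter_subset_right))

/-- Transfer of a generator by excision. -/
lemma HG.exc {A B : Set X} (hA : IsCompact A) (hB : IsCompact B) {n : ℕ} {g : Coch X n}
    (h : HG A (A ∩ B) g) (hg : Coc (A ∪ B) B g) : HG (A ∪ B) B g := by
  refine ⟨hg, fun hc => h.ne (hc.mono subset_union_left inter_subset_right), fun f hf => ?_⟩
  rcases h.gen f (hf.mono subset_union_left inter_subset_right) with h1 | h1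
  · exact Or.inl (excision_inj hA hB hA.isClosed hB.isClosed hf h1)
  · exact Or.inr (excision_inj hA hB hA.isClosed hB.isClosed (hf.add hg) h1)

lemma HZ.transL {A B C : Set X} {n : ℕ} (h1 : HZ n A B) (h2 : HZ n B C) (hAB : B ⊆ A)
    (hBC : C ⊆ B) : HZ n A C := by
  intro F hF
  obtain ⟨F', hF', hFF⟩ := les1 hF (h2 F (hF.mono hAB subset_rfl))
  exact hFF.congr' ((h1 F' hF').mono subset_rfl hBC)

lemma HZ.selfL (A : Set X) (n : ℕ) : HZ n A A := fun _ hF => Cob.of_van hF.van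

lemma HZ.emptyL (n : ℕ) (A : Set X) : HZ (n + 1) ∅ A := fun F _ => Cob.of_van (Van.empty F)

lemma isCompact_inter_pre {Y : Type*} [TopologicalSpace Y] {S : Set X} (hS : IsCompact S)
    {f : X → Y} (hf : ContinuousOn f S) {K : Set Y} (hK : IsClosed K) :
    IsCompact (S ∩ f ⁻¹' K) :=
  hS.of_isClosed_subset (hf.preimage_isClosed_of_isClosed hS.isClosed hK) inter_subset_left

/-- Points of `S` at which `f` is close to `t` are close to the slice. -/
lemma slice_near {S : Set X} (hS : IsCompact S) {f : X → ℝ} (hf : ContinuousOn f S) (t : ℝ)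
    {C : Set X} (hC : S ∩ f ⁻¹' {t} ⊆ C) {η : ℝ} (hη : 0 < η) :
    ∃ δ > 0, ∀ x ∈ S, |f x - t| < δ → x ∈ Metric.thickening η C := by
  have hK : IsCompact (S \ Metric.thickening η C) := hS.diff Metric.isOpen_thickening
  rcases (S \ Metric.thickening η C).eq_empty_or_nonempty with he | hne
  · refine ⟨1, one_pos, fun x hx _ => ?_⟩
    by_contra hcon
    have : x ∈ S \ Metric.thickening η C := ⟨hx, hcon⟩
    rw [he] at this
    exact this
  · have hfK : ContinuousOn (fun x => |f x - t|) (S \ Metric.thickening η C) :=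
      ((hf.mono sdiff_subset).sub continuousOn_const).abs
    obtain ⟨x0, hx0, hmin⟩ := hK.exists_isMinOn hne hfK
    have hpos : 0 < |f x0 - t| := by
      rw [abs_pos, sub_ne_zero]
      intro h0
      exact hx0.2 (Metric.self_subset_thickening hη _ (hC ⟨hx0.1, h0⟩))
    refine ⟨|f x0 - t|, hpos, fun x hx hxt => ?_⟩
    by_contra hcon
    exact absurd (hmin ⟨hx, hcon⟩) (not_le.2 hxt)

/-- A class that vanishes on a slice vanishes near it. -/
lemma slice_cob {S S0 : Set X} (hS : IsCompact S) (hS0 : IsCompact S0) (h0 : S0 ⊆ S) {f : X → ℝ}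
    (hf : ContinuousOn f S) {n : ℕ} {w : Coch X n} (hw : Coc S S0 w) {t : ℝ}
    (hz : Cob (S ∩ f ⁻¹' {t} ∪ S0) S0 w) :
    ∃ δ > 0, Cob (S ∩ f ⁻¹' (Ioo (t - δ) (t + δ)) ∪ S0) S0 w := by
  have hcl : IsClosed (S ∩ f ⁻¹' {t} ∪ S0) :=
    (hf.preimage_isClosed_of_isClosed hS.isClosed isClosed_singleton).union hS0.isClosed
  have hsub : S ∩ f ⁻¹' {t} ∪ S0 ⊆ S := union_subset inter_subset_left h0
  obtain ⟨η, hη, h⟩ := cob_thickening hS hS0 hcl h0 hw
    (hz.mono inter_subset_right inter_subset_left)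
  obtain ⟨δ, hδ, hd⟩ := slice_near hS hf t (subset_union_left (t := S0)) hη
  refine ⟨δ, hδ, h.mono ?_ ?_⟩
  · refine union_subset ?_ ?_
    · rintro x ⟨hx, hxt⟩
      refine ⟨hx, hd x hx ?_⟩
      rw [abs_lt]
      constructor <;> linarith [hxt.1, hxt.2]
    · intro x hx
      exact ⟨h0 hx, Metric.self_subset_thickening hη _ (Or.inr hx)⟩
  · intro x hx
    exact ⟨hx, Metric.self_subset_thickening hη _ (Or.inr hx)⟩

/-- **Slicing.** A class vanishes if it vanishes on all slices and every class of one degree less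
on a slice is a restriction. -/
theorem slice {S S0 : Set X} (hS : IsCompact S) (hS0 : IsCompact S0) (h0 : S0 ⊆ S) {f : X → ℝ}
    (hf : ContinuousOn f S) {n : ℕ} {w : Coch X (n + 1)} (hw : Coc S S0 w)
    (hz : ∀ t, Cob (S ∩ f ⁻¹' {t} ∪ S0) S0 w)
    (hs : ∀ t, ∀ e : Coch X n, Coc (S ∩ f ⁻¹' {t} ∪ S0) S0 e →
      ∃ e', Coc S S0 e' ∧ Cob (S ∩ f ⁻¹' {t} ∪ S0) S0 (e + e')) : Cob S S0 w := by
  rcases S.eq_empty_or_nonempty with rfl | hne
  · exact Cob.of_van (Van.empty w)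
  obtain ⟨x0, hx0, hmin⟩ := hS.exists_isMinOn hne hf
  obtain ⟨x1, hx1, hmax⟩ := hS.exists_isMaxOn hne hf
  set a := f x0 with ha
  set b := f x1 with hb
  have hab : a ≤ b := hmin hx1
  choose δ hδ hcob using fun t => slice_cob hS hS0 h0 hf hw (hz t)
  obtain ⟨r, hr, hleb⟩ := lebesgue_number_lemma_of_metric (isCompact_Icc (a := a) (b := b))
    (c := fun t : ℝ => Ioo (t - δ t) (t + δ t)) (fun t => isOpen_Ioo)
    (fun t _ => mem_iUnion.2 ⟨t, by constructor <;> linarith [hδ t]⟩)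
  have hloc : ∀ t ∈ Icc a b, Cob (S ∩ f ⁻¹' (Metric.ball t r) ∪ S0) S0 w := by
    intro t ht
    obtain ⟨i, hi⟩ := hleb t ht
    exact (hcob i).mono (union_subset_union_left _ (inter_subset_inter_right _
      (preimage_mono hi))) subset_rfl
  have step : ∀ k : ℕ, Cob (S ∩ f ⁻¹' (Iic (min (a + k * (r / 2)) b)) ∪ S0) S0 w := by
    intro k
    induction k with
    | zero =>
      refine (hloc a ⟨le_rfl, hab⟩).mono (union_subset_union_left _ ?_) subset_rfl
      rintro x ⟨hx, hxa⟩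
      refine ⟨hx, ?_⟩
      have h1 : f x ≤ a := by
        have : f x ≤ min (a + (0 : ℕ) * (r / 2)) b := hxa
        simpa using this.trans (min_le_left _ _)
      have h2 : a ≤ f x := hmin hx
      rw [mem_preimage, Metric.mem_ball, le_antisymm h1 h2, dist_self]
      exact hr
    | succ k ih =>
      obtain ⟨c, hc⟩ : ∃ c, c = min (a + k * (r / 2)) b := ⟨_, rfl⟩
      obtain ⟨c', hc'⟩ : ∃ c', c' = min (a + (k + 1 : ℕ) * (r / 2)) b := ⟨_, rfl⟩
      rw [← hc] at ih
      rw [← hc']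
      have hac : a ≤ c := by
        rw [hc]
        refine le_min ?_ hab
        have : (0 : ℝ) ≤ k * (r / 2) := by positivity
        linarith
      have hcb : c ≤ b := by rw [hc]; exact min_le_right _ _
      have hcc : c ≤ c' := by
        rw [hc, hc']
        refine min_le_min_right _ ?_
        have : (k : ℝ) * (r / 2) ≤ (k + 1 : ℕ) * (r / 2) := by
          refine mul_le_mul_of_nonneg_right ?_ (by positivity)
          push_cast; linarith
        linarith
      have hcr : c' ≤ c + r / 2 := by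
        rw [hc']
        rcases min_cases (a + k * (r / 2)) b with h1 | h1
        · have h2 : c = a + k * (r / 2) := hc.trans h1.1
          refine (min_le_left _ _).trans ?_
          rw [h2]; push_cast; linarith
        · have h2 : c = b := hc.trans h1.1
          refine (min_le_right _ _).trans ?_
          rw [h2]; linarith
      -- the two pieces
      have h1c : IsCompact (S ∩ f ⁻¹' (Iic c) ∪ S0) :=
        (isCompact_inter_pre hS hf isClosed_Iic).union hS0
      have h2c : IsCompact (S ∩ f ⁻¹' (Icc c c') ∪ S0) :=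
        (isCompact_inter_pre hS hf isClosed_Icc).union hS0
      have hun : (S ∩ f ⁻¹' (Iic c) ∪ S0) ∪ (S ∩ f ⁻¹' (Icc c c') ∪ S0) =
          S ∩ f ⁻¹' (Iic c') ∪ S0 := by
        ext x
        simp only [mem_union, mem_inter_iff, mem_preimage, mem_Iic, mem_Icc]
        constructor
        · rintro ((⟨h1, h2⟩ | h1) | (⟨h1, h2, h3⟩ | h1))
          · exact Or.inl ⟨h1, h2.trans hcc⟩
          · exact Or.inr h1
          · exact Or.inl ⟨h1, h3⟩
          · exact Or.inr h1
        · rintro (⟨h1, h2⟩ | h1)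
          · rcases le_total (f x) c with h3 | h3
            · exact Or.inl (Or.inl ⟨h1, h3⟩)
            · exact Or.inr (Or.inl ⟨h1, h3, h2⟩)
          · exact Or.inl (Or.inr h1)
      have hin : (S ∩ f ⁻¹' (Iic c) ∪ S0) ∩ (S ∩ f ⁻¹' (Icc c c') ∪ S0) =
          S ∩ f ⁻¹' {c} ∪ S0 := by
        ext x
        simp only [mem_union, mem_inter_iff, mem_preimage, mem_Iic, mem_Icc, mem_singleton_iff]
        constructor
        · rintro ⟨⟨h1, h2⟩ | h1, ⟨h3, h4, h5⟩ | h3⟩
          · exact Or.inl ⟨h1, le_antisymm h2 h4⟩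
          · exact Or.inr h3
          · exact Or.inr h1
          · exact Or.inr h1
        · rintro (⟨h1, h2⟩ | h1)
          · exact ⟨Or.inl ⟨h1, h2.le⟩, Or.inl ⟨h1, h2.ge, h2.le.trans hcc⟩⟩
          · exact ⟨Or.inr h1, Or.inr h1⟩
      have hsub1 : S ∩ f ⁻¹' (Iic c) ∪ S0 ⊆ S := union_subset inter_subset_left h0
      have hw' : Coc ((S ∩ f ⁻¹' (Iic c) ∪ S0) ∪ (S ∩ f ⁻¹' (Icc c c') ∪ S0)) S0 w :=
        hw.mono (union_subset hsub1 (union_subset inter_subset_left h0)) subset_rfl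
      have h2w : Cob (S ∩ f ⁻¹' (Icc c c') ∪ S0) S0 w := by
        refine (hloc c ⟨hac, hcb⟩).mono (union_subset_union_left _ ?_) subset_rfl
        rintro x ⟨hx, hxc⟩
        refine ⟨hx, ?_⟩
        rw [mem_preimage, Metric.mem_ball, Real.dist_eq, abs_lt]
        constructor <;> linarith [hxc.1, hxc.2]
      have h3 := mv_injL h1c h2c subset_union_right hw' ih h2w (by
        intro e he
        rw [hin] at he ⊢
        obtain ⟨e', he', hee⟩ := hs c e he
        exact ⟨e', he'.mono hsub1 subset_rfl, hee⟩)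
      rwa [hun] at h3
  obtain ⟨k, hk⟩ := exists_nat_gt ((b - a) / (r / 2))
  have hk' : b ≤ a + k * (r / 2) := by
    rw [div_lt_iff₀ (by positivity)] at hk
    linarith
  have h := step k
  rw [min_eq_right hk'] at h
  refine h.mono ?_ subset_rfl
  intro x hx
  exact Or.inl ⟨hx, hmax hx⟩

/-! ### The one-dimensional lemma -/

lemma chi_van_of {K : Set X} (hK : IsCompact K) {f : X → ℝ} (hf : ContinuousOn f K) {n : ℕ}
    {W : Coch X (n + 1)} {δ : ℝ} (hδ : 0 < δ) (h : Van (K ∩ f ⁻¹' (Ici (-δ))) W) :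
    Van K (chi f W) := by
  obtain ⟨ε, hε, h⟩ := h
  obtain ⟨δ', hδ', hd⟩ := Metric.uniformContinuousOn_iff.1
    (hK.uniformContinuousOn_of_continuous hf) δ hδ
  refine ⟨min ε δ', lt_min hε hδ', fun x hx => ?_⟩
  rw [chi]
  by_cases h0 : 0 ≤ f (x 0)
  · rw [h x ⟨fun i => ⟨hx.1 i, ?_⟩, fun i j => (hx.2 i j).trans_le (min_le_left _ _)⟩, mul_zero]
    have := hd _ (hx.1 i) _ (hx.1 0) ((hx.2 i 0).trans_le (min_le_right _ _))
    rw [Real.dist_eq, abs_lt] at this
    rw [mem_preimage, mem_Ici]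
    linarith [this.1]
  · simp [ind, h0]

lemma chi_van_of' {K : Set X} (hK : IsCompact K) {f : X → ℝ} (hf : ContinuousOn f K) {n : ℕ}
    {W : Coch X (n + 1)} {δ : ℝ} (hδ : 0 < δ) (h : Van (K ∩ f ⁻¹' (Iic δ)) W) :
    Van K (W + chi f W) := by
  obtain ⟨ε, hε, h⟩ := h
  obtain ⟨δ', hδ', hd⟩ := Metric.uniformContinuousOn_iff.1
    (hK.uniformContinuousOn_of_continuous hf) δ hδ
  refine ⟨min ε δ', lt_min hε hδ', fun x hx => ?_⟩
  rw [Pi.add_apply, chi]
  by_cases h0 : 0 ≤ f (x 0)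
  · simp [ind, h0, z2]
  · rw [h x ⟨fun i => ⟨hx.1 i, ?_⟩, fun i j => (hx.2 i j).trans_le (min_le_left _ _)⟩, mul_zero,
      add_zero]
    have := hd _ (hx.1 i) _ (hx.1 0) ((hx.2 i 0).trans_le (min_le_right _ _))
    rw [Real.dist_eq, abs_lt] at this
    rw [mem_preimage, mem_Iic]
    push Not at h0
    linarith [this.2]

lemma lam_van_of {K : Set X} (hK : IsCompact K) {f : X → ℝ} (hf : ContinuousOn f K) {n : ℕ}
    {W : Coch X (n + 1)} {δ : ℝ} (hδ : 0 < δ) (h : Van (K ∩ f ⁻¹' (Icc (-δ) δ)) W) :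
    Van K (lam f W) := by
  obtain ⟨ε, hε, h⟩ := h
  obtain ⟨δ', hδ', hd⟩ := Metric.uniformContinuousOn_iff.1
    (hK.uniformContinuousOn_of_continuous hf) δ hδ
  refine ⟨min ε δ', lt_min hε hδ', fun x hx => ?_⟩
  rw [lam]
  by_cases h0 : (0 ≤ f (x 0) ↔ 0 ≤ f (x 1))
  · have : (0 ≤ f (x 0)) = (0 ≤ f (x 1)) := propext h0
    simp only [this, z2, zero_mul]
  · have hcl : ∀ i j, |f (x i) - f (x j)| < δ := by
      intro i j
      rw [← Real.dist_eq]
      exact hd _ (hx.1 i) _ (hx.1 j) ((hx.2 i j).trans_le (min_le_right _ _))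
    rw [h (Fin.tail x) ⟨fun i => ⟨hx.1 _, ?_⟩,
      fun i j => (hx.2 _ _).trans_le (min_le_left _ _)⟩, mul_zero]
    have h1 := abs_lt.1 (hcl i.succ 0)
    have h2 := abs_lt.1 (hcl i.succ 1)
    rw [mem_preimage]
    show f (x i.succ) ∈ Icc (-δ) δ
    by_cases h3 : 0 ≤ f (x 0)
    · have h4 : f (x 1) < 0 := by
        by_contra h4
        exact h0 ⟨fun _ => not_lt.1 h4, fun _ => h3⟩
      constructor <;> linarith [h1.1, h1.2, h2.1, h2.2]
    · have h4 : 0 ≤ f (x 1) := by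
        by_contra h4
        exact h0 ⟨fun h => absurd h h3, fun h => absurd h h4⟩
      push Not at h3
      constructor <;> linarith [h1.1, h1.2, h2.1, h2.2]

/-- Two classes which are equal on one slice are equal on all slices. -/
lemma slice_const {S S0 : Set X} (hS : IsCompact S) (hS0 : IsCompact S0) (h0 : S0 ⊆ S)
    {f : X → ℝ} (hf : ContinuousOn f S) {n : ℕ} {w W : Coch X n} (hw : Coc S S0 w)
    (hW : Coc S S0 W) {a b : ℝ} (hab : a ≤ b)
    (hne : ∀ t ∈ Icc a b, ¬ Cob (S ∩ f ⁻¹' {t} ∪ S0) S0 W)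
    (hor : ∀ t ∈ Icc a b, Cob (S ∩ f ⁻¹' {t} ∪ S0) S0 w ∨ Cob (S ∩ f ⁻¹' {t} ∪ S0) S0 (w + W)) :
    ¬ (Cob (S ∩ f ⁻¹' {a} ∪ S0) S0 w ∧ Cob (S ∩ f ⁻¹' {b} ∪ S0) S0 (w + W)) ∧
    ¬ (Cob (S ∩ f ⁻¹' {a} ∪ S0) S0 (w + W) ∧ Cob (S ∩ f ⁻¹' {b} ∪ S0) S0 w) := by
  have hopen : ∀ v : Coch X n, Coc S S0 v → IsOpen {t : ℝ | Cob (S ∩ f ⁻¹' {t} ∪ S0) S0 v} := by
    intro v hv
    rw [Metric.isOpen_iff]
    intro t ht
    obtain ⟨δ, hδ, hc⟩ := slice_cob hS hS0 h0 hf hv ht
    refine ⟨δ, hδ, fun t' ht' => ?_⟩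
    refine Cob.mono hc (union_subset_union_left _ ?_) subset_rfl
    rintro x ⟨hx, hxt⟩
    refine ⟨hx, ?_⟩
    have h1 : f x = t' := hxt
    rw [mem_preimage, h1]
    rw [Metric.mem_ball, Real.dist_eq, abs_lt] at ht'
    constructor <;> linarith [ht'.1, ht'.2]
  have hcon := (isPreconnected_Icc (a := a) (b := b)) _ _ (hopen w hw) (hopen _ (hw.add hW))
    (fun t ht => hor t ht)
  have hfalse : ¬ (Icc a b ∩ ({t : ℝ | Cob (S ∩ f ⁻¹' {t} ∪ S0) S0 w} ∩
      {t : ℝ | Cob (S ∩ f ⁻¹' {t} ∪ S0) S0 (w + W)})).Nonempty := by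
    rintro ⟨t, ht, h1, h2⟩
    exact hne t ht (Cob.congr h2 h1)
  constructor
  · rintro ⟨h1, h2⟩
    exact hfalse (hcon ⟨a, ⟨le_rfl, hab⟩, h1⟩ ⟨b, ⟨hab, le_rfl⟩, h2⟩)
  · rintro ⟨h1, h2⟩
    exact hfalse (hcon ⟨b, ⟨hab, le_rfl⟩, h2⟩ ⟨a, ⟨le_rfl, hab⟩, h1⟩)

/-- The class vanishes in the next degree on `S` if it does so on all slices and `W` generates the
classes of the slices. -/
lemma line_van {S S0 : Set X} (hS : IsCompact S) (hS0 : IsCompact S0) (h0 : S0 ⊆ S) {f : X → ℝ}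
    (hf : ContinuousOn f S) {n : ℕ} {W : Coch X (n + 1)} (hW : Coc S S0 W) {a b : ℝ}
    (hfab : ∀ x ∈ S, f x ∈ Icc a b)
    (hgen : ∀ t ∈ Icc a b, HG (S ∩ f ⁻¹' {t} ∪ S0) S0 W)
    (hvan : ∀ t ∈ Icc a b, HZ (n + 2) (S ∩ f ⁻¹' {t} ∪ S0) S0) : HZ (n + 2) S S0 := by
  have hout : ∀ t, t ∉ Icc a b → S ∩ f ⁻¹' {t} ∪ S0 = S0 := by
    intro t ht
    refine union_eq_self_of_subset_left ?_
    rintro x ⟨hx, hxt⟩
    have h1 : f x = t := hxt
    exact absurd (h1 ▸ hfab x hx) ht
  intro w hw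
  refine slice hS hS0 h0 hf hw (fun t => ?_) (fun t e he => ?_)
  · by_cases ht : t ∈ Icc a b
    · exact hvan t ht w (hw.mono (union_subset inter_subset_left h0) subset_rfl)
    · rw [hout t ht]; exact Cob.of_van hw.van
  · by_cases ht : t ∈ Icc a b
    · rcases (hgen t ht).gen e he with h1 | h1
      · exact ⟨0, Coc.zero _ _, by rw [add_zero]; exact h1⟩
      · exact ⟨W, hW, h1⟩
    · rw [hout t ht] at he ⊢
      exact ⟨0, Coc.zero _ _, by rw [add_zero]; exact Cob.of_van he.van⟩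

/-- **The one-dimensional lemma.** -/
theorem line {S S0 : Set X} (hS : IsCompact S) (hS0 : IsCompact S0) (h0 : S0 ⊆ S) {f : X → ℝ}
    (hf : ContinuousOn f S) {n : ℕ} {W : Coch X (n + 1)} (hW : Coc S S0 W) {a b : ℝ} (ha : a < 0)
    (hb : 0 < b) (hfab : ∀ x ∈ S, f x ∈ Icc a b)
    (hgen : ∀ t ∈ Icc a b, HG (S ∩ f ⁻¹' {t} ∪ S0) S0 W)
    (hvan : ∀ t ∈ Icc a b, HZ (n + 2) (S ∩ f ⁻¹' {t} ∪ S0) S0) :
    HG S (S ∩ f ⁻¹' {a} ∪ S ∩ f ⁻¹' {b} ∪ S0) (lam f W) := by
  have hab : a ≤ b := (ha.trans hb).le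
  have haI : a ∈ Icc a b := ⟨le_rfl, hab⟩
  have hbI : b ∈ Icc a b := ⟨hab, le_rfl⟩
  obtain ⟨K, hK⟩ : ∃ K, K = S ∩ f ⁻¹' {a} ∪ S ∩ f ⁻¹' {b} ∪ S0 := ⟨_, rfl⟩
  rw [← hK]
  have hKS : K ⊆ S := by
    rw [hK]; exact union_subset (union_subset inter_subset_left inter_subset_left) h0
  have h0K : S0 ⊆ K := by rw [hK]; exact subset_union_right
  have hSa : IsCompact (S ∩ f ⁻¹' {a} ∪ S0) :=
    (isCompact_inter_pre hS hf isClosed_singleton).union hS0
  have hSb : IsCompact (S ∩ f ⁻¹' {b} ∪ S0) :=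
    (isCompact_inter_pre hS hf isClosed_singleton).union hS0
  have hSaS : S ∩ f ⁻¹' {a} ∪ S0 ⊆ S := union_subset inter_subset_left h0
  have hSbS : S ∩ f ⁻¹' {b} ∪ S0 ⊆ S := union_subset inter_subset_left h0
  have hKab : K = (S ∩ f ⁻¹' {a} ∪ S0) ∪ (S ∩ f ⁻¹' {b} ∪ S0) := by
    rw [hK, union_union_distrib_right]
  have haK : S ∩ f ⁻¹' {a} ∪ S0 ⊆ K := by rw [hKab]; exact subset_union_left
  have hbK : S ∩ f ⁻¹' {b} ∪ S0 ⊆ K := by rw [hKab]; exact subset_union_right
  have hKc : IsCompact K := by rw [hKab]; exact hSa.union hSb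
  -- `chi f W` near the two ends
  have hchia : Van (S ∩ f ⁻¹' {a} ∪ S0) (chi f W) := by
    refine chi_van_of hSa (hf.mono hSaS) (δ := -a / 2) (by linarith) (hW.van.mono ?_)
    rintro x ⟨⟨_, h1⟩ | h1, h2⟩
    · have h3 : f x = a := h1
      have h4 : -(-a / 2) ≤ f x := h2
      exfalso; linarith
    · exact h1
  have hchib : Van (S ∩ f ⁻¹' {b} ∪ S0) (W + chi f W) := by
    refine chi_van_of' hSb (hf.mono hSbS) (δ := b / 2) (by linarith) (hW.van.mono ?_)
    rintro x ⟨⟨_, h1⟩ | h1, h2⟩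
    · have h3 : f x = b := h1
      have h4 : f x ≤ b / 2 := h2
      exfalso; linarith
    · exact h1
  have hchid : Van S (chi f (dl W)) := hW.cl.chi f
  have hZK : Van K (lam f W) := by
    obtain ⟨δ, hδ, hδa, hδb⟩ : ∃ δ > 0, δ < -a ∧ δ < b :=
      ⟨min (-a) b / 2, by have := lt_min (neg_pos.2 ha) hb; linarith,
        by have := min_le_left (-a) b; have := lt_min (neg_pos.2 ha) hb; linarith,
        by have := min_le_right (-a) b; have := lt_min (neg_pos.2 ha) hb; linarith⟩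
    refine lam_van_of hKc (hf.mono hKS) hδ (hW.van.mono ?_)
    rw [hK]
    rintro x ⟨(⟨_, h1⟩ | ⟨_, h1⟩) | h1, h2⟩
    · have h3 : f x = a := h1
      have h4 : -δ ≤ f x := h2.1
      exfalso; linarith
    · have h3 : f x = b := h1
      have h4 : f x ≤ δ := h2.2
      exfalso; linarith
    · exact h1
  have hdchiK : Van K (dl (chi f W)) := by
    rw [dl_chi]; exact hZK.add (hchid.mono hKS)
  have hor : ∀ w, Coc S S0 w → ∀ t ∈ Icc a b,
      Cob (S ∩ f ⁻¹' {t} ∪ S0) S0 w ∨ Cob (S ∩ f ⁻¹' {t} ∪ S0) S0 (w + W) := fun w hw t ht =>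
    (hgen t ht).gen w (hw.mono (union_subset inter_subset_left h0) subset_rfl)
  refine ⟨⟨hZK, by rw [dl_lam]; exact hW.cl.lam f⟩, ?_, ?_⟩
  · rintro ⟨g, hg, hZg⟩
    have hw : Coc S S0 (chi f W + g) := by
      refine ⟨(hW.van.chi f).add (hg.mono h0K), ?_⟩
      have e : dl (chi f W + g) = (lam f W + dl g) + chi f (dl W) := by
        rw [dl_add, dl_chi]; abel
      rw [e]; exact hZg.add hchid
    have h1 : Cob (S ∩ f ⁻¹' {a} ∪ S0) S0 (chi f W + g) :=
      Cob.of_van (hchia.add (hg.mono haK))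
    have h2 : Cob (S ∩ f ⁻¹' {b} ∪ S0) S0 (chi f W + g + W) := by
      have e : chi f W + g + W = (W + chi f W) + g := by abel
      rw [e]
      exact Cob.of_van (hchib.add (hg.mono hbK))
    exact (slice_const hS hS0 h0 hf hw hW hab (fun t ht => (hgen t ht).ne) (hor _ hw)).1 ⟨h1, h2⟩
  · intro F hF
    have hFS : Cob S S0 F := line_van hS hS0 h0 hf hW hfab hgen hvan F (hF.mono subset_rfl h0K)
    obtain ⟨f', hf', hFf⟩ := les3 hKS hF hFS
    -- gluing over the two ends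
    have glue : ∀ v : Coch X (n + 1), Coc K S0 v → Cob (S ∩ f ⁻¹' {a} ∪ S0) S0 v →
        Cob (S ∩ f ⁻¹' {b} ∪ S0) S0 v → Cob S K (dl v) := by
      intro v hv hva hvb
      have hin : (S ∩ f ⁻¹' {a} ∪ S0) ∩ (S ∩ f ⁻¹' {b} ∪ S0) = S0 := by
        ext x
        simp only [mem_union, mem_inter_iff, mem_preimage, mem_singleton_iff]
        constructor
        · rintro ⟨⟨h1, h2⟩ | h1, ⟨h3, h4⟩ | h3⟩
          · exfalso; linarith
          · exact h3
          · exact h1
          · exact h1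
        · intro h; exact ⟨Or.inr h, Or.inr h⟩
      rw [hKab] at hv
      have h1 := mv_injL hSa hSb subset_union_right hv hva hvb (by
        intro e he
        rw [hin] at he ⊢
        exact ⟨0, Coc.zero _ _, by rw [add_zero]; exact Cob.of_van he.van⟩)
      rw [← hKab] at h1
      exact h1.dl
    have hWK : Coc K S0 W := hW.mono hKS subset_rfl
    have hcK : Coc K S0 (chi f W) := ⟨hW.van.chi f, hdchiK⟩
    have hdW : Cob S K (dl W) := Cob.of_van hW.cl
    have hdc : Cob S K (dl (chi f W) + lam f W) := by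
      have e : dl (chi f W) + lam f W = chi f (dl W) := by
        rw [dl_chi]
        have e : lam f W + chi f (dl W) + lam f W = (lam f W + lam f W) + chi f (dl W) := by abel
        rw [e, add_self_coch, zero_add]
      rw [e]; exact Cob.of_van hchid
    rcases (hgen a haI).gen f' (hf'.mono haK subset_rfl) with h1 | h1 <;>
      rcases (hgen b hbI).gen f' (hf'.mono hbK subset_rfl) with h2 | h2
    · left
      exact hFf.congr' (glue f' hf' h1 h2)
    · right
      have h3 := glue (f' + chi f W) (hf'.add hcK) (h1.add (Cob.of_van hchia)) (by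
        have e : f' + chi f W = (f' + W) + (W + chi f W) := by
          have e : (f' + W) + (W + chi f W) = (W + W) + (f' + chi f W) := by abel
          rw [e, add_self_coch, zero_add]
        rw [e]; exact h2.add (Cob.of_van hchib))
      have e : F + lam f W = (F + dl f') + (dl (f' + chi f W) + (dl (chi f W) + lam f W)) := by
        rw [dl_add]
        have e : (F + dl f') + (dl f' + dl (chi f W) + (dl (chi f W) + lam f W)) =
          (dl f' + dl f') + (dl (chi f W) + dl (chi f W)) + (F + lam f W) := by abel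
        rw [e, add_self_coch, add_self_coch, zero_add, zero_add]
      rw [e]; exact hFf.add (h3.add hdc)
    · right
      have h3 := glue (f' + W + chi f W) ((hf'.add hWK).add hcK) (h1.add (Cob.of_van hchia)) (by
        rw [add_assoc]; exact h2.add (Cob.of_van hchib))
      have e : F + lam f W = (F + dl f') + (dl (f' + W + chi f W) + (dl (chi f W) + lam f W)) +
          dl W := by
        rw [dl_add, dl_add]
        have e : (F + dl f') + (dl f' + dl W + dl (chi f W) + (dl (chi f W) + lam f W)) + dl W =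
          (dl f' + dl f') + (dl W + dl W) + (dl (chi f W) + dl (chi f W)) + (F + lam f W) := by
          abel
        rw [e]; simp only [add_self_coch, zero_add]
      rw [e]; exact (hFf.add (h3.add hdc)).add hdW
    · left
      have h3 := glue (f' + W) (hf'.add hWK) h1 h2
      have e : F = (F + dl f') + dl (f' + W) + dl W := by
        rw [dl_add]
        have e : (F + dl f') + (dl f' + dl W) + dl W = (dl f' + dl f') + (dl W + dl W) + F := by
          abel
        rw [e, add_self_coch, add_self_coch, zero_add, zero_add]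
      rw [e]; exact (hFf.add h3).add hdW

end

end ASC
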